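import Mathlib

set_option autoImplicit false
set_option maxHeartbeats 400000

/-!
Real inequalities for the comparison of the constants.
-/

namespace Pool.Agent.K4H45.BL

theorem realA {A B V C L l n r : ℝ} (hA : 0 < A) (hB : 0 < B) (hV : 0 < V) (hC : 1 ≤ C) (hL : 0 < L)
    (hl : 1 ≤ l) (hn : 0 < n) (hr : 1 ≤ r) (hnr : n ≤ r) (h : A * B ≤ C * L * l ^ n * V ^ n) :
    A ^ (1 / r) * V ^ (1 - n / r) * B ^ (1 / r) ≤ C * l * L ^ (1 / r) * V := by
  have hr0 : 0 < r := by linarith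
  have hl0 : 0 < l := by linarith
  have hC0 : 0 < C := by linarith
  have h1 : (A * B) ^ (1 / r) ≤ (C * L * l ^ n * V ^ n) ^ (1 / r) :=
    Real.rpow_le_rpow (by positivity) h (by positivity)
  rw [Real.mul_rpow hA.le hB.le, Real.mul_rpow (by positivity) (by positivity),
    Real.mul_rpow (by positivity) (by positivity), Real.mul_rpow hC0.le hL.le,
    ← Real.rpow_mul hl0.le, ← Real.rpow_mul hV.le] at h1
  have h2 : C ^ (1 / r) ≤ C := by
    calc C ^ (1 / r) ≤ C ^ (1:ℝ) := Real.rpow_le_rpow_of_exponent_le hC (by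
          rw [div_le_one hr0]; exact hr)
      _ = C := Real.rpow_one C
  have h3 : l ^ (n * (1 / r)) ≤ l := by
    calc l ^ (n * (1 / r)) ≤ l ^ (1:ℝ) := Real.rpow_le_rpow_of_exponent_le hl (by
          rw [mul_one_div, div_le_one hr0]; exact hnr)
      _ = l := Real.rpow_one l
  have h4 : V ^ (n * (1 / r)) * V ^ (1 - n / r) = V := by
    rw [← Real.rpow_add hV]
    have : n * (1 / r) + (1 - n / r) = 1 := by ring
    rw [this, Real.rpow_one]
  calc A ^ (1 / r) * V ^ (1 - n / r) * B ^ (1 / r)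
      = (A ^ (1 / r) * B ^ (1 / r)) * V ^ (1 - n / r) := by ring
    _ ≤ (C ^ (1 / r) * L ^ (1 / r) * l ^ (n * (1 / r)) * V ^ (n * (1 / r))) * V ^ (1 - n / r) := by
        gcongr
    _ = C ^ (1 / r) * L ^ (1 / r) * l ^ (n * (1 / r)) * (V ^ (n * (1 / r)) * V ^ (1 - n / r)) := by ring
    _ ≤ C * L ^ (1 / r) * l * V := by
        rw [h4]
        gcongr
    _ = _ := by ring

theorem realB {A q W C L l d r s : ℝ} (hA : 0 < A) (hq : 0 < q) (hW : 0 < W) (hC : 1 ≤ C) (hL : 0 < L)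
    (hl : 1 ≤ l) (hd : 0 < d) (hs0 : 0 ≤ s) (hs1 : s ≤ 1) (hsr : s / (d + 1) + (1 - s) = 1 / r)
    (h : A ≤ C * L * l ^ (d + 1) * q ^ (d + 1) * W ^ d) :
    A ^ (s / (d + 1)) * (q * L) ^ (1 - s) ≤ C * l * L ^ (1 / r) * (q * W ^ (1 - 1 / r)) := by
  have hl0 : 0 < l := by linarith
  have hC0 : 0 < C := by linarith
  have hn : 0 < d + 1 := by linarith
  have he : 0 ≤ s / (d + 1) := by positivity
  have h1 : A ^ (s / (d + 1)) ≤ (C * L * l ^ (d + 1) * q ^ (d + 1) * W ^ d) ^ (s / (d + 1)) :=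
    Real.rpow_le_rpow hA.le h he
  rw [Real.mul_rpow (by positivity) (by positivity), Real.mul_rpow (by positivity) (by positivity),
    Real.mul_rpow (by positivity) (by positivity), Real.mul_rpow hC0.le hL.le,
    ← Real.rpow_mul hl0.le, ← Real.rpow_mul hq.le, ← Real.rpow_mul hW.le] at h1
  have e1 : (d + 1) * (s / (d + 1)) = s := by field_simp
  have e2 : d * (s / (d + 1)) = 1 - 1 / r := by
    rw [← hsr]
    field_simp
    ring
  rw [e1, e2] at h1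
  have h2 : C ^ (s / (d + 1)) ≤ C := by
    calc C ^ (s / (d + 1)) ≤ C ^ (1:ℝ) := Real.rpow_le_rpow_of_exponent_le hC (by
          rw [div_le_one hn]; linarith)
      _ = C := Real.rpow_one C
  have h3 : l ^ s ≤ l := by
    calc l ^ s ≤ l ^ (1:ℝ) := Real.rpow_le_rpow_of_exponent_le hl hs1
      _ = l := Real.rpow_one l
  have h4 : q ^ s * q ^ (1 - s) = q := by
    rw [← Real.rpow_add hq]
    have : s + (1 - s) = 1 := by ring
    rw [this, Real.rpow_one]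
  have h5 : L ^ (s / (d + 1)) * L ^ (1 - s) = L ^ (1 / r) := by
    rw [← Real.rpow_add hL, hsr]
  calc A ^ (s / (d + 1)) * (q * L) ^ (1 - s)
      ≤ (C ^ (s / (d + 1)) * L ^ (s / (d + 1)) * l ^ s * q ^ s * W ^ (1 - 1 / r)) * (q * L) ^ (1 - s) := by
        gcongr
    _ = C ^ (s / (d + 1)) * l ^ s * (L ^ (s / (d + 1)) * L ^ (1 - s)) *
          ((q ^ s * q ^ (1 - s)) * W ^ (1 - 1 / r)) := by
        rw [Real.mul_rpow hq.le hL.le]
        ring
    _ ≤ C * l * L ^ (1 / r) * (q * W ^ (1 - 1 / r)) := by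
        rw [h4, h5]
        gcongr

/-- The first comparison of the constants. -/
theorem condA {d : ℕ} {q N κ σ L l c v b C : ℝ} (hq : 0 < q) (hN : 1 ≤ N) (hκ : 0 < κ) (hσ : 0 < σ)
    (hL : 0 < L) (hl : 1 ≤ l) (hc : 0 < c) (hv : 0 < v) (hb : 0 < b) (hcard : κ * N ^ d ≤ q)
    (hC : c ^ (d + 1) / (v * σ ^ d) * b / κ ≤ C) :
    (q ^ d * (L * (c * N ^ d * l) ^ (d + 1) / (v * (σ / N) ^ d))) * (b * N ^ (2 * (d + 1))) ≤
      C * L * l ^ (d + 1) * (q * N ^ (d + 2)) ^ (d + 1) := by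
  have hN0 : 0 < N := by linarith
  have hl0 : 0 < l := by linarith
  have hq1 : N ^ d ≤ q / κ := by
    rw [le_div_iff₀ hκ]
    linarith
  have e1 : (q ^ d * (L * (c * N ^ d * l) ^ (d + 1) / (v * (σ / N) ^ d))) * (b * N ^ (2 * (d + 1))) =
      (c ^ (d + 1) / (v * σ ^ d) * b) * N ^ d * (L * l ^ (d + 1) * q ^ d * (N ^ (d + 2)) ^ (d + 1)) := by
    rw [div_pow, mul_pow, mul_pow]
    have e2 : (N ^ d) ^ (d + 1) * N ^ (2 * (d + 1)) = (N ^ (d + 2)) ^ (d + 1) := by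
      rw [← pow_mul, ← pow_mul, ← pow_add]
      congr 1
      ring
    rw [← e2]
    field_simp
  rw [e1]
  calc (c ^ (d + 1) / (v * σ ^ d) * b) * N ^ d * (L * l ^ (d + 1) * q ^ d * (N ^ (d + 2)) ^ (d + 1))
      ≤ (c ^ (d + 1) / (v * σ ^ d) * b) * (q / κ) * (L * l ^ (d + 1) * q ^ d * (N ^ (d + 2)) ^ (d + 1)) := by
        gcongr
    _ = (c ^ (d + 1) / (v * σ ^ d) * b / κ) * (L * l ^ (d + 1) * (q * N ^ (d + 2)) ^ (d + 1)) := by
        rw [mul_pow q, pow_succ q]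
        ring
    _ ≤ C * (L * l ^ (d + 1) * (q * N ^ (d + 2)) ^ (d + 1)) := by gcongr
    _ = _ := by ring

/-- The second comparison of the constants. -/
theorem condB {d : ℕ} {q N κ σ L l c v w C : ℝ} (hq : 0 < q) (hN : 1 ≤ N) (hκ : 0 < κ) (hσ : 0 < σ)
    (hL : 0 < L) (hl : 1 ≤ l) (hc : 0 < c) (hv : 0 < v) (hw : 0 < w) (hcard : κ * N ^ d ≤ q)
    (hC : c ^ (d + 1) / (v * σ ^ d) * (2 ^ (d + 1) / w) ^ d / κ ≤ C) :
    q ^ d * (L * (c * N ^ d * l) ^ (d + 1) / (v * (σ / N) ^ d)) ≤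
      C * L * l ^ (d + 1) * q ^ (d + 1) * ((N / 2) ^ (d + 1) * w) ^ d := by
  have hN0 : 0 < N := by linarith
  have hl0 : 0 < l := by linarith
  have hq1 : N ^ d ≤ q / κ := by
    rw [le_div_iff₀ hκ]
    linarith
  have e1 : q ^ d * (L * (c * N ^ d * l) ^ (d + 1) / (v * (σ / N) ^ d)) =
      (c ^ (d + 1) / (v * σ ^ d)) * N ^ d * (L * l ^ (d + 1) * q ^ d * (N ^ d) ^ (d + 1)) := by
    rw [div_pow, mul_pow, mul_pow]
    field_simp
  have e2 : ((N / 2) ^ (d + 1) * w) ^ d = (N ^ d) ^ (d + 1) * (w / 2 ^ (d + 1)) ^ d := by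
    rw [div_pow, div_mul_eq_mul_div, mul_div_assoc, mul_pow]
    congr 1
    rw [← pow_mul, ← pow_mul]
    congr 1
    ring
  have e3 : (2 ^ (d + 1) / w) ^ d * (w / 2 ^ (d + 1)) ^ d = 1 := by
    rw [← mul_pow]
    have : 2 ^ (d + 1) / w * (w / 2 ^ (d + 1)) = 1 := by field_simp
    rw [this, one_pow]
  rw [e1]
  calc (c ^ (d + 1) / (v * σ ^ d)) * N ^ d * (L * l ^ (d + 1) * q ^ d * (N ^ d) ^ (d + 1))
      ≤ (c ^ (d + 1) / (v * σ ^ d)) * (q / κ) * (L * l ^ (d + 1) * q ^ d * (N ^ d) ^ (d + 1)) := by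
        gcongr
    _ = (c ^ (d + 1) / (v * σ ^ d) / κ) * (L * l ^ (d + 1) * q ^ (d + 1) * (N ^ d) ^ (d + 1)) *
          ((2 ^ (d + 1) / w) ^ d * (w / 2 ^ (d + 1)) ^ d) := by
        rw [e3, pow_succ q]
        ring
    _ = (c ^ (d + 1) / (v * σ ^ d) * (2 ^ (d + 1) / w) ^ d / κ) *
          (L * l ^ (d + 1) * q ^ (d + 1) * ((N / 2) ^ (d + 1) * w) ^ d) := by
        rw [e2]
        ring
    _ ≤ C * (L * l ^ (d + 1) * q ^ (d + 1) * ((N / 2) ^ (d + 1) * w) ^ d) := by gcongr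
    _ = _ := by ring

end Pool.Agent.K4H45.BL
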