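import Pool.Agent.K4H45.BL.Crj
import Pool.Agent.K4H45.BL.Rea

set_option autoImplicit false
set_option maxHeartbeats 400000

/-!
The inequality at all exponents.
-/

open MeasureTheory Set ENNReal Metric

namespace Pool.Agent.K4H45.BL

open Pool.Agent.H810R3.Tub (Vec Space nor box dir Fb wv wv_pos)

variable {d : ℕ}

/-- The norm of the sum of the centred boxes. -/
noncomputable def T0 {ι : Type} [Fintype ι] (N : ℝ) (ω : ι → Vec d) (f : ι → Fin d → Space d)
    (p : ℝ≥0∞) : ℝ≥0∞ :=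
  eLpNorm (fun y : Space d => ∑ i, (box N (nor (ω i)) (f i) 0).indicator (fun _ => (1 : ℝ)) y) p volume

theorem holder_set {ι : Type} [Fintype ι] (N : ℝ) (ω : ι → Vec d) (f : ι → Fin d → Space d)
    {p : ℝ≥0∞} (hp : 1 ≤ p) (S : Set (Space d)) :
    ∫⁻ y in S, Fb N ω f (fun _ => 0) y ≤ T0 N ω f p * volume S ^ (1 - 1 / p.toReal) := by
  set g : Space d → ℝ := fun y => ∑ i, (box N (nor (ω i)) (f i) 0).indicator (fun _ => (1 : ℝ)) y with hg
  have hgm : Measurable g := by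
    refine Finset.measurable_fun_sum _ fun i _ => ?_
    exact measurable_const.indicator (Pool.Agent.H810R3.Tub.box_closed _ _ _ _).measurableSet
  have h1 := eLpNorm_le_eLpNorm_mul_rpow_measure_univ (μ := volume.restrict S) hp
    hgm.aestronglyMeasurable
  rw [Measure.restrict_apply_univ, ENNReal.toReal_one, div_one] at h1
  have h2 : eLpNorm g 1 (volume.restrict S) = ∫⁻ y in S, Fb N ω f (fun _ => 0) y := by
    rw [eLpNorm_one_eq_lintegral_enorm]
    refine lintegral_congr fun y => ?_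
    exact Pool.Agent.H810R3.Tub.enorm_sum_box N ω f (fun _ => (0 : Space d)) y
  rw [h2] at h1
  refine h1.trans (mul_le_mul_left ?_ _)
  exact eLpNorm_restrict_le _ _ _ _

/-- The lower bound by the integral. -/
theorem lowA {ι : Type} [Fintype ι] {N : ℝ} (hN : 1 ≤ N) (ω : ι → Vec d) (f : ι → Fin d → Space d)
    (hf : ∀ i, Orthonormal ℝ (Fin.cons (nor (ω i)) (f i) : Fin (d + 1) → Space d))
    {p : ℝ≥0∞} (hp : 1 ≤ p) {r : ℝ} (hpr : 1 - 1 / p.toReal = 1 / r) :
    ENNReal.ofReal ((Fintype.card ι : ℝ) * N ^ (d + 2)) ≤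
      T0 N ω f p * ENNReal.ofReal ((1 + (d : ℝ)) ^ (d + 1) * wv d * N ^ (2 * (d + 1))) ^ (1 / r) := by
  have hN0 : 0 < N := by linarith
  have hd0 : (0 : ℝ) ≤ d := Nat.cast_nonneg d
  have hw0 : 0 < wv d := wv_pos d
  have hwe : volume (ball (0 : Space d) 1) = ENNReal.ofReal (wv d) := by
    rw [wv, ENNReal.ofReal_toReal measure_ball_lt_top.ne]
  have hBv : volume (closedBall (0 : Space d) ((1 + d) * N ^ 2)) =
      ENNReal.ofReal ((1 + (d : ℝ)) ^ (d + 1) * wv d * N ^ (2 * (d + 1))) := by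
    have : Nontrivial (Space d) := by
      apply Module.nontrivial_of_finrank_pos (R := ℝ)
      rw [Pool.Agent.H810R3.Tub.finrank_space]
      omega
    rw [Measure.addHaar_closedBall _ _ (by positivity), Pool.Agent.H810R3.Tub.finrank_space, hwe,
      ← ENNReal.ofReal_mul (by positivity)]
    congr 1
    rw [mul_pow, ← pow_mul]
    ring
  have h1 := holder_set N ω f hp (closedBall (0 : Space d) ((1 + d) * N ^ 2))
  rw [hBv, hpr] at h1
  refine le_trans (le_of_eq ?_) h1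
  rw [← Pool.Agent.H810R3.Tub.Fb_int hN hf (fun _ => 0), ← lintegral_indicator measurableSet_closedBall]
  refine lintegral_congr fun y => ?_
  by_cases hy : y ∈ closedBall (0 : Space d) ((1 + d) * N ^ 2)
  · rw [indicator_of_mem hy]
  · rw [indicator_of_notMem hy]
    unfold Fb
    apply Finset.sum_eq_zero
    intro i _
    exact indicator_of_notMem (fun h => hy (Pool.Agent.H810R3.Tub.box_sub_ball hN (hf i) h)) _

/-- The lower bound by the central ball. -/
theorem lowB {ι : Type} [Fintype ι] {N : ℝ} (hN : 1 ≤ N) (ω : ι → Vec d) (f : ι → Fin d → Space d)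
    (hf : ∀ i, Orthonormal ℝ (Fin.cons (nor (ω i)) (f i) : Fin (d + 1) → Space d))
    {p : ℝ≥0∞} (hp : 1 ≤ p) {r : ℝ} (hpr : 1 - 1 / p.toReal = 1 / r) :
    ENNReal.ofReal ((Fintype.card ι : ℝ) * ((N / 2) ^ (d + 1) * wv d) ^ (1 - 1 / r)) ≤ T0 N ω f p := by
  have hN0 : 0 < N := by linarith
  have hw0 : 0 < wv d := wv_pos d
  have hwe : volume (ball (0 : Space d) 1) = ENNReal.ofReal (wv d) := by
    rw [wv, ENNReal.ofReal_toReal measure_ball_lt_top.ne]
  set W : ℝ := (N / 2) ^ (d + 1) * wv d with hW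
  have hW0 : 0 < W := by positivity
  have hbv : volume (ball (0 : Space d) (N / 2)) = ENNReal.ofReal W := by
    rw [Measure.addHaar_ball_of_pos _ _ (by positivity), Pool.Agent.H810R3.Tub.finrank_space, hwe,
      ← ENNReal.ofReal_mul (by positivity)]
  have h1 := holder_set N ω f hp (ball (0 : Space d) (N / 2))
  rw [hbv, hpr] at h1
  have h2 : ∫⁻ y in ball (0 : Space d) (N / 2), Fb N ω f (fun _ => 0) y =
      ENNReal.ofReal ((Fintype.card ι : ℝ) * W) := by
    rw [ENNReal.ofReal_mul (by positivity), ← hbv, ← setLIntegral_const]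
    refine setLIntegral_congr_fun measurableSet_ball fun y hy => ?_
    unfold Fb
    rw [Finset.sum_congr rfl (fun i _ => indicator_of_mem
      (Pool.Agent.H810R3.Tub.ball_sub_box hN (hf i) hy) _)]
    simp
  rw [h2, ENNReal.ofReal_rpow_of_pos hW0] at h1
  have hWr : 0 < W ^ (1 / r) := Real.rpow_pos_of_pos hW0 _
  have e : (Fintype.card ι : ℝ) * W = (Fintype.card ι : ℝ) * W ^ (1 - 1 / r) * W ^ (1 / r) := by
    rw [mul_assoc, ← Real.rpow_add hW0]
    have : 1 - 1 / r + 1 / r = 1 := by ring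
    rw [this, Real.rpow_one]
  rw [e, ENNReal.ofReal_mul (by positivity)] at h1
  refine (ENNReal.mul_le_mul_iff_left ?_ ENNReal.ofReal_ne_top).1 h1
  rw [ne_eq, ENNReal.ofReal_eq_zero, not_le]
  exact hWr

variable {J : Type} [Fintype J] {k : J → ℕ}

theorem card_le_dim {k : ℕ} {b : Fin k → Space d} (hb : Orthonormal ℝ b) : k ≤ d + 1 := by
  have h := hb.linearIndependent.fintype_card_le_finrank
  rwa [Fintype.card_fin, Pool.Agent.H810R3.Tub.finrank_space] at h

theorem rpow_conj {p : ℝ≥0∞} {r : ℝ} (hr : 1 ≤ r) (hpr : p⁻¹ + (ENNReal.ofReal r)⁻¹ = 1) :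
    1 ≤ p ∧ 1 - 1 / p.toReal = 1 / r := by
  have hr0 : 0 < r := by linarith
  constructor
  · rw [← ENNReal.inv_le_one, ← hpr]
    exact le_self_add
  · have h1 : p⁻¹ ≠ ∞ := by
      intro h
      rw [h, top_add] at hpr
      exact absurd hpr (by simp)
    have h2 : (ENNReal.ofReal r)⁻¹ ≠ ∞ := by
      rw [ne_eq, ENNReal.inv_eq_top, ENNReal.ofReal_eq_zero, not_le]
      exact hr0
    have h3 := congrArg ENNReal.toReal hpr
    rw [ENNReal.toReal_add h1 h2, ENNReal.toReal_inv, ENNReal.toReal_inv, ENNReal.toReal_ofReal hr0.le,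
      ENNReal.toReal_one] at h3
    rw [one_div, one_div]
    linarith

/-- The constant. -/
noncomputable def c2 (d : ℕ) (σ κ : ℝ) : ℝ :=
  1 + c1 d ^ (d + 1) / (vd d * σ ^ d) * ((1 + (d : ℝ)) ^ (d + 1) * wv d) / κ +
    c1 d ^ (d + 1) / (vd d * σ ^ d) * (2 ^ (d + 1) / wv d) ^ d / κ

theorem c2_props (d : ℕ) {σ κ : ℝ} (hσ : 0 < σ) (hκ : 0 < κ) : 1 ≤ c2 d σ κ ∧
    c1 d ^ (d + 1) / (vd d * σ ^ d) * ((1 + (d : ℝ)) ^ (d + 1) * wv d) / κ ≤ c2 d σ κ ∧
    c1 d ^ (d + 1) / (vd d * σ ^ d) * (2 ^ (d + 1) / wv d) ^ d / κ ≤ c2 d σ κ := by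
  have h1 := c1_pos d
  have h2 := vd_pos d
  have h3 := wv_pos d
  have h4 : 0 ≤ c1 d ^ (d + 1) / (vd d * σ ^ d) * ((1 + (d : ℝ)) ^ (d + 1) * wv d) / κ := by positivity
  have h5 : 0 ≤ c1 d ^ (d + 1) / (vd d * σ ^ d) * (2 ^ (d + 1) / wv d) ^ d / κ := by positivity
  unfold c2
  refine ⟨by linarith, by linarith, by linarith⟩

/-- **All exponents.** -/
theorem all (hd : 1 ≤ d) (hk : ∀ j, 1 ≤ k j) {b : ∀ j, Fin (k j) → Space d}
    (hb : ∀ j, Orthonormal ℝ (b j)) {c : J → ℝ} (hc : ∀ j, 0 < c j) (hck : ∑ j, c j * k j = (d : ℝ) + 1)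
    {L : ℝ} (hL0 : 0 < L) (hL : IsBL k b c L) {N σ κ : ℝ} (hN : 1 ≤ N) (hσ : 0 < σ) (hσ1 : σ ≤ 1)
    (hκ : 0 < κ) {ι : Type} [Fintype ι] {ω : ι → Vec d} {f : ι → Fin d → Space d} (hω : ∀ i, ‖ω i‖ ≤ 1)
    (hsep : ∀ i j, i ≠ j → σ / N ≤ ‖ω i - ω j‖) (hcard : κ * N ^ d ≤ (Fintype.card ι : ℝ))
    (hf : ∀ i, Orthonormal ℝ (Fin.cons (nor (ω i)) (f i) : Fin (d + 1) → Space d)) (a : ι → Space d)
    {u : ∀ j, F (k j) → ℝ≥0∞} (hu : ∀ j, Measurable (u j)) (ha : ∀ j, Adm (u j)) {p : ℝ≥0∞} {r : ℝ} (hr : 1 ≤ r)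
    (hpr : p⁻¹ + (ENNReal.ofReal r)⁻¹ = 1) :
    ∫⁻ y, Fb N ω f a y * ∏ j, u j (proj (b j) y) ≤
      ENNReal.ofReal (c2 d σ κ * (1 + Real.log N) * L ^ (1 / r)) * T0 N ω f p *
        ∏ j, (∫⁻ y, u j y ^ (r / c j)) ^ (c j / r) := by
  obtain ⟨hp1, hpr'⟩ := rpow_conj hr hpr
  have hr0 : 0 < r := by linarith
  have hN0 : 0 < N := by linarith
  have hd0 : (0:ℝ) < d := by exact_mod_cast hd
  have hn0 : (0:ℝ) < (d:ℝ) + 1 := by linarith
  have hlN : 0 ≤ Real.log N := Real.log_nonneg hN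
  have hl : 1 ≤ 1 + Real.log N := by linarith
  have hkd : ∀ j, k j ≤ d + 1 := fun j => card_le_dim (hb j)
  obtain ⟨hC1, hCA, hCB⟩ := c2_props d hσ hκ
  have h1 := c1_pos d
  have h2 := vd_pos d
  have hw0 := wv_pos d
  set C : ℝ := c2 d σ κ with hC
  set q : ℝ := (Fintype.card ι : ℝ) with hq
  have hq0 : 0 < q := lt_of_lt_of_le (by positivity) hcard
  -- the main quantities
  set P : ℝ≥0∞ := ∏ j, (∫⁻ y, u j y ^ (r / c j)) ^ c j with hP
  have hPr : ∏ j, (∫⁻ y, u j y ^ (r / c j)) ^ (c j / r) = P ^ (1 / r) := by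
    rw [hP, ← ENNReal.prod_rpow_of_nonneg (by positivity)]
    refine Finset.prod_congr rfl fun j _ => ?_
    rw [← ENNReal.rpow_mul, mul_one_div]
  rw [hPr]
  have hkc : 0 < kc d σ L N := by
    unfold kc
    positivity
  set A : ℝ := q ^ d * kc d σ L N with hA
  have hA0 : 0 < A := by positivity
  have hAe : (Fintype.card ι : ℝ≥0∞) ^ (d : ℝ) * ENNReal.ofReal (kc d σ L N) = ENNReal.ofReal A := by
    rw [hA, ENNReal.ofReal_mul (by positivity), ENNReal.ofReal_pow hq0.le, hq, ENNReal.ofReal_natCast,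
      ENNReal.rpow_natCast]
  set U : ∀ j, F (k j) → ℝ≥0∞ := fun j y => u j y ^ (r / ((d:ℝ) + 1)) with hU
  have hUm : ∀ j, Measurable (U j) := fun j => (hu j).pow_const _
  set Uy : Space d → ℝ≥0∞ := fun y => ∏ j, U j (proj (b j) y) with hUy
  have hUym : Measurable Uy := Finset.measurable_prod _ fun j _ => (hUm j).comp (proj_cont (b j)).measurable
  set uy : Space d → ℝ≥0∞ := fun y => ∏ j, u j (proj (b j) y) with huy
  have huym : Measurable uy := Finset.measurable_prod _ fun j _ => (hu j).comp (proj_cont (b j)).measurable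
  have hUu : ∀ y, Uy y = uy y ^ (r / ((d:ℝ) + 1)) := by
    intro y
    simp only [hUy, huy, hU]
    rw [← ENNReal.prod_rpow_of_nonneg (by positivity)]
  -- the critical inequality
  have hcrit : ∫⁻ y, Fb N ω f a y * Uy y ≤ (ENNReal.ofReal A * P) ^ (1 / ((d:ℝ) + 1)) := by
    have h3 := crit hk hkd hb hc hck hL0 hL hN hσ hσ1 hω hsep hf a hUm (fun j => (ha j).rpow _)
    have e1 : ∀ j, ∫⁻ y, U j y ^ (((d : ℝ) + 1) / c j) = ∫⁻ y, u j y ^ (r / c j) := by
      intro j
      refine lintegral_congr fun y => ?_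
      simp only [hU]
      rw [← ENNReal.rpow_mul]
      congr 1
      field_simp
    simp_rw [e1] at h3
    rw [← hP, ← mul_assoc, hAe] at h3
    have h4 := ENNReal.rpow_le_rpow h3 (z := 1 / ((d:ℝ) + 1)) (by positivity)
    rw [← ENNReal.rpow_mul, mul_one_div_cancel hn0.ne', ENNReal.rpow_one] at h4
    exact h4
  -- the measure
  set μ : Measure (Space d) := volume.withDensity (Fb N ω f a) with hμ
  have hFm := Pool.Agent.H810R3.Tub.Fb_measurable N ω f a
  have hμi : ∀ {g : Space d → ℝ≥0∞}, Measurable g → ∫⁻ y, g y ∂μ = ∫⁻ y, Fb N ω f a y * g y := by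
    intro g hg
    rw [hμ, lintegral_withDensity_eq_lintegral_mul _ hFm hg]
    rfl
  rw [← hμi huym]
  rcases le_total ((d:ℝ) + 1) r with hnr | hnr
  · -- large conjugate exponents
    set V : ℝ := q * N ^ (d + 2) with hV
    have hV0 : 0 < V := by positivity
    set B : ℝ := (1 + (d : ℝ)) ^ (d + 1) * wv d * N ^ (2 * (d + 1)) with hB
    have hB0 : 0 < B := by positivity
    have hVa : ∫⁻ y, (1:ℝ≥0∞) ∂μ = ENNReal.ofReal V := by
      rw [hμi measurable_const]
      simp_rw [mul_one]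
      exact Pool.Agent.H810R3.Tub.Fb_int hN hf a
    have hs : 0 ≤ 1 - ((d:ℝ) + 1) / r := by
      rw [sub_nonneg, div_le_one hr0]
      exact hnr
    have h3 : ∫⁻ y, uy y ∂μ ≤ (∫⁻ y, Uy y ∂μ) ^ (((d:ℝ) + 1) / r) *
        (∫⁻ y, (1:ℝ≥0∞) ∂μ) ^ (1 - ((d:ℝ) + 1) / r) := by
      have h4 := ENNReal.lintegral_mul_norm_pow_le (μ := μ) hUym.aemeasurable
        (measurable_const (a := (1:ℝ≥0∞))).aemeasurable (p := ((d:ℝ) + 1) / r)
        (q := 1 - ((d:ℝ) + 1) / r) (by positivity) hs (by ring)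
      refine le_trans (le_of_eq ?_) h4
      refine lintegral_congr fun y => ?_
      rw [ENNReal.one_rpow, mul_one, hUu, ← ENNReal.rpow_mul]
      have : r / ((d:ℝ) + 1) * (((d:ℝ) + 1) / r) = 1 := by field_simp
      rw [this, ENNReal.rpow_one]
    have hreal := realA (A := A) (B := B) (V := V) (C := C) (L := L) (l := 1 + Real.log N)
      (n := (d:ℝ) + 1) (r := r) hA0 hB0 hV0 hC1 hL0 hl hn0 hr hnr (by
        have h5 := condA (d := d) (b := (1 + (d : ℝ)) ^ (d + 1) * wv d) hq0 hN hκ hσ hL0 hl h1 h2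
          (by positivity) hcard hCA
        have e2 : ((d : ℝ) + 1) = ((d + 1 : ℕ) : ℝ) := by push_cast; ring
        rw [e2, Real.rpow_natCast, Real.rpow_natCast]
        exact h5)
    have hlow := lowA hN ω f hf hp1 hpr'
    rw [← hB, ← hq, ← hV] at hlow
    have hfin : ENNReal.ofReal (A ^ (1 / r) * V ^ (1 - ((d:ℝ) + 1) / r)) ≤
        ENNReal.ofReal (C * (1 + Real.log N) * L ^ (1 / r)) * T0 N ω f p := by
      have hBr : 0 < B ^ (1 / r) := Real.rpow_pos_of_pos hB0 _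
      have hBr0 : ENNReal.ofReal (B ^ (1 / r)) ≠ 0 := by
        rw [ne_eq, ENNReal.ofReal_eq_zero, not_le]
        exact hBr
      have hx : ENNReal.ofReal (A ^ (1 / r) * V ^ (1 - ((d:ℝ) + 1) / r)) * ENNReal.ofReal (B ^ (1 / r)) ≤
          ENNReal.ofReal (C * (1 + Real.log N) * L ^ (1 / r)) * T0 N ω f p *
            ENNReal.ofReal (B ^ (1 / r)) := by
        rw [← ENNReal.ofReal_mul (by positivity)]
        calc ENNReal.ofReal (A ^ (1 / r) * V ^ (1 - ((d:ℝ) + 1) / r) * B ^ (1 / r))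
            ≤ ENNReal.ofReal (C * (1 + Real.log N) * L ^ (1 / r) * V) := ENNReal.ofReal_le_ofReal hreal
          _ = ENNReal.ofReal (C * (1 + Real.log N) * L ^ (1 / r)) * ENNReal.ofReal V :=
              ENNReal.ofReal_mul (by positivity)
          _ ≤ ENNReal.ofReal (C * (1 + Real.log N) * L ^ (1 / r)) *
                (T0 N ω f p * ENNReal.ofReal B ^ (1 / r)) := mul_le_mul_right hlow _
          _ = _ := by rw [ENNReal.ofReal_rpow_of_pos hB0, ← mul_assoc]
      exact (ENNReal.mul_le_mul_iff_left hBr0 ENNReal.ofReal_ne_top).1 hx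
    calc ∫⁻ y, uy y ∂μ ≤ ((ENNReal.ofReal A * P) ^ (1 / ((d:ℝ) + 1))) ^ (((d:ℝ) + 1) / r) *
          (ENNReal.ofReal V) ^ (1 - ((d:ℝ) + 1) / r) := by
          refine h3.trans ?_
          rw [hVa, hμi hUym]
          exact mul_le_mul_left (ENNReal.rpow_le_rpow hcrit (by positivity)) _
      _ = ENNReal.ofReal (A ^ (1 / r) * V ^ (1 - ((d:ℝ) + 1) / r)) * P ^ (1 / r) := by
          rw [← ENNReal.rpow_mul]
          have e3 : 1 / ((d:ℝ) + 1) * (((d:ℝ) + 1) / r) = 1 / r := by field_simp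
          rw [e3, ENNReal.mul_rpow_of_nonneg _ _ (by positivity), ENNReal.ofReal_rpow_of_pos hA0,
            ENNReal.ofReal_rpow_of_pos hV0, ENNReal.ofReal_mul (by positivity)]
          ring
      _ ≤ _ := mul_le_mul_left hfin _
  · -- small conjugate exponents
    set s : ℝ := (1 - 1 / r) * (((d:ℝ) + 1) / d) with hs
    have hr1 : 0 ≤ 1 - 1 / r := by
      rw [sub_nonneg, div_le_one hr0]
      exact hr
    have hs0 : 0 ≤ s := by positivity
    have hsr : s / ((d:ℝ) + 1) + (1 - s) = 1 / r := by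
      rw [hs]
      field_simp
      ring
    have hs1 : s ≤ 1 := by
      have h3 : 1 / ((d:ℝ) + 1) ≤ 1 / r := one_div_le_one_div_of_le hr0 hnr
      have h4 : s / ((d:ℝ) + 1) + (1 - s) = 1 - s * (d / ((d:ℝ) + 1)) := by field_simp; ring
      have h5 : s * (d / ((d:ℝ) + 1)) ≤ 1 * (d / ((d:ℝ) + 1)) := by
        have e : (d:ℝ) / ((d:ℝ) + 1) = 1 - 1 / ((d:ℝ) + 1) := by field_simp; ring
        rw [one_mul]
        rw [h4] at hsr
        linarith
      have h6 : 0 < (d:ℝ) / ((d:ℝ) + 1) := by positivity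
      exact le_of_mul_le_mul_right h5 h6
    set Vy : Space d → ℝ≥0∞ := fun y => uy y ^ r with hVy
    have hVym : Measurable Vy := huym.pow_const _
    have h3 : ∫⁻ y, uy y ∂μ ≤ (∫⁻ y, Uy y ∂μ) ^ s * (∫⁻ y, Vy y ∂μ) ^ (1 - s) := by
      have h4 := ENNReal.lintegral_mul_norm_pow_le (μ := μ) hUym.aemeasurable
        hVym.aemeasurable (p := s) (q := 1 - s) hs0 (by linarith) (by ring)
      refine le_trans (le_of_eq ?_) h4
      refine lintegral_congr fun y => ?_
      rw [hUu, ← ENNReal.rpow_mul, hVy]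
      simp only
      rw [← ENNReal.rpow_mul, ← ENNReal.rpow_add_of_nonneg _ _ (by positivity)
        (mul_nonneg hr0.le (by linarith))]
      have e : r / ((d:ℝ) + 1) * s + r * (1 - s) = 1 := by
        have : r / ((d:ℝ) + 1) * s + r * (1 - s) = r * (s / ((d:ℝ) + 1) + (1 - s)) := by ring
        rw [this, hsr, mul_one_div_cancel hr0.ne']
      rw [e, ENNReal.rpow_one]
    have h7 : ∫⁻ y, Vy y ∂μ ≤ ENNReal.ofReal (q * L) * P := by
      rw [hμi hVym]
      calc ∫⁻ y, Fb N ω f a y * Vy y ≤ ∫⁻ y, ENNReal.ofReal q * Vy y := by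
            refine lintegral_mono fun y => mul_le_mul_left ?_ _
            refine (Pool.Agent.H810R3.Tub.Fb_le N ω f a y).trans (le_of_eq ?_)
            rw [hq, ENNReal.ofReal_natCast]
        _ = ENNReal.ofReal q * ∫⁻ y, Vy y := lintegral_const_mul' _ _ ENNReal.ofReal_ne_top
        _ ≤ ENNReal.ofReal q * (ENNReal.ofReal L * P) := by
            refine mul_le_mul_right ?_ _
            have h8 := hL (fun j y => u j y ^ (r / c j)) (fun j => (hu j).pow_const _)
            refine le_trans (le_of_eq ?_) h8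
            refine lintegral_congr fun y => ?_
            simp only [hVy, huy]
            rw [← ENNReal.prod_rpow_of_nonneg hr0.le]
            refine Finset.prod_congr rfl fun j _ => ?_
            rw [← ENNReal.rpow_mul, div_mul_cancel₀ _ (hc j).ne']
        _ = _ := by rw [ENNReal.ofReal_mul hq0.le, mul_assoc]
    set W : ℝ := (N / 2) ^ (d + 1) * wv d with hW
    have hW0 : 0 < W := by positivity
    have hreal := realB (A := A) (q := q) (W := W) (C := C) (L := L) (l := 1 + Real.log N)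
      (d := (d:ℝ)) (r := r) (s := s) hA0 hq0 hW0 hC1 hL0 hl hd0 hs0 hs1 hsr (by
        have h5 := condB (d := d) hq0 hN hκ hσ hL0 hl h1 h2 hw0 hcard hCB
        have e2 : ((d : ℝ) + 1) = ((d + 1 : ℕ) : ℝ) := by push_cast; ring
        rw [e2, Real.rpow_natCast, Real.rpow_natCast, Real.rpow_natCast]
        exact h5)
    have hlow := lowB hN ω f hf hp1 hpr'
    rw [← hq, ← hW] at hlow
    calc ∫⁻ y, uy y ∂μ ≤ ((ENNReal.ofReal A * P) ^ (1 / ((d:ℝ) + 1))) ^ s *
          (ENNReal.ofReal (q * L) * P) ^ (1 - s) := by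
          refine h3.trans ?_
          refine mul_le_mul' (ENNReal.rpow_le_rpow ?_ hs0) (ENNReal.rpow_le_rpow h7 (by linarith))
          rw [hμi hUym]
          exact hcrit
      _ = ENNReal.ofReal (A ^ (s / ((d:ℝ) + 1)) * (q * L) ^ (1 - s)) * P ^ (1 / r) := by
          have hsn : 0 ≤ s / ((d:ℝ) + 1) := by positivity
          have hs1' : 0 ≤ 1 - s := by linarith
          rw [← ENNReal.rpow_mul]
          have e3 : 1 / ((d:ℝ) + 1) * s = s / ((d:ℝ) + 1) := by ring
          rw [e3, ENNReal.mul_rpow_of_nonneg _ _ hsn, ENNReal.mul_rpow_of_nonneg _ _ hs1',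
            ENNReal.ofReal_rpow_of_pos hA0, ENNReal.ofReal_rpow_of_pos (by positivity),
            ENNReal.ofReal_mul (by positivity), ← hsr, ENNReal.rpow_add_of_nonneg _ _ hsn hs1']
          ring
      _ ≤ _ := by
          refine mul_le_mul_left ?_ _
          calc ENNReal.ofReal (A ^ (s / ((d:ℝ) + 1)) * (q * L) ^ (1 - s))
              ≤ ENNReal.ofReal (C * (1 + Real.log N) * L ^ (1 / r) * (q * W ^ (1 - 1 / r))) :=
                ENNReal.ofReal_le_ofReal hreal
            _ = ENNReal.ofReal (C * (1 + Real.log N) * L ^ (1 / r)) *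
                ENNReal.ofReal (q * W ^ (1 - 1 / r)) := ENNReal.ofReal_mul (by positivity)
            _ ≤ _ := mul_le_mul_right hlow _

end Pool.Agent.K4H45.BL
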