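import Pool.Agent.K4H45.BL.Rah

set_option autoImplicit false
set_option maxHeartbeats 400000

/-!
The inequality at the critical exponent.
-/

open MeasureTheory Set ENNReal Metric

namespace Pool.Agent.K4H45.BL

open Pool.Agent.H810R3.Tub (Vec Space nor box dir Fb)

variable {d : ℕ}

/-- The Brascamp-Lieb inequality with the constant `L`. -/
def IsBL {J : Type} [Fintype J] (k : J → ℕ) (b : ∀ j, Fin (k j) → Space d) (c : J → ℝ) (L : ℝ) : Prop :=
  ∀ φ : ∀ j, F (k j) → ℝ≥0∞, (∀ j, Measurable (φ j)) →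
    ∫⁻ x : Space d, ∏ j, φ j (proj (b j) x) ^ c j ≤ ENNReal.ofReal L * ∏ j, (∫⁻ y, φ j y) ^ c j

theorem prod_rpow_sum {J : Type} {X : ℝ≥0∞} (h0 : X ≠ 0) (ht : X ≠ ∞) (s : Finset J) (e : J → ℝ) :
    ∏ j ∈ s, X ^ e j = X ^ ∑ j ∈ s, e j := by
  classical
  induction s using Finset.induction_on with
  | empty => simp
  | insert j s hj ih => rw [Finset.prod_insert hj, Finset.sum_insert hj, ENNReal.rpow_add _ _ h0 ht, ih]

/-- The admissible functions of `k` variables: all if `k ≤ 2`, the radial ones otherwise. -/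
def Adm {k : ℕ} (w : F k → ℝ≥0∞) : Prop :=
  k ≤ 2 ∨ ∃ (o : F k) (v : ℝ → ℝ≥0∞), Measurable v ∧ ∀ x, w x = v ‖x - o‖

theorem Adm.rpow {k : ℕ} {w : F k → ℝ≥0∞} (h : Adm w) (e : ℝ) : Adm (fun x => w x ^ e) := by
  rcases h with h | ⟨o, v, hv, hw⟩
  · exact Or.inl h
  · exact Or.inr ⟨o, fun s => v s ^ e, hv.pow_const e, fun x => congrArg (· ^ e) (hw x)⟩

/-- The constant of the maximal estimates. -/
noncomputable def cG (d : ℕ) : ℝ :=
  cst 7 ((d : ℝ) + 3) + ∑ n ∈ Finset.range (d + 1), rC n ((d : ℝ) + 3)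

theorem cG_pos (d : ℕ) : 0 < cG d := by
  have hρ : (1:ℝ) ≤ (d:ℝ) + 3 := by
    have : (0:ℝ) ≤ d := Nat.cast_nonneg d
    linarith
  have h1 := cst_pos (R := 7) (by norm_num) hρ
  have h2 : 0 ≤ ∑ n ∈ Finset.range (d + 1), rC n ((d : ℝ) + 3) :=
    Finset.sum_nonneg fun n _ => (rC_pos n hρ).le
  unfold cG
  linarith

/-- The maximal estimate for admissible functions. -/
theorem good_bound {ι : Type} [Fintype ι] {k : ℕ} (hk : 1 ≤ k) (hkd : k ≤ d + 1) {N : ℝ} (hN : 1 ≤ N)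
    (a : ι → F k) {w : F k → ℝ≥0∞} (hw : Measurable w) (ha : Adm w) :
    ∫⁻ z in closedBall 0 7, (⨆ i, Lam (((d : ℝ) + 3) * N) (N ^ 2) w (a i) z) ^ k ≤
        ENNReal.ofReal (cG d * (1 + Real.log N) * N ^ k / N ^ 2) ^ k * ∫⁻ y, w y ^ k := by
  have hN0 : 0 < N := by linarith
  have hlN : 0 ≤ Real.log N := Real.log_nonneg hN
  have hρ : (1:ℝ) ≤ (d:ℝ) + 3 := by
    have : (0:ℝ) ≤ d := Nat.cast_nonneg d
    linarith
  have h1 := cst_pos (R := 7) (by norm_num) hρ
  have h2 : ∀ n, 0 ≤ rC n ((d : ℝ) + 3) := fun n => (rC_pos n hρ).le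
  rcases le_or_gt k 2 with hk2 | hk2
  · have hk' : k = 1 ∨ k = 2 := by omega
    refine (max_bound hk' (R := 7) (by norm_num) hρ hN a hw).trans ?_
    refine mul_le_mul_left (pow_le_pow_left' (ENNReal.ofReal_le_ofReal ?_) k) _
    have h3 : cst 7 ((d : ℝ) + 3) ≤ cG d := by
      unfold cG
      have := Finset.sum_nonneg (s := Finset.range (d + 1)) fun n _ => h2 n
      linarith
    gcongr
  · obtain ⟨n, rfl⟩ : ∃ n, k = n + 1 := ⟨k - 1, by omega⟩
    rcases ha with ha | ⟨o, v, hv, hwv⟩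
    · omega
    have e : w = fun x => v ‖x - o‖ := funext hwv
    rw [e]
    refine (rad_bound (by omega) hρ hN a hv o).trans ?_
    refine mul_le_mul_left (pow_le_pow_left' (ENNReal.ofReal_le_ofReal ?_) _) _
    have h3 : rC n ((d : ℝ) + 3) ≤ cG d := by
      unfold cG
      have := Finset.single_le_sum (f := fun n => rC n ((d : ℝ) + 3)) (fun n _ => h2 n)
        (Finset.mem_range.2 (by omega : n < d + 1))
      linarith
    gcongr

/-- The constant of the maximal estimate. -/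
noncomputable def c1 (d : ℕ) : ℝ :=
  4 * (2 * ((d : ℝ) + 3)) ^ (d + 1) * cG d

theorem c1_pos (d : ℕ) : 0 < c1 d := by
  unfold c1
  have h := cG_pos d
  have : (0:ℝ) ≤ d := Nat.cast_nonneg d
  positivity

/-- The majorant of the integrals over the boxes. -/
noncomputable def maj {ι : Type} [Fintype ι] {k : ℕ} (N : ℝ) (a : ι → Space d) (b : Fin k → Space d)
    (w : F k → ℝ≥0∞) (z : F k) : ℝ≥0∞ :=
  ENNReal.ofReal (4 * N) * ENNReal.ofReal (2 * (((d : ℝ) + 3) * N)) ^ (d + 1 - k) *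
    ⨆ i, Lam (((d : ℝ) + 3) * N) (N ^ 2) w (proj b (a i)) z

theorem maj_meas {ι : Type} [Fintype ι] {k : ℕ} (N : ℝ) (a : ι → Space d) (b : Fin k → Space d)
    {w : F k → ℝ≥0∞} (hw : Measurable w) : Measurable (maj N a b w) := by
  unfold maj
  refine measurable_const.mul (Measurable.iSup fun i => ?_)
  have h := Lam_meas (((d : ℝ) + 3) * N) (N ^ 2) hw
  have h2 : Measurable fun z : F k => (proj b (a i), z) := measurable_const.prodMk measurable_id
  generalize Lam (((d : ℝ) + 3) * N) (N ^ 2) w = T at h ⊢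
  exact h.comp h2

theorem maj_int {ι : Type} [Fintype ι] {k : ℕ} (hk : 1 ≤ k) (hkd : k ≤ d + 1) {N : ℝ} (hN : 1 ≤ N)
    (a : ι → Space d) (b : Fin k → Space d) {w : F k → ℝ≥0∞} (hw : Measurable w) (ha : Adm w) :
    ∫⁻ z in closedBall 0 7, maj N a b w z ^ k ≤
      ENNReal.ofReal (c1 d * N ^ d * (1 + Real.log N)) ^ k * ∫⁻ y, w y ^ k := by
  have hN0 : 0 < N := by linarith
  have hd0 : (0:ℝ) ≤ d := Nat.cast_nonneg d
  have hlN : 0 ≤ Real.log N := Real.log_nonneg hN
  have hρ : (1:ℝ) ≤ (d:ℝ) + 3 := by linarith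
  have hcst := cG_pos d
  have h := good_bound hk hkd hN (fun i => proj b (a i)) hw ha
  set m : ℕ := d + 1 - k with hm
  have hmk : m + k = d + 1 := by omega
  obtain ⟨P, hP⟩ : ∃ P : ℝ≥0∞, P = ENNReal.ofReal (4 * N) *
      ENNReal.ofReal (2 * (((d : ℝ) + 3) * N)) ^ m := ⟨_, rfl⟩
  have hPt : P ≠ ∞ := by
    rw [hP]
    exact ENNReal.mul_ne_top ENNReal.ofReal_ne_top (ENNReal.pow_ne_top ENNReal.ofReal_ne_top)
  calc ∫⁻ z in closedBall 0 7, maj N a b w z ^ k
      = ∫⁻ z in closedBall 0 7, P ^ k * (⨆ i, Lam (((d : ℝ) + 3) * N) (N ^ 2) w (proj b (a i)) z) ^ k := by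
        refine lintegral_congr fun z => ?_
        unfold maj
        rw [← hm, ← hP, mul_pow]
    _ = P ^ k * ∫⁻ z in closedBall 0 7,
          (⨆ i, Lam (((d : ℝ) + 3) * N) (N ^ 2) w (proj b (a i)) z) ^ k :=
        lintegral_const_mul' _ _ (ENNReal.pow_ne_top hPt)
    _ ≤ P ^ k * (ENNReal.ofReal (cG d * (1 + Real.log N) * N ^ k / N ^ 2) ^ k *
          ∫⁻ y, w y ^ k) := mul_le_mul_right h _
    _ = (P * ENNReal.ofReal (cG d * (1 + Real.log N) * N ^ k / N ^ 2)) ^ k *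
          ∫⁻ y, w y ^ k := by rw [mul_pow P, mul_assoc (P ^ k)]
    _ ≤ _ := by
        refine mul_le_mul_left (pow_le_pow_left' ?_ k) _
        rw [hP, ← ENNReal.ofReal_pow (by positivity), ← ENNReal.ofReal_mul (by positivity),
          ← ENNReal.ofReal_mul (by positivity)]
        refine ENNReal.ofReal_le_ofReal ?_
        have e1 : N * N ^ m * N ^ k / N ^ 2 = N ^ d := by
          have : N * N ^ m * N ^ k = N ^ d * N ^ 2 := by
            rw [mul_assoc, ← pow_add, hmk]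
            ring
          rw [this]
          field_simp
        have e2 : (2 * ((d : ℝ) + 3)) ^ m ≤ (2 * ((d : ℝ) + 3)) ^ (d + 1) :=
          pow_le_pow_right₀ (by linarith) (by omega)
        calc 4 * N * (2 * (((d : ℝ) + 3) * N)) ^ m *
              (cG d * (1 + Real.log N) * N ^ k / N ^ 2)
            = 4 * (2 * ((d : ℝ) + 3)) ^ m * cG d * (N * N ^ m * N ^ k / N ^ 2) *
                (1 + Real.log N) := by
              rw [← mul_assoc 2 ((d : ℝ) + 3) N, mul_pow]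
              ring
          _ ≤ 4 * (2 * ((d : ℝ) + 3)) ^ (d + 1) * cG d * N ^ d * (1 + Real.log N) := by
              rw [e1]
              gcongr
          _ = _ := by
              unfold c1
              ring

variable {J : Type} [Fintype J] {k : J → ℕ}

/-- The `n`-th powers. -/
theorem crit_pow (hk : ∀ j, 1 ≤ k j) (hkd : ∀ j, k j ≤ d + 1) {b : ∀ j, Fin (k j) → Space d}
    (hb : ∀ j, Orthonormal ℝ (b j)) {c : J → ℝ} (hc : ∀ j, 0 < c j) (hck : ∑ j, c j * k j = (d : ℝ) + 1)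
    {L : ℝ} (hL : IsBL k b c L) {N σ : ℝ} (hN : 1 ≤ N) (hσ : 0 < σ) (hσ1 : σ ≤ 1)
    {ι : Type} [Fintype ι] {ω : ι → Vec d} {f : ι → Fin d → Space d} (hω : ∀ i, ‖ω i‖ ≤ 1)
    (hsep : ∀ i j, i ≠ j → σ / N ≤ ‖ω i - ω j‖)
    (hf : ∀ i, Orthonormal ℝ (Fin.cons (nor (ω i)) (f i) : Fin (d + 1) → Space d)) (a : ι → Space d)
    {w : ∀ j, F (k j) → ℝ≥0∞} (hw : ∀ j, Measurable (w j)) (ha : ∀ j, Adm (w j)) :
    ENNReal.ofReal (vd d * (σ / N) ^ d) * ∑ i, ∏ j,
        (∫⁻ x in box N (nor (ω i)) (f i) (a i), w j (proj (b j) x)) ^ (c j * k j) ≤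
      ENNReal.ofReal L * (ENNReal.ofReal (c1 d * N ^ d * (1 + Real.log N)) ^ ((d : ℝ) + 1) *
        ∏ j, (∫⁻ y, w j y ^ k j) ^ c j) := by
  classical
  have hN0 : 0 < N := by linarith
  have hcpos : 0 < σ / N := by positivity
  have hc1 : σ / N ≤ 1 := by
    rw [div_le_one hN0]
    linarith
  have hmaj : ∀ j, Measurable (maj N a (b j) (w j)) := fun j => maj_meas N a (b j) (hw j)
  set φ : ∀ j, F (k j) → ℝ≥0∞ := fun j =>
    (closedBall 0 7).indicator (fun z => maj N a (b j) (w j) z ^ k j) with hφ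
  have hφm : ∀ j, Measurable (φ j) := fun j =>
    ((hmaj j).pow_const _).indicator isClosed_closedBall.measurableSet
  -- the integrals over the boxes
  have hm : ∀ i, ∀ ξ ∈ cone (ω i) (σ / N), ∀ j,
      ∫⁻ x in box N (nor (ω i)) (f i) (a i), w j (proj (b j) x) ≤ maj N a (b j) (w j) (proj (b j) ξ) := by
    intro i ξ hξ j
    refine (box_int hN hσ hσ1 (hω i) (hf i) hξ (hb j) (m := d + 1 - k j)
      (by have := hkd j; omega) (hw j)).trans ?_
    unfold maj
    refine mul_le_mul_right ?_ _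
    exact le_iSup (fun i' => Lam (((d : ℝ) + 3) * N) (N ^ 2) (w j) (proj (b j) (a i')) (proj (b j) ξ)) i
  have hpt : ∀ i, ∀ ξ ∈ cone (ω i) (σ / N),
      ∏ j, (∫⁻ x in box N (nor (ω i)) (f i) (a i), w j (proj (b j) x)) ^ (c j * k j) ≤
        ∏ j, φ j (proj (b j) ξ) ^ c j := by
    intro i ξ hξ
    refine Finset.prod_le_prod' fun j _ => ?_
    have h1 : φ j (proj (b j) ξ) = maj N a (b j) (w j) (proj (b j) ξ) ^ k j := by
      simp only [hφ]
      rw [indicator_of_mem]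
      rw [mem_closedBall, dist_zero_right]
      exact (proj_norm (hb j) ξ).trans (cone_norm (hω i) hc1 hξ)
    rw [h1, ← ENNReal.rpow_natCast, ← ENNReal.rpow_mul, mul_comm (c j)]
    exact ENNReal.rpow_le_rpow (hm i ξ hξ j) (by have := hc j; positivity)
  have hsum : ENNReal.ofReal (vd d * (σ / N) ^ d) * ∑ i, ∏ j,
        (∫⁻ x in box N (nor (ω i)) (f i) (a i), w j (proj (b j) x)) ^ (c j * k j) ≤
      ∫⁻ ξ, ∏ j, φ j (proj (b j) ξ) ^ c j := by
    rw [Finset.mul_sum]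
    calc ∑ i, ENNReal.ofReal (vd d * (σ / N) ^ d) * ∏ j,
          (∫⁻ x in box N (nor (ω i)) (f i) (a i), w j (proj (b j) x)) ^ (c j * k j)
        ≤ ∑ i, ∫⁻ ξ in cone (ω i) (σ / N), ∏ j, φ j (proj (b j) ξ) ^ c j := by
          refine Finset.sum_le_sum fun i _ => ?_
          calc ENNReal.ofReal (vd d * (σ / N) ^ d) * ∏ j,
                (∫⁻ x in box N (nor (ω i)) (f i) (a i), w j (proj (b j) x)) ^ (c j * k j)
              ≤ volume (cone (ω i) (σ / N)) * ∏ j,
                (∫⁻ x in box N (nor (ω i)) (f i) (a i), w j (proj (b j) x)) ^ (c j * k j) :=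
                mul_le_mul_left (cone_vol (ω i) hcpos) _
            _ = ∫⁻ _ξ in cone (ω i) (σ / N), ∏ j,
                (∫⁻ x in box N (nor (ω i)) (f i) (a i), w j (proj (b j) x)) ^ (c j * k j) := by
                rw [setLIntegral_const, mul_comm]
            _ ≤ _ := setLIntegral_mono' (cone_meas _ _) (hpt i)
      _ = ∫⁻ ξ in ⋃ i, cone (ω i) (σ / N), ∏ j, φ j (proj (b j) ξ) ^ c j := by
          rw [lintegral_iUnion (fun i => cone_meas _ _), tsum_fintype]
          intro i i' hii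
          exact cone_disj (hsep i i' hii)
      _ ≤ _ := setLIntegral_le_lintegral _ _
  refine hsum.trans ((hL φ hφm).trans (mul_le_mul_right ?_ _))
  calc ∏ j, (∫⁻ y, φ j y) ^ c j
      ≤ ∏ j, (ENNReal.ofReal (c1 d * N ^ d * (1 + Real.log N)) ^ k j * ∫⁻ y, w j y ^ k j) ^ c j := by
        refine Finset.prod_le_prod' fun j _ => ENNReal.rpow_le_rpow ?_ (hc j).le
        simp only [hφ]
        rw [lintegral_indicator isClosed_closedBall.measurableSet]
        exact maj_int (hk j) (hkd j) hN a (b j) (hw j) (ha j)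
    _ = ∏ j, (ENNReal.ofReal (c1 d * N ^ d * (1 + Real.log N)) ^ (c j * k j) *
          (∫⁻ y, w j y ^ k j) ^ c j) := by
        refine Finset.prod_congr rfl fun j _ => ?_
        rw [ENNReal.mul_rpow_of_nonneg _ _ (hc j).le, ← ENNReal.rpow_natCast, ← ENNReal.rpow_mul,
          mul_comm (k j : ℝ)]
    _ = _ := by
        rw [Finset.prod_mul_distrib, ← hck]
        congr 1
        have hX : ENNReal.ofReal (c1 d * N ^ d * (1 + Real.log N)) ≠ 0 := by
          rw [ne_eq, ENNReal.ofReal_eq_zero, not_le]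
          have h1 := c1_pos d
          have h2 : 0 ≤ Real.log N := Real.log_nonneg hN
          positivity
        exact prod_rpow_sum hX ENNReal.ofReal_ne_top _ _

end Pool.Agent.K4H45.BL
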