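import Pool.Agent.K4H45.BL.Cri

set_option autoImplicit false
set_option maxHeartbeats 400000

/-!
The inequality at the critical exponent, for the sums of the boxes.
-/

open MeasureTheory Set ENNReal Metric

namespace Pool.Agent.K4H45.BL

open Pool.Agent.H810R3.Tub (Vec Space nor box dir Fb)

variable {d : ℕ}

/-- The constant of the critical inequality. -/
noncomputable def kc (d : ℕ) (σ L N : ℝ) : ℝ :=
  L * (c1 d * N ^ d * (1 + Real.log N)) ^ (d + 1) / (vd d * (σ / N) ^ d)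

theorem Fb_split {ι : Type} [Fintype ι] (N : ℝ) (ω : ι → Vec d) (f : ι → Fin d → Space d)
    (a : ι → Space d) {g : Space d → ℝ≥0∞} (hg : Measurable g) :
    ∫⁻ y, Fb N ω f a y * g y = ∑ i, ∫⁻ y in box N (nor (ω i)) (f i) (a i), g y := by
  have hb : ∀ i, MeasurableSet (box N (nor (ω i)) (f i) (a i)) := fun i =>
    (Pool.Agent.H810R3.Tub.box_closed _ _ _ _).measurableSet
  unfold Fb
  simp_rw [Finset.sum_mul]
  have hm : ∀ i, Measurable fun y =>
      (box N (nor (ω i)) (f i) (a i)).indicator (fun _ => (1:ℝ≥0∞)) y * g y := fun i =>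
    (measurable_const.indicator (hb i)).mul hg
  rw [lintegral_finsetSum _ fun i _ => hm i]
  refine Finset.sum_congr rfl fun i _ => ?_
  rw [← lintegral_indicator (hb i)]
  refine lintegral_congr fun y => ?_
  by_cases hy : y ∈ box N (nor (ω i)) (f i) (a i)
  · rw [indicator_of_mem hy, indicator_of_mem hy, one_mul]
  · rw [indicator_of_notMem hy, indicator_of_notMem hy, zero_mul]

variable {J : Type} [Fintype J] {k : J → ℕ}

/-- The critical inequality. -/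
theorem crit (hk : ∀ j, 1 ≤ k j) (hkd : ∀ j, k j ≤ d + 1) {b : ∀ j, Fin (k j) → Space d}
    (hb : ∀ j, Orthonormal ℝ (b j)) {c : J → ℝ} (hc : ∀ j, 0 < c j) (hck : ∑ j, c j * k j = (d : ℝ) + 1)
    {L : ℝ} (hL0 : 0 < L) (hL : IsBL k b c L) {N σ : ℝ} (hN : 1 ≤ N) (hσ : 0 < σ) (hσ1 : σ ≤ 1)
    {ι : Type} [Fintype ι] {ω : ι → Vec d} {f : ι → Fin d → Space d} (hω : ∀ i, ‖ω i‖ ≤ 1)
    (hsep : ∀ i j, i ≠ j → σ / N ≤ ‖ω i - ω j‖)
    (hf : ∀ i, Orthonormal ℝ (Fin.cons (nor (ω i)) (f i) : Fin (d + 1) → Space d)) (a : ι → Space d)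
    {u : ∀ j, F (k j) → ℝ≥0∞} (hu : ∀ j, Measurable (u j)) (ha : ∀ j, Adm (u j)) :
    (∫⁻ y, Fb N ω f a y * ∏ j, u j (proj (b j) y)) ^ ((d : ℝ) + 1) ≤
      (Fintype.card ι : ℝ≥0∞) ^ (d : ℝ) * (ENNReal.ofReal (kc d σ L N) *
        ∏ j, (∫⁻ y, u j y ^ (((d : ℝ) + 1) / c j)) ^ c j) := by
  have hN0 : 0 < N := by linarith
  have hd0 : (0:ℝ) ≤ d := Nat.cast_nonneg d
  have hn0 : (0:ℝ) < (d:ℝ) + 1 := by linarith
  have hkpos : ∀ j, (0:ℝ) < k j := by
    intro j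
    have := hk j
    exact_mod_cast (by omega : 0 < k j)
  set θ : J → ℝ := fun j => c j * k j / ((d:ℝ) + 1) with hθ
  have hθ0 : ∀ j, 0 < θ j := fun j => div_pos (mul_pos (hc j) (hkpos j)) hn0
  have hθ1 : ∑ j, θ j = 1 := by
    simp only [hθ]
    rw [← Finset.sum_div, hck, div_self hn0.ne']
  set w : ∀ j, F (k j) → ℝ≥0∞ := fun j y => u j y ^ (θ j)⁻¹ with hw
  have hwm : ∀ j, Measurable (w j) := fun j => (hu j).pow_const _
  have hwu : ∀ j y, w j y ^ θ j = u j y := by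
    intro j y
    simp only [hw]
    rw [← ENNReal.rpow_mul, inv_mul_cancel₀ (hθ0 j).ne', ENNReal.rpow_one]
  have hwk : ∀ j y, w j y ^ k j = u j y ^ (((d : ℝ) + 1) / c j) := by
    intro j y
    simp only [hw]
    rw [← ENNReal.rpow_natCast, ← ENNReal.rpow_mul]
    congr 1
    simp only [hθ]
    have h1 := (hkpos j).ne'
    have h2 := (hc j).ne'
    field_simp
  have hum : Measurable fun y => ∏ j, u j (proj (b j) y) :=
    Finset.measurable_prod _ fun j _ => (hu j).comp (proj_cont (b j)).measurable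
  set m : ι → J → ℝ≥0∞ := fun i j =>
    ∫⁻ x in box N (nor (ω i)) (f i) (a i), w j (proj (b j) x) with hm
  have h1 : ∫⁻ y, Fb N ω f a y * ∏ j, u j (proj (b j) y) ≤ ∑ i, ∏ j, m i j ^ θ j := by
    rw [Fb_split N ω f a hum]
    refine Finset.sum_le_sum fun i _ => ?_
    calc ∫⁻ y in box N (nor (ω i)) (f i) (a i), ∏ j, u j (proj (b j) y)
        = ∫⁻ y in box N (nor (ω i)) (f i) (a i), ∏ j, w j (proj (b j) y) ^ θ j := by
          refine lintegral_congr fun y => Finset.prod_congr rfl fun j _ => (hwu j _).symm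
      _ ≤ ∏ j, (∫⁻ y in box N (nor (ω i)) (f i) (a i), w j (proj (b j) y)) ^ θ j :=
          ENNReal.lintegral_prod_norm_pow_le Finset.univ
            (fun j _ => ((hwm j).comp (proj_cont (b j)).measurable).aemeasurable) hθ1
            (fun j _ => (hθ0 j).le)
  have h2 : (∑ i, ∏ j, m i j ^ θ j) ^ ((d : ℝ) + 1) ≤
      (Fintype.card ι : ℝ≥0∞) ^ (d : ℝ) * ∑ i, ∏ j, m i j ^ (c j * k j) := by
    have h3 := ENNReal.rpow_sum_le_const_mul_sum_rpow (Finset.univ : Finset ι)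
      (fun i => ∏ j, m i j ^ θ j) (p := (d : ℝ) + 1) (by linarith)
    refine h3.trans (le_of_eq ?_)
    rw [add_sub_cancel_right, Finset.card_univ]
    congr 1
    refine Finset.sum_congr rfl fun i _ => ?_
    rw [← ENNReal.prod_rpow_of_nonneg hn0.le]
    refine Finset.prod_congr rfl fun j _ => ?_
    rw [← ENNReal.rpow_mul]
    congr 1
    simp only [hθ]
    field_simp
  have h4 := crit_pow hk hkd hb hc hck hL hN hσ hσ1 hω hsep hf a hwm (fun j => (ha j).rpow _)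
  have hV : 0 < vd d * (σ / N) ^ d := by
    have := vd_pos d
    positivity
  have hlN : 0 ≤ Real.log N := Real.log_nonneg hN
  have hc1 := c1_pos d
  have h5 : ∑ i, ∏ j, m i j ^ (c j * k j) ≤ ENNReal.ofReal (kc d σ L N) *
      ∏ j, (∫⁻ y, u j y ^ (((d : ℝ) + 1) / c j)) ^ c j := by
    have e1 : ENNReal.ofReal (vd d * (σ / N) ^ d) * (ENNReal.ofReal (kc d σ L N) *
        ∏ j, (∫⁻ y, u j y ^ (((d : ℝ) + 1) / c j)) ^ c j) =
        ENNReal.ofReal L * (ENNReal.ofReal (c1 d * N ^ d * (1 + Real.log N)) ^ ((d : ℝ) + 1) *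
        ∏ j, (∫⁻ y, w j y ^ k j) ^ c j) := by
      simp_rw [hwk]
      rw [← mul_assoc, ← mul_assoc, ← ENNReal.ofReal_mul hV.le]
      congr 1
      have e2 : ((d : ℝ) + 1) = ((d + 1 : ℕ) : ℝ) := by push_cast; ring
      rw [e2, ENNReal.rpow_natCast, ← ENNReal.ofReal_pow (by positivity),
        ← ENNReal.ofReal_mul hL0.le]
      congr 1
      unfold kc
      rw [mul_div_cancel₀ _ hV.ne']
    rw [← e1] at h4
    refine (ENNReal.mul_le_mul_iff_right ?_ ENNReal.ofReal_ne_top).1 h4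
    rw [ne_eq, ENNReal.ofReal_eq_zero, not_le]
    exact hV
  calc (∫⁻ y, Fb N ω f a y * ∏ j, u j (proj (b j) y)) ^ ((d : ℝ) + 1)
      ≤ (∑ i, ∏ j, m i j ^ θ j) ^ ((d : ℝ) + 1) := ENNReal.rpow_le_rpow h1 hn0.le
    _ ≤ (Fintype.card ι : ℝ≥0∞) ^ (d : ℝ) * ∑ i, ∏ j, m i j ^ (c j * k j) := h2
    _ ≤ _ := mul_le_mul_right h5 _

end Pool.Agent.K4H45.BL
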