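import Pool.Agent.K4H45.BL.Mom

set_option autoImplicit false
set_option maxHeartbeats 400000

/-!
The moment bound.
-/

open MeasureTheory Set ENNReal Metric

namespace Pool.Agent.K4H45.BL

open Pool.Agent.H810R3.Tub (Vec Space nor box dir Fb wv wv_pos)

theorem real_end {d : ℕ} (hd : 1 ≤ d) {q N σ L l c v C K M : ℝ} (hq : 0 < q) (hN : 1 ≤ N) (hσ : 0 < σ)
    (hL : 0 < L) (hl : 1 ≤ l) (hc : 0 < c) (hv : 0 < v) (hC : 0 < C) (hK : 0 < K) (hM : 0 < M)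
    (hqC : q ≤ C * N ^ d) :
    (K ^ d * (q ^ d * (L * (c * N ^ d * l) ^ (d + 1) / (v * (σ / N) ^ d) * M))) ^ (1 / (d:ℝ)) * l ≤
      C * (c ^ (d + 1) / (v * σ ^ d)) ^ (1 / (d:ℝ)) * N ^ (2 * (d + 1)) *
        (l ^ (2 * d + 1) * (K ^ d * (L * M))) ^ (1 / (d:ℝ)) := by
  have hN0 : 0 < N := by linarith
  have hl0 : 0 < l := by linarith
  have hd0 : (0:ℝ) < d := by exact_mod_cast hd
  set E : ℝ := c ^ (d + 1) / (v * σ ^ d) with hE
  have hE0 : 0 < E := by positivity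
  have h1 : K ^ d * (q ^ d * (L * (c * N ^ d * l) ^ (d + 1) / (v * (σ / N) ^ d) * M)) ≤
      (C * N ^ (2 * (d + 1))) ^ d * E * (l ^ (d + 1) * (K ^ d * (L * M))) := by
    have e1 : L * (c * N ^ d * l) ^ (d + 1) / (v * (σ / N) ^ d) = L * E * (N ^ (d + 2)) ^ d * l ^ (d + 1) := by
      rw [hE, div_pow, mul_pow, mul_pow]
      have e2 : (N ^ d) ^ (d + 1) * N ^ d = (N ^ (d + 2)) ^ d := by
        rw [← pow_mul, ← pow_mul, ← pow_add]
        congr 1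
        ring
      rw [← e2]
      field_simp
    rw [e1]
    have h2 : q ^ d ≤ (C * N ^ d) ^ d := pow_le_pow_left₀ hq.le hqC d
    have e3 : (C * N ^ (2 * (d + 1))) ^ d = (C * N ^ d) ^ d * (N ^ (d + 2)) ^ d := by
      rw [← mul_pow]
      congr 1
      rw [mul_assoc, ← pow_add]
      congr 2
      ring
    calc K ^ d * (q ^ d * (L * E * (N ^ (d + 2)) ^ d * l ^ (d + 1) * M))
        ≤ K ^ d * ((C * N ^ d) ^ d * (L * E * (N ^ (d + 2)) ^ d * l ^ (d + 1) * M)) := by gcongr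
      _ = _ := by
          rw [e3]
          ring
  have h2 : (K ^ d * (q ^ d * (L * (c * N ^ d * l) ^ (d + 1) / (v * (σ / N) ^ d) * M))) ^ (1 / (d:ℝ)) ≤
      ((C * N ^ (2 * (d + 1))) ^ d * E * (l ^ (d + 1) * (K ^ d * (L * M)))) ^ (1 / (d:ℝ)) :=
    Real.rpow_le_rpow (by positivity) h1 (by positivity)
  have e4 : ((C * N ^ (2 * (d + 1))) ^ d * E * (l ^ (d + 1) * (K ^ d * (L * M)))) ^ (1 / (d:ℝ)) =
      C * N ^ (2 * (d + 1)) * E ^ (1 / (d:ℝ)) * (l ^ (d + 1) * (K ^ d * (L * M))) ^ (1 / (d:ℝ)) := by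
    rw [Real.mul_rpow (by positivity) (by positivity), Real.mul_rpow (by positivity) hE0.le]
    congr 2
    rw [← Real.rpow_natCast (C * N ^ (2 * (d + 1))) d, ← Real.rpow_mul (by positivity),
      mul_one_div_cancel hd0.ne', Real.rpow_one]
  have e5 : (l ^ (2 * d + 1) * (K ^ d * (L * M))) ^ (1 / (d:ℝ)) =
      l * (l ^ (d + 1) * (K ^ d * (L * M))) ^ (1 / (d:ℝ)) := by
    have e6 : l ^ (2 * d + 1) * (K ^ d * (L * M)) = l ^ d * (l ^ (d + 1) * (K ^ d * (L * M))) := by ring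
    rw [e6, Real.mul_rpow (by positivity) (by positivity)]
    congr 1
    rw [← Real.rpow_natCast l d, ← Real.rpow_mul hl0.le, mul_one_div_cancel hd0.ne', Real.rpow_one]
  rw [e5]
  rw [e4] at h2
  calc _ ≤ C * N ^ (2 * (d + 1)) * E ^ (1 / (d:ℝ)) * (l ^ (d + 1) * (K ^ d * (L * M))) ^ (1 / (d:ℝ)) * l := by
        gcongr
    _ = _ := by ring

variable {d : ℕ}

/-- The moment. -/
theorem moment_bound (hd : 1 ≤ d) {σ : ℝ} (hσ : 0 < σ) (hσ1 : σ ≤ 1) : ∃ E : ℝ, 0 < E ∧ ∀ N : ℝ, 1 ≤ N →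
    ∀ (ι : Type) [Fintype ι] [Nonempty ι] (ω : ι → Vec d) (f : ι → Fin d → Space d), (∀ i, ‖ω i‖ ≤ 1) →
    (∀ i j, i ≠ j → σ / N ≤ ‖ω i - ω j‖) →
    (∀ i, Orthonormal ℝ (Fin.cons (nor (ω i)) (f i) : Fin (d + 1) → Space d)) → ∀ a : ι → Space d,
    ∀ (K : ℕ) (L M : ℝ), 1 ≤ K → 0 < L → 0 < M →
    (∀ t : ℕ, Cov K L (ENNReal.ofReal M * volume {y | (t : ℝ≥0∞) < Fb N ω f a y})
      {y | (t : ℝ≥0∞) < Fb N ω f a y}) →
    ∫⁻ y, Fb N ω f a y ^ (((d:ℝ) + 1) / d) ≤ ENNReal.ofReal (E * N ^ (2 * (d + 1)) *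
      ((1 + Real.log N) ^ (2 * d + 1) * ((K:ℝ) ^ d * (L * M))) ^ (1 / (d:ℝ))) := by
  have hd0 : (0:ℝ) < d := by exact_mod_cast hd
  have hv := vd_pos d
  have hc := c1_pos d
  set B : ℝ := (volume (closedBall (0 : Space d) 7)).toReal with hB
  have hB0 : 0 < B := ENNReal.toReal_pos (measure_closedBall_pos _ _ (by norm_num)).ne'
    measure_closedBall_lt_top.ne
  set C : ℝ := B / (vd d * σ ^ d) with hC
  have hC0 : 0 < C := by positivity
  set C4 : ℝ := 1 + |Real.log C| + d with hC4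
  have hC40 : 0 < C4 := by positivity
  set E1 : ℝ := c1 d ^ (d + 1) / (vd d * σ ^ d) with hE1
  have hE10 : 0 < E1 := by positivity
  refine ⟨2 * C4 * (C * E1 ^ (1 / (d:ℝ))), by positivity, ?_⟩
  intro N hN ι _ _ ω f hω hsep hf a K L M hK hL hM hcov
  have hN0 : 0 < N := by linarith
  have hlN : 0 ≤ Real.log N := Real.log_nonneg hN
  have hK0 : (0:ℝ) < K := by exact_mod_cast (by omega : 0 < K)
  set q : ℝ := (Fintype.card ι : ℝ) with hq
  have hq0 : 0 < q := by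
    have := Fintype.card_pos (α := ι)
    rw [hq]
    exact_mod_cast this
  have hqC : q ≤ C * N ^ d := by
    have h := card_le hN hσ hσ1 hω hsep
    rw [← hq, ← hB, div_pow] at h
    rw [hC, div_mul_eq_mul_div, le_div_iff₀ (by positivity)]
    calc q * (vd d * σ ^ d) = q * (vd d * (σ ^ d / N ^ d)) * N ^ d := by field_simp
      _ ≤ B * N ^ d := by gcongr
  have hlogq : 1 + Real.log q ≤ C4 * (1 + Real.log N) := by
    have h1 : Real.log q ≤ Real.log (C * N ^ d) := Real.log_le_log hq0 hqC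
    rw [Real.log_mul hC0.ne' (by positivity), Real.log_pow] at h1
    have h2 : Real.log C ≤ |Real.log C| := le_abs_self _
    have h3 : 0 ≤ |Real.log C| := abs_nonneg _
    rw [hC4]
    nlinarith
  set Z : ℝ≥0∞ := ((K : ℝ≥0∞) ^ (d : ℝ) * ((Fintype.card ι : ℝ≥0∞) ^ (d : ℝ) *
        (ENNReal.ofReal (kc d σ L N) * ENNReal.ofReal M))) ^ (1 / (d : ℝ)) with hZ
  have he : 1 + 1 / (d:ℝ) = ((d:ℝ) + 1) / d := by field_simp
  have he1 : 1 / (d:ℝ) ≤ 1 := by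
    rw [div_le_one hd0]
    exact_mod_cast hd
  have h1 := moment_of_level (N := N) (ω := ω) (f := f) a (e := 1 / (d:ℝ)) (by positivity) he1 (Z := Z) (by
    intro t
    rw [he]
    exact level hd hL hN hσ hσ1 hω hsep hf a hM rfl (hcov t))
  rw [he] at h1
  refine h1.trans ?_
  have hkc : 0 < kc d σ L N := by
    unfold kc
    positivity
  have hZr : Z = ENNReal.ofReal (((K:ℝ) ^ d * (q ^ d * (kc d σ L N * M))) ^ (1 / (d:ℝ))) := by
    rw [hZ, ← ENNReal.ofReal_rpow_of_nonneg (by positivity) (by positivity),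
      ENNReal.ofReal_mul (p := (K:ℝ) ^ d) (by positivity), ENNReal.ofReal_mul (p := q ^ d) (by positivity),
      ENNReal.ofReal_mul (p := kc d σ L N) hkc.le, ENNReal.ofReal_pow hq0.le, ENNReal.ofReal_pow hK0.le,
      hq, ENNReal.ofReal_natCast, ENNReal.ofReal_natCast, ENNReal.rpow_natCast, ENNReal.rpow_natCast]
  rw [hZr, ← ENNReal.ofReal_mul (by positivity)]
  have e2 : (2:ℝ≥0∞) * ENNReal.ofReal (((K:ℝ) ^ d * (q ^ d * (kc d σ L N * M))) ^ (1 / (d:ℝ)) *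
      (1 + Real.log q)) = ENNReal.ofReal (2 * (((K:ℝ) ^ d * (q ^ d * (kc d σ L N * M))) ^ (1 / (d:ℝ)) *
      (1 + Real.log q))) := by
    rw [ENNReal.ofReal_mul (p := 2) (by norm_num)]
    norm_num
  rw [e2]
  refine ENNReal.ofReal_le_ofReal ?_
  have h3 := real_end hd (q := q) (N := N) (σ := σ) (L := L) (l := 1 + Real.log N) (c := c1 d) (v := vd d)
    (C := C) (K := K) (M := M) hq0 hN hσ hL (by linarith) hc hv hC0 hK0 hM hqC
  have hZ0 : 0 ≤ ((K:ℝ) ^ d * (q ^ d * (kc d σ L N * M))) ^ (1 / (d:ℝ)) := by positivity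
  calc 2 * (((K:ℝ) ^ d * (q ^ d * (kc d σ L N * M))) ^ (1 / (d:ℝ)) * (1 + Real.log q))
      ≤ 2 * (((K:ℝ) ^ d * (q ^ d * (kc d σ L N * M))) ^ (1 / (d:ℝ)) * (C4 * (1 + Real.log N))) := by
        gcongr
    _ = 2 * C4 * (((K:ℝ) ^ d * (q ^ d * (kc d σ L N * M))) ^ (1 / (d:ℝ)) * (1 + Real.log N)) := by ring
    _ ≤ 2 * C4 * (C * E1 ^ (1 / (d:ℝ)) * N ^ (2 * (d + 1)) *
          ((1 + Real.log N) ^ (2 * d + 1) * ((K:ℝ) ^ d * (L * M))) ^ (1 / (d:ℝ))) := by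
        refine mul_le_mul_of_nonneg_left ?_ (by positivity)
        exact h3
    _ = _ := by ring

end Pool.Agent.K4H45.BL
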