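import Pool.Agent.K4H45.BL.Cri

set_option autoImplicit false
set_option maxHeartbeats 400000

/-!
Finner's inequality: coordinate projections.
-/

open MeasureTheory Set ENNReal Metric

namespace Pool.Agent.K4H45.BL

open Pool.Agent.H810R3.Tub (Vec Space)

/-- Finner's inequality, with the marginals. -/
theorem finner_marg {n : ℕ} {J : Type} [Fintype J] (T : J → Finset (Fin n)) {c : J → ℝ} (hc : ∀ j, 0 < c j)
    (hcs : ∀ i, ∑ j with i ∈ T j, c j = 1) {G : J → (Fin n → ℝ) → ℝ≥0∞} (hG : ∀ j, Measurable (G j))
    (hGT : ∀ j i, i ∉ T j → ∀ x t, G j (Function.update x i t) = G j x) (s : Finset (Fin n)) :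
    ∀ x : Fin n → ℝ, lmarginal (fun _ => (volume : Measure ℝ)) s (fun y => ∏ j, G j y ^ c j) x ≤
      ∏ j, (lmarginal (fun _ => (volume : Measure ℝ)) (s ∩ T j) (G j) x) ^ c j := by
  classical
  have hF : Measurable (fun y => ∏ j, G j y ^ c j) :=
    Finset.measurable_fun_prod _ fun j _ => (hG j).pow_const _
  induction s using Finset.induction_on with
  | empty =>
    intro x
    simp [lmarginal_empty]
  | insert i s hi ih =>
    intro x
    rw [lmarginal_insert _ hF hi]
    have hmeas : ∀ j, Measurable fun t : ℝ =>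
        lmarginal (fun _ => (volume : Measure ℝ)) (s ∩ T j) (G j) (Function.update x i t) :=
      fun j => ((hG j).lmarginal _).comp (measurable_update _)
    have hnot : ∀ j, i ∉ T j → ∀ t,
        lmarginal (fun _ => (volume : Measure ℝ)) (s ∩ T j) (G j) (Function.update x i t) =
        lmarginal (fun _ => (volume : Measure ℝ)) (s ∩ T j) (G j) x := by
      intro j hj t
      rw [lmarginal_update_of_notMem (hG j) (fun h => hj (Finset.mem_inter.1 h).2)]
      congr 1
      funext y
      exact hGT j i hj y t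
    calc ∫⁻ t, lmarginal (fun _ => (volume : Measure ℝ)) s (fun y => ∏ j, G j y ^ c j)
          (Function.update x i t)
        ≤ ∫⁻ t, ∏ j, (lmarginal (fun _ => (volume : Measure ℝ)) (s ∩ T j) (G j)
          (Function.update x i t)) ^ c j := lintegral_mono fun t => ih _
      _ = ∫⁻ t, (∏ j with i ∉ T j, (lmarginal (fun _ => (volume : Measure ℝ)) (s ∩ T j) (G j) x) ^ c j) *
          ∏ j with i ∈ T j, (lmarginal (fun _ => (volume : Measure ℝ)) (s ∩ T j) (G j)
            (Function.update x i t)) ^ c j := by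
          refine lintegral_congr fun t => ?_
          rw [← Finset.prod_filter_mul_prod_filter_not Finset.univ (fun j => i ∈ T j), mul_comm]
          congr 1
          refine Finset.prod_congr rfl fun j hj => ?_
          rw [hnot j (Finset.mem_filter.1 hj).2 t]
      _ = (∏ j with i ∉ T j, (lmarginal (fun _ => (volume : Measure ℝ)) (s ∩ T j) (G j) x) ^ c j) *
          ∫⁻ t, ∏ j with i ∈ T j, (lmarginal (fun _ => (volume : Measure ℝ)) (s ∩ T j) (G j)
            (Function.update x i t)) ^ c j := by
          rw [lintegral_const_mul]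
          exact Finset.measurable_fun_prod _ fun j _ => (hmeas j).pow_const _
      _ ≤ (∏ j with i ∉ T j, (lmarginal (fun _ => (volume : Measure ℝ)) (s ∩ T j) (G j) x) ^ c j) *
          ∏ j with i ∈ T j, (∫⁻ t, lmarginal (fun _ => (volume : Measure ℝ)) (s ∩ T j) (G j)
            (Function.update x i t)) ^ c j := by
          gcongr
          exact ENNReal.lintegral_prod_norm_pow_le _ (fun j _ => (hmeas j).aemeasurable) (hcs i)
            (fun j _ => (hc j).le)
      _ = ∏ j, (lmarginal (fun _ => (volume : Measure ℝ)) (insert i s ∩ T j) (G j) x) ^ c j := by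
          rw [← Finset.prod_filter_mul_prod_filter_not Finset.univ (fun j => i ∈ T j)
            (fun j => (lmarginal (fun _ => (volume : Measure ℝ)) (insert i s ∩ T j) (G j) x) ^ c j),
            mul_comm]
          congr 1
          · refine Finset.prod_congr rfl fun j hj => ?_
            have hj' := (Finset.mem_filter.1 hj).2
            rw [Finset.insert_inter_of_mem hj', lmarginal_insert _ (hG j)
              (fun h => hi (Finset.mem_inter.1 h).1)]
          · refine Finset.prod_congr rfl fun j hj => ?_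
            rw [Finset.insert_inter_of_notMem (Finset.mem_filter.1 hj).2]

/-- The coordinate projections. -/
theorem finner {d : ℕ} (e : OrthonormalBasis (Fin (d + 1)) ℝ (Space d)) {J : Type} [Fintype J]
    {k : J → ℕ} {τ : ∀ j, Fin (k j) → Fin (d + 1)} (hτ : ∀ j, Function.Injective (τ j)) {c : J → ℝ}
    (hc : ∀ j, 0 < c j) (hcs : ∀ i, ∑ j, (range (τ j)).indicator (fun _ => c j) i = 1) :
    IsBL k (fun j l => e (τ j l)) c 1 := by
  classical
  intro φ hφ
  set f : ∀ j, (Fin (k j) → ℝ) → ℝ≥0∞ := fun j y => φ j (WithLp.toLp 2 y) with hf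
  have hfm : ∀ j, Measurable (f j) := fun j => (hφ j).comp (PiLp.volume_preserving_toLp (Fin (k j))).measurable
  set G : J → (Fin (d + 1) → ℝ) → ℝ≥0∞ := fun j x => f j (fun l => x (τ j l)) with hG
  have hGm : ∀ j, Measurable (G j) := fun j => (hfm j).comp
    (measurable_pi_lambda _ fun l => measurable_pi_apply (τ j l))
  set T : J → Finset (Fin (d + 1)) := fun j => Finset.univ.image (τ j) with hT
  have h1 := e.measurePreserving_repr
  have h2 := PiLp.volume_preserving_ofLp (Fin (d + 1))
  have hm : Measurable fun y : Fin (d + 1) → ℝ => ∏ j, G j y ^ c j :=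
    Finset.measurable_fun_prod _ fun j _ => (hGm j).pow_const _
  have h3 := (h2.comp h1).lintegral_comp hm
  have h4 : ∫⁻ x : Space d, ∏ j, φ j (proj (fun l => e (τ j l)) x) ^ c j =
      ∫⁻ y : Fin (d + 1) → ℝ, ∏ j, G j y ^ c j := by
    rw [← h3]
    refine lintegral_congr fun x => Finset.prod_congr rfl fun j _ => ?_
    congr 2
    ext l
    exact (e.repr_apply_apply x (τ j l)).symm
  have h5 := finner_marg T hc (fun i => by
    rw [Finset.sum_filter]
    refine Eq.trans ?_ (hcs i)
    refine Finset.sum_congr rfl fun j _ => ?_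
    have hiff : i ∈ T j ↔ i ∈ range (τ j) := by simp [hT]
    by_cases hi : i ∈ range (τ j)
    · rw [indicator_of_mem hi, if_pos (hiff.2 hi)]
    · rw [indicator_of_notMem hi, if_neg (fun h => hi (hiff.1 h))]) hGm (fun j i hij x t => by
    simp only [hG]
    congr 1
    funext l
    refine Function.update_of_ne ?_ _ _
    intro h
    apply hij
    simp only [hT, Finset.mem_image, Finset.mem_univ, true_and]
    exact ⟨l, h⟩) Finset.univ 0
  rw [h4, ENNReal.ofReal_one, one_mul]
  have h6 : ∫⁻ y : Fin (d + 1) → ℝ, ∏ j, G j y ^ c j =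
      lmarginal (fun _ => (volume : Measure ℝ)) Finset.univ (fun y => ∏ j, G j y ^ c j) 0 := by
    rw [lmarginal_univ]
    rfl
  rw [h6]
  refine h5.trans (Finset.prod_le_prod' fun j _ => ENNReal.rpow_le_rpow (le_of_eq ?_) (hc j).le)
  rw [Finset.univ_inter]
  have h7 := lmarginal_image (μ := fun _ : Fin (d + 1) => (volume : Measure ℝ)) (hτ j) Finset.univ
    (hfm j) (0 : Fin (d + 1) → ℝ)
  have h8 : (∫⁻ y, φ j y) = ∫⁻ y, f j y :=
    ((PiLp.volume_preserving_toLp (Fin (k j))).lintegral_comp (hφ j)).symm
  rw [h8]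
  refine Eq.trans ?_ (h7.trans ?_)
  · rfl
  · rw [lmarginal_univ]
    rfl

/-- The scaling condition. -/
theorem finner_scaling {n : ℕ} {J : Type} [Fintype J] {k : J → ℕ} {τ : ∀ j, Fin (k j) → Fin n}
    (hτ : ∀ j, Function.Injective (τ j)) {c : J → ℝ}
    (hcs : ∀ i, ∑ j, (range (τ j)).indicator (fun _ => c j) i = 1) : ∑ j, c j * k j = n := by
  classical
  have h1 : ∑ i : Fin n, ∑ j, (range (τ j)).indicator (fun _ => c j) i = n := by
    simp_rw [hcs]
    simp
  rw [Finset.sum_comm] at h1
  rw [← h1]
  refine Finset.sum_congr rfl fun j _ => ?_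
  have h2 : ∀ i : Fin n, (range (τ j)).indicator (fun _ => c j) i =
      if i ∈ Finset.univ.image (τ j) then c j else 0 := by
    intro i
    have hiff : i ∈ Finset.univ.image (τ j) ↔ i ∈ range (τ j) := by simp
    by_cases hi : i ∈ range (τ j)
    · rw [indicator_of_mem hi, if_pos (hiff.2 hi)]
    · rw [indicator_of_notMem hi, if_neg (fun h => hi (hiff.1 h))]
  simp_rw [h2]
  rw [Finset.sum_ite_mem, Finset.univ_inter, Finset.sum_const, Finset.card_image_of_injective _ (hτ j),
    Finset.card_univ, Fintype.card_fin, nsmul_eq_mul, mul_comm]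

end Pool.Agent.K4H45.BL
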