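import Pool.Agent.K4H45.BL.Geo

set_option autoImplicit false
set_option maxHeartbeats 400000

/-!
Boxes and cones of directions.
-/

open MeasureTheory Set ENNReal Metric

namespace Pool.Agent.K4H45.BL

open Pool.Agent.H810R3.Tub (Vec Space nor box dir)

variable {d k : ℕ}

/-- The cone over the ball of radius `c` around `-2 ω`, between the heights `1` and `2`. -/
def cone (ω : Vec d) (c : ℝ) : Set (Space d) :=
  {ξ | (1 ≤ ξ.snd ∧ ξ.snd ≤ 2) ∧ ‖ξ.fst + ξ.snd • ((2 : ℝ) • ω)‖ < c * ξ.snd}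

theorem cone_meas (ω : Vec d) (c : ℝ) : MeasurableSet (cone ω c) := by
  have h1 : IsClosed {ξ : Space d | 1 ≤ ξ.snd ∧ ξ.snd ≤ 2} := by
    have a1 : IsClosed {ξ : Space d | 1 ≤ ξ.snd} := isClosed_le continuous_const (by fun_prop)
    have a2 : IsClosed {ξ : Space d | ξ.snd ≤ 2} := isClosed_le (by fun_prop) continuous_const
    exact a1.inter a2
  have h2 : IsOpen {ξ : Space d | ‖ξ.fst + ξ.snd • ((2 : ℝ) • ω)‖ < c * ξ.snd} :=
    isOpen_lt (by fun_prop) (by fun_prop)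
  exact h1.measurableSet.inter h2.measurableSet

theorem cone_norm {ω : Vec d} (hω : ‖ω‖ ≤ 1) {c : ℝ} (hc : c ≤ 1) {ξ : Space d}
    (hξ : ξ ∈ cone ω c) : ‖ξ‖ ≤ 7 := by
  obtain ⟨⟨h1, h2⟩, h3⟩ := hξ
  have h4 : ‖ξ.fst‖ ≤ 6 := by
    have e : ξ.fst = (ξ.fst + ξ.snd • ((2 : ℝ) • ω)) - ξ.snd • ((2 : ℝ) • ω) := by abel
    have h5 : ‖ξ.snd • ((2 : ℝ) • ω)‖ ≤ 4 := by
      rw [norm_smul, norm_smul, Real.norm_eq_abs, Real.norm_eq_abs, abs_of_pos (by linarith),
        abs_of_pos (by norm_num : (0:ℝ) < 2)]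
      nlinarith [norm_nonneg ω]
    rw [e]
    refine (norm_sub_le _ _).trans ?_
    nlinarith
  apply le_of_sq_le_sq _ (by norm_num : (0:ℝ) ≤ 7)
  rw [Pool.Agent.H810R3.Tub.norm_space_sq]
  nlinarith [norm_nonneg ξ.fst]

theorem cone_disj {ω ω' : Vec d} {c : ℝ} (h : c ≤ ‖ω - ω'‖) :
    Disjoint (cone ω c) (cone ω' c) := by
  rw [Set.disjoint_left]
  rintro ξ ⟨⟨h1, h2⟩, h3⟩ ⟨-, h4⟩
  have e : ξ.snd • ((2 : ℝ) • (ω - ω')) =
      (ξ.fst + ξ.snd • ((2 : ℝ) • ω)) - (ξ.fst + ξ.snd • ((2 : ℝ) • ω')) := by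
    rw [smul_sub, smul_sub]
    abel
  have h5 : ‖ξ.snd • ((2 : ℝ) • (ω - ω'))‖ < 2 * (c * ξ.snd) := by
    rw [e]
    refine (norm_sub_le _ _).trans_lt ?_
    linarith
  rw [norm_smul, norm_smul, Real.norm_eq_abs, Real.norm_eq_abs, abs_of_pos (by linarith),
    abs_of_pos (by norm_num : (0:ℝ) < 2)] at h5
  nlinarith

/-- The volume of the unit ball of `ℝ^d`. -/
noncomputable def vd (d : ℕ) : ℝ := (volume (ball (0 : Vec d) 1)).toReal

theorem vd_pos (d : ℕ) : 0 < vd d :=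
  ENNReal.toReal_pos (measure_ball_pos _ _ one_pos).ne' measure_ball_lt_top.ne

theorem cone_vol (ω : Vec d) {c : ℝ} (hc : 0 < c) :
    ENNReal.ofReal (vd d * c ^ d) ≤ volume (cone ω c) := by
  have hmp := WithLp.volume_preserving_toLp (Vec d) ℝ
  have h1 : volume (cone ω c) =
      volume ((WithLp.toLp 2 : Vec d × ℝ → Space d) ⁻¹' cone ω c) :=
    (hmp.measure_preimage (cone_meas ω c).nullMeasurableSet).symm
  have hm : MeasurableSet ((WithLp.toLp 2 : Vec d × ℝ → Space d) ⁻¹' cone ω c) :=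
    hmp.measurable (cone_meas ω c)
  have h2 : ∀ s ∈ Icc (1:ℝ) 2, ENNReal.ofReal (vd d * c ^ d) ≤
      volume ((fun y : Vec d => (y, s)) ⁻¹' ((WithLp.toLp 2 : Vec d × ℝ → Space d) ⁻¹' cone ω c)) := by
    intro s hs
    have h3 : ball (-(s • ((2 : ℝ) • ω))) c ⊆
        (fun y : Vec d => (y, s)) ⁻¹' ((WithLp.toLp 2 : Vec d × ℝ → Space d) ⁻¹' cone ω c) := by
      intro y hy
      rw [mem_ball, dist_eq_norm, sub_neg_eq_add] at hy
      refine ⟨hs, ?_⟩
      show ‖y + s • ((2 : ℝ) • ω)‖ < c * s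
      refine hy.trans_le ?_
      nlinarith [hs.1]
    refine le_trans (le_of_eq ?_) (measure_mono h3)
    rw [Measure.addHaar_ball_of_pos _ _ hc, finrank_euclideanSpace_fin, mul_comm (vd d),
      ENNReal.ofReal_mul (by positivity)]
    congr 1
    rw [vd, ENNReal.ofReal_toReal measure_ball_lt_top.ne]
  rw [h1, Measure.volume_eq_prod, Measure.prod_apply_symm hm]
  calc ENNReal.ofReal (vd d * c ^ d) = ∫⁻ _s in Icc (1:ℝ) 2, ENNReal.ofReal (vd d * c ^ d) := by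
        rw [setLIntegral_const, Real.volume_Icc]
        norm_num
    _ ≤ ∫⁻ s in Icc (1:ℝ) 2, volume ((fun y : Vec d => (y, s)) ⁻¹'
          ((WithLp.toLp 2 : Vec d × ℝ → Space d) ⁻¹' cone ω c)) :=
        setLIntegral_mono' measurableSet_Icc h2
    _ ≤ _ := setLIntegral_le_lintegral _ _

/-- The moving ball is over a point of the box for a time at least `1 / (4 N)`. -/
theorem times {N σ : ℝ} (hN : 1 ≤ N) (hσ : 0 < σ) (hσ1 : σ ≤ 1) {ω : Vec d} (hω : ‖ω‖ ≤ 1)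
    {f : Fin d → Space d} (hf : Orthonormal ℝ (Fin.cons (nor ω) f : Fin (d + 1) → Space d))
    {a x ξ : Space d} (hx : x ∈ box N (nor ω) f a) (hξ : ξ ∈ cone ω (σ / N)) :
    ENNReal.ofReal (1 / (4 * N)) ≤
      (volume.restrict (Icc (-2 : ℝ) 2)) {t | ‖a + (t * N ^ 2) • ξ - x‖ ≤ ((d : ℝ) + 3) * N} := by
  have hN0 : 0 < N := by linarith
  have hd0 : (0 : ℝ) ≤ d := Nat.cast_nonneg d
  have hc1 : σ / N ≤ 1 := by
    rw [div_le_one hN0]
    linarith
  have hξ7 := cone_norm hω hc1 hξ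
  obtain ⟨⟨h1, h2⟩, h3⟩ := hξ
  have hperp := Pool.Agent.H810R3.Tub.box_perp hN hf hx
  set z : Space d := x - a with hz
  set τ : ℝ := inner ℝ (nor ω) z with hτ
  have hτ1 : |τ| ≤ N ^ 2 / 2 := hx.1
  set g : ℝ := √(1 + ‖-(2 : ℝ) • ω‖ ^ 2) with hg
  have hg1 : 1 ≤ g := by
    rw [hg]
    refine Real.one_le_sqrt.2 ?_
    nlinarith [sq_nonneg ‖-(2 : ℝ) • ω‖]
  have hg0 : 0 < g := by linarith
  set h : Space d := WithLp.toLp 2 (-(2 : ℝ) • ω, (1:ℝ)) with hh
  have he : nor ω = g⁻¹ • h := rfl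
  set u : ℝ := ξ.snd with hu
  have hu0 : 0 < u := by linarith
  set err : Space d := ξ - u • h with herr
  have herr1 : ‖err‖ ≤ σ / N * u := by
    have e1 : ‖err‖ = ‖ξ.fst + u • ((2 : ℝ) • ω)‖ := by
      have e2 : ‖err‖ ^ 2 = ‖ξ.fst + u • ((2 : ℝ) • ω)‖ ^ 2 := by
        rw [Pool.Agent.H810R3.Tub.norm_space_sq]
        have e3 : err.fst = ξ.fst + u • ((2 : ℝ) • ω) := by
          rw [herr, WithLp.sub_fst, WithLp.smul_fst]
          show ξ.fst - u • (-(2 : ℝ) • ω) = _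
          rw [neg_smul, smul_neg, sub_neg_eq_add]
        have e4 : err.snd = 0 := by
          rw [herr, WithLp.sub_snd, WithLp.smul_snd]
          show ξ.snd - u • (1 : ℝ) = 0
          rw [← hu]
          simp
        rw [e3, e4]
        ring
      exact (sq_eq_sq₀ (norm_nonneg _) (norm_nonneg _)).1 e2
    rw [e1]
    exact h3.le
  set t0 : ℝ := τ / (g * u * N ^ 2) with ht0
  have ht0' : |t0| ≤ 1 / 2 := by
    rw [ht0, abs_div, abs_of_pos (by positivity : 0 < g * u * N ^ 2), div_le_iff₀ (by positivity)]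
    have : 1 ≤ g * u := by nlinarith
    nlinarith [sq_nonneg N, mul_le_mul_of_nonneg_right this (sq_nonneg N)]
  have hmain : ‖(t0 * N ^ 2) • ξ - z‖ ≤ d * N / 2 + N / 2 := by
    have e1 : (t0 * N ^ 2) • ξ - z = (τ / (g * u)) • err - (z - τ • nor ω) := by
      have e2 : ξ = u • h + err := by rw [herr]; abel
      have e3 : t0 * N ^ 2 = τ / (g * u) := by
        rw [ht0]
        field_simp
      have e4 : (τ / (g * u)) • (u • h) = τ • nor ω := by
        rw [he, smul_smul, smul_smul]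
        congr 1
        field_simp
      rw [e3]
      conv_lhs => rw [e2]
      rw [smul_add, e4]
      abel
    rw [e1]
    refine (norm_sub_le _ _).trans ?_
    have h5 : ‖(τ / (g * u)) • err‖ ≤ N / 2 := by
      rw [norm_smul, Real.norm_eq_abs, abs_div, abs_of_pos (by positivity : 0 < g * u)]
      calc |τ| / (g * u) * ‖err‖ ≤ (N ^ 2 / 2) / (1 * u) * (σ / N * u) := by gcongr
        _ = N / 2 * σ := by field_simp
        _ ≤ N / 2 * 1 := by gcongr
        _ = N / 2 := mul_one _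
    linarith
  have hsub : Icc (t0 - 1 / (8 * N)) (t0 + 1 / (8 * N)) ⊆
      {t : ℝ | ‖a + (t * N ^ 2) • ξ - x‖ ≤ ((d : ℝ) + 3) * N} ∩ Icc (-2 : ℝ) 2 := by
    intro t ht
    have h8 : 1 / (8 * N) ≤ 1 / 8 := by
      rw [div_le_div_iff₀ (by positivity) (by norm_num)]
      linarith
    have habs := abs_le.1 ht0'
    refine ⟨?_, ⟨by linarith [ht.1], by linarith [ht.2]⟩⟩
    rw [Set.mem_ofPred_eq]
    have e1 : a + (t * N ^ 2) • ξ - x = ((t - t0) * N ^ 2) • ξ + ((t0 * N ^ 2) • ξ - z) := by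
      rw [hz, sub_mul, sub_smul]
      abel
    have h9 : |t - t0| ≤ 1 / (8 * N) := by
      rw [abs_le]
      exact ⟨by linarith [ht.1], by linarith [ht.2]⟩
    have h10 : ‖((t - t0) * N ^ 2) • ξ‖ ≤ N := by
      rw [norm_smul, Real.norm_eq_abs, abs_mul, abs_of_nonneg (sq_nonneg N)]
      calc |t - t0| * N ^ 2 * ‖ξ‖ ≤ 1 / (8 * N) * N ^ 2 * 7 := by gcongr
        _ = 7 / 8 * N := by field_simp
        _ ≤ N := by linarith
    rw [e1]
    refine (norm_add_le _ _).trans ?_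
    nlinarith [mul_nonneg hd0 hN0.le]
  have hS : MeasurableSet {t : ℝ | ‖a + (t * N ^ 2) • ξ - x‖ ≤ ((d : ℝ) + 3) * N} := by
    apply IsClosed.measurableSet
    exact isClosed_le (by fun_prop) continuous_const
  rw [Measure.restrict_apply hS]
  refine le_trans (le_of_eq ?_) (measure_mono hsub)
  rw [Real.volume_Icc]
  congr 1
  field_simp
  ring

end Pool.Agent.K4H45.BL
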