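import Pool.Agent.K4H45.BL.Geb

set_option autoImplicit false
set_option maxHeartbeats 400000

/-!
The integral over a box of a function of a projection.
-/

open MeasureTheory Set ENNReal Metric

namespace Pool.Agent.K4H45.BL

open Pool.Agent.H810R3.Tub (Vec Space nor box dir)

/-- Exchange of the time and the place. -/
theorem time_swap {E : Type*} [NormedAddCommGroup E] [MeasurableSpace E] [BorelSpace E]
    [SecondCountableTopology E] (ν : Measure E) [SFinite ν] (μ : Measure ℝ) [SFinite μ]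
    {c : ℝ → E} (hc : Continuous c) (r : ℝ) {W : E → ℝ≥0∞} (hW : Measurable W) :
    ∫⁻ x, μ {t | ‖c t - x‖ ≤ r} * W x ∂ν = ∫⁻ t, (∫⁻ x in closedBall (c t) r, W x ∂ν) ∂μ := by
  set S : Set (E × ℝ) := {q | ‖c q.2 - q.1‖ ≤ r} with hS
  have hSm : MeasurableSet S := by
    apply IsClosed.measurableSet
    exact isClosed_le (by fun_prop) continuous_const
  have h1 : Measurable fun q : E × ℝ => S.indicator (fun _ => (1:ℝ≥0∞)) q * W q.1 :=
    (measurable_const.indicator hSm).mul (hW.comp measurable_fst)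
  calc ∫⁻ x, μ {t | ‖c t - x‖ ≤ r} * W x ∂ν
      = ∫⁻ x, ∫⁻ t, S.indicator (fun _ => (1:ℝ≥0∞)) (x, t) * W x ∂μ ∂ν := by
        refine lintegral_congr fun x => ?_
        have h2 : Measurable fun t => S.indicator (fun _ => (1:ℝ≥0∞)) (x, t) :=
          (measurable_const.indicator hSm).comp measurable_prodMk_left
        rw [lintegral_mul_const _ h2]
        congr 1
        have h3 : MeasurableSet {t : ℝ | ‖c t - x‖ ≤ r} := hSm.preimage measurable_prodMk_left
        have h4 : (fun t => S.indicator (fun _ => (1:ℝ≥0∞)) (x, t)) =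
            {t : ℝ | ‖c t - x‖ ≤ r}.indicator (fun _ => 1) := by
          funext t
          rfl
        rw [h4, lintegral_indicator h3, setLIntegral_const, one_mul]
    _ = ∫⁻ t, ∫⁻ x, S.indicator (fun _ => (1:ℝ≥0∞)) (x, t) * W x ∂ν ∂μ :=
        lintegral_lintegral_swap h1.aemeasurable
    _ = _ := by
        refine lintegral_congr fun t => ?_
        rw [← lintegral_indicator isClosed_closedBall.measurableSet]
        refine lintegral_congr fun x => ?_
        by_cases hx : x ∈ closedBall (c t) r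
        · have h5 : (x, t) ∈ S := by
            rw [mem_closedBall, dist_comm, dist_eq_norm] at hx
            exact hx
          rw [indicator_of_mem hx, indicator_of_mem h5, one_mul]
        · have h5 : (x, t) ∉ S := by
            intro h
            apply hx
            rw [mem_closedBall, dist_comm, dist_eq_norm]
            exact h
          rw [indicator_of_notMem hx, indicator_of_notMem h5, zero_mul]

variable {d k : ℕ}

/-- The integral over a box. -/
theorem box_int {N σ : ℝ} (hN : 1 ≤ N) (hσ : 0 < σ) (hσ1 : σ ≤ 1) {ω : Vec d} (hω : ‖ω‖ ≤ 1)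
    {f : Fin d → Space d} (hf : Orthonormal ℝ (Fin.cons (nor ω) f : Fin (d + 1) → Space d))
    {a ξ : Space d} (hξ : ξ ∈ cone ω (σ / N)) {b : Fin k → Space d} (hb : Orthonormal ℝ b) {m : ℕ}
    (hkm : k + m = d + 1) {w : F k → ℝ≥0∞} (hw : Measurable w) :
    ∫⁻ x in box N (nor ω) f a, w (proj b x) ≤
      ENNReal.ofReal (4 * N) * ENNReal.ofReal (2 * (((d : ℝ) + 3) * N)) ^ m *
        Lam (((d : ℝ) + 3) * N) (N ^ 2) w (proj b a) (proj b ξ) := by
  have hN0 : 0 < N := by linarith
  have hd0 : (0 : ℝ) ≤ d := Nat.cast_nonneg d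
  set r : ℝ := ((d : ℝ) + 3) * N with hr
  have hr0 : 0 ≤ r := by positivity
  set μ : Measure ℝ := volume.restrict (Icc (-2 : ℝ) 2) with hμ
  have hbox : MeasurableSet (box N (nor ω) f a) :=
    (Pool.Agent.H810R3.Tub.box_closed _ _ _ _).measurableSet
  have hwp : Measurable fun x => w (proj b x) := hw.comp (proj_cont b).measurable
  have h1 : ENNReal.ofReal (1 / (4 * N)) * ∫⁻ x in box N (nor ω) f a, w (proj b x) ≤
      ∫⁻ x, μ {t | ‖a + (t * N ^ 2) • ξ - x‖ ≤ r} * w (proj b x) := by
    rw [← lintegral_const_mul _ hwp, ← lintegral_indicator hbox]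
    refine lintegral_mono fun x => ?_
    by_cases hx : x ∈ box N (nor ω) f a
    · rw [indicator_of_mem hx]
      exact mul_le_mul_left (times hN hσ hσ1 hω hf hx hξ) _
    · rw [indicator_of_notMem hx]
      exact zero_le
  have h2 : ∫⁻ x, μ {t | ‖a + (t * N ^ 2) • ξ - x‖ ≤ r} * w (proj b x) =
      ∫⁻ t, (∫⁻ x in closedBall (a + (t * N ^ 2) • ξ) r, w (proj b x)) ∂μ :=
    time_swap volume μ (c := fun t => a + (t * N ^ 2) • ξ) (by fun_prop) r hwp
  have h3 : ∫⁻ t, (∫⁻ x in closedBall (a + (t * N ^ 2) • ξ) r, w (proj b x)) ∂μ ≤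
      ∫⁻ t, ENNReal.ofReal (2 * r) ^ m *
        (∫⁻ y in closedBall (proj b a + (t * N ^ 2) • proj b ξ) r, w y) ∂μ := by
    refine lintegral_mono fun t => ?_
    refine (ball_proj hb hkm hw _ hr0).trans (le_of_eq ?_)
    rw [proj_add, proj_smul]
  have h4 : ∫⁻ t, (∫⁻ y in closedBall (proj b a + (t * N ^ 2) • proj b ξ) r, w y) ∂μ =
      Lam r (N ^ 2) w (proj b a) (proj b ξ) := by
    rw [← time_swap volume μ (c := fun t => proj b a + (t * N ^ 2) • proj b ξ) (by fun_prop) r hw]
    rfl
  have h5 : ∫⁻ t, ENNReal.ofReal (2 * r) ^ m *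
        (∫⁻ y in closedBall (proj b a + (t * N ^ 2) • proj b ξ) r, w y) ∂μ =
      ENNReal.ofReal (2 * r) ^ m * Lam r (N ^ 2) w (proj b a) (proj b ξ) := by
    rw [lintegral_const_mul' _ _ (ENNReal.pow_ne_top ENNReal.ofReal_ne_top), h4]
  have h6 : ENNReal.ofReal (4 * N) * ENNReal.ofReal (1 / (4 * N)) = 1 := by
    rw [← ENNReal.ofReal_mul (by positivity), mul_one_div_cancel (by positivity), ENNReal.ofReal_one]
  calc ∫⁻ x in box N (nor ω) f a, w (proj b x)
      = ENNReal.ofReal (4 * N) * (ENNReal.ofReal (1 / (4 * N)) *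
          ∫⁻ x in box N (nor ω) f a, w (proj b x)) := by rw [← mul_assoc, h6, one_mul]
    _ ≤ ENNReal.ofReal (4 * N) * (ENNReal.ofReal (2 * r) ^ m *
          Lam r (N ^ 2) w (proj b a) (proj b ξ)) := by
        refine mul_le_mul_right ?_ _
        rw [← h5]
        exact (h1.trans (le_of_eq h2)).trans h3
    _ = _ := (mul_assoc _ _ _).symm

end Pool.Agent.K4H45.BL
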