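import Pool.Agent.K4H45.BL.Plb
import Pool.Agent.H810R3.Tub.Compare

set_option autoImplicit false
set_option maxHeartbeats 400000

/-!
Projections of boxes.
-/

open MeasureTheory Set ENNReal Metric

namespace Pool.Agent.K4H45.BL

open Pool.Agent.H810R3.Tub (Vec Space nor box)

variable {d k : ℕ}

/-- The orthogonal projection onto the span of the orthonormal family `b`, in coordinates. -/
noncomputable def proj (b : Fin k → Space d) (x : Space d) : F k :=
  WithLp.toLp 2 (fun l => inner ℝ (b l) x)

theorem proj_apply (b : Fin k → Space d) (x : Space d) (l : Fin k) : proj b x l = inner ℝ (b l) x := rfl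

theorem proj_add (b : Fin k → Space d) (x y : Space d) : proj b (x + y) = proj b x + proj b y := by
  ext l
  simp [proj_apply, inner_add_right]

theorem proj_smul (b : Fin k → Space d) (c : ℝ) (x : Space d) : proj b (c • x) = c • proj b x := by
  ext l
  simp [proj_apply, inner_smul_right]

theorem proj_sub (b : Fin k → Space d) (x y : Space d) : proj b (x - y) = proj b x - proj b y := by
  ext l
  simp [proj_apply, inner_sub_right]

theorem proj_norm {b : Fin k → Space d} (hb : Orthonormal ℝ b) (x : Space d) : ‖proj b x‖ ≤ ‖x‖ := by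
  apply le_of_sq_le_sq _ (norm_nonneg x)
  rw [EuclideanSpace.norm_sq_eq]
  exact hb.sum_inner_products_le x (s := Finset.univ)

theorem proj_cont (b : Fin k → Space d) : Continuous (proj b) := by
  unfold proj
  fun_prop

/-- The integral over a ball of a function of the projection. -/
theorem ball_proj {b : Fin k → Space d} (hb : Orthonormal ℝ b) {m : ℕ} (hkm : k + m = d + 1)
    {w : F k → ℝ≥0∞} (hw : Measurable w) (a : Space d) {r : ℝ} (hr : 0 ≤ r) :
    ∫⁻ x in closedBall a r, w (proj b x) ≤
      ENNReal.ofReal (2 * r) ^ m * ∫⁻ y in closedBall (proj b a) r, w y := by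
  set v : Fin k ⊕ Fin m → Space d := Sum.elim b (fun _ => 0) with hv
  have hor : Orthonormal ℝ ((range (Sum.inl : Fin k → Fin k ⊕ Fin m)).domRestrict v) := by
    constructor
    · rintro ⟨_, i, rfl⟩
      exact hb.1 i
    · rintro ⟨_, i, rfl⟩ ⟨_, j, rfl⟩ hij
      refine hb.2 ?_
      intro h
      exact hij (by rw [h])
  obtain ⟨B, hB⟩ := hor.exists_orthonormalBasis_extension_of_card_eq
    (by rw [Pool.Agent.H810R3.Tub.finrank_space, Fintype.card_sum, Fintype.card_fin, Fintype.card_fin, hkm])
  have hBl : ∀ i, B (Sum.inl i) = b i := fun i => hB _ ⟨i, rfl⟩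
  have h1 := B.measurePreserving_repr
  have h2 := PiLp.volume_preserving_ofLp (Fin k ⊕ Fin m)
  have h3 := volume_measurePreserving_sumPiEquivProdPi (fun _ : Fin k ⊕ Fin m => ℝ)
  have h4 := (h3.comp (h2.comp h1))
  set Ψ : Space d → (Fin k → ℝ) × (Fin m → ℝ) :=
    (MeasurableEquiv.sumPiEquivProdPi fun _ : Fin k ⊕ Fin m => ℝ) ∘
      (WithLp.ofLp ∘ B.repr) with hΨ
  have hΨ1 : ∀ x, WithLp.toLp 2 (Ψ x).1 = proj b x := by
    intro x
    ext l
    rw [proj_apply, ← hBl]
    exact B.repr_apply_apply x _
  have hΨ2 : ∀ x j, (Ψ x).2 j = inner ℝ (B (Sum.inr j)) x := by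
    intro x j
    exact B.repr_apply_apply x _
  set W : (Fin k → ℝ) → ℝ≥0∞ := fun y =>
    ((closedBall (proj b a) r).indicator w) (WithLp.toLp 2 y) with hW
  set G : (Fin m → ℝ) → ℝ≥0∞ := (closedBall (Ψ a).2 r).indicator (fun _ => 1) with hG
  have hWm : Measurable W := (hw.indicator isClosed_closedBall.measurableSet).comp
    (PiLp.volume_preserving_toLp (Fin k)).measurable
  have hGm : Measurable G := measurable_const.indicator isClosed_closedBall.measurableSet
  calc ∫⁻ x in closedBall a r, w (proj b x)
      = ∫⁻ x, (closedBall a r).indicator (fun x => w (proj b x)) x :=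
        (lintegral_indicator isClosed_closedBall.measurableSet _).symm
    _ ≤ ∫⁻ x, W (Ψ x).1 * G (Ψ x).2 := by
        refine lintegral_mono fun x => ?_
        by_cases hx : x ∈ closedBall a r
        · rw [indicator_of_mem hx]
          rw [mem_closedBall, dist_eq_norm] at hx
          have e1 : W (Ψ x).1 = w (proj b x) := by
            simp only [hW]
            rw [hΨ1, indicator_of_mem]
            rw [mem_closedBall, dist_eq_norm, ← proj_sub]
            exact (proj_norm hb _).trans hx
          have e2 : G (Ψ x).2 = 1 := by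
            simp only [hG]
            rw [indicator_of_mem]
            rw [mem_closedBall, dist_pi_le_iff hr]
            intro j
            rw [hΨ2, hΨ2, Real.dist_eq, ← inner_sub_right]
            refine (abs_real_inner_le_norm _ _).trans ?_
            rw [B.norm_eq_one, one_mul]
            exact hx
          rw [e1, e2, mul_one]
        · rw [indicator_of_notMem hx]
          exact zero_le
    _ = ∫⁻ q : (Fin k → ℝ) × (Fin m → ℝ), W q.1 * G q.2 :=
        h4.lintegral_comp ((hWm.comp measurable_fst).mul (hGm.comp measurable_snd))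
    _ = (∫⁻ y, W y) * ∫⁻ z, G z := by
        rw [Measure.volume_eq_prod, lintegral_prod_mul hWm.aemeasurable hGm.aemeasurable]
    _ = (∫⁻ y in closedBall (proj b a) r, w y) * ENNReal.ofReal (2 * r) ^ m := by
        congr 1
        · rw [← lintegral_indicator isClosed_closedBall.measurableSet]
          exact (PiLp.volume_preserving_toLp (Fin k)).lintegral_comp
            (hw.indicator isClosed_closedBall.measurableSet)
        · rw [hG, lintegral_indicator isClosed_closedBall.measurableSet, setLIntegral_const, one_mul,
            Real.volume_pi_closedBall _ hr, Fintype.card_fin, ENNReal.ofReal_pow (by positivity)]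
    _ = _ := mul_comm _ _

end Pool.Agent.K4H45.BL
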