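import Pool.Agent.K4H45.BL.All

set_option autoImplicit false
set_option maxHeartbeats 400000

/-!
Level sets covered by product sets.
-/

open MeasureTheory Set ENNReal Metric

namespace Pool.Agent.K4H45.BL

open Pool.Agent.H810R3.Tub (Vec Space nor box dir Fb wv wv_pos)

variable {d : ℕ}

/-- A Brascamp-Lieb datum with the constant `L`. -/
def IsDatum {J : Type} [Fintype J] (L : ℝ) (k : J → ℕ) (b : ∀ j, Fin (k j) → Space d) (c : J → ℝ) : Prop :=
  (∀ j, 1 ≤ k j) ∧ (∀ j, Orthonormal ℝ (b j)) ∧ (∀ j, 0 < c j) ∧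
    ∑ j, c j * k j = (d : ℝ) + 1 ∧ IsBL k b c L

/-- The admissible sets in `ℝ^k`: all if `k ≤ 2`, the radial ones otherwise. -/
def AdmSet {k : ℕ} (E : Set (F k)) : Prop :=
  k ≤ 2 ∨ ∃ (o : F k) (T : Set ℝ), MeasurableSet T ∧ E = {x | ‖x - o‖ ∈ T}

theorem AdmSet.adm {k : ℕ} {E : Set (F k)} (h : AdmSet E) : Adm (E.indicator fun _ => (1:ℝ≥0∞)) := by
  classical
  rcases h with h | ⟨o, T, hT, hE⟩
  · exact Or.inl h
  · refine Or.inr ⟨o, T.indicator fun _ => 1, measurable_const.indicator hT, fun x => ?_⟩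
    subst hE
    by_cases hx : ‖x - o‖ ∈ T
    · rw [indicator_of_mem hx, indicator_of_mem (show x ∈ {x | ‖x - o‖ ∈ T} from hx)]
    · rw [indicator_of_notMem hx, indicator_of_notMem (show x ∉ {x | ‖x - o‖ ∈ T} from hx)]

/-- The set `S` is given by conditions on the projections, and its size is at most `m`. -/
def IsProd (L : ℝ) (m : ℝ≥0∞) (S : Set (Space d)) : Prop :=
  ∃ (J : Type) (_ : Fintype J) (k : J → ℕ) (b : ∀ j, Fin (k j) → Space d) (c : J → ℝ)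
    (E : ∀ j, Set (F (k j))), IsDatum L k b c ∧ (∀ j, MeasurableSet (E j)) ∧ (∀ j, AdmSet (E j)) ∧
      S = {y | ∀ j, proj (b j) y ∈ E j} ∧ ∏ j, volume (E j) ^ c j ≤ m

/-- Covers by product sets. -/
def Cov (K : ℕ) (L : ℝ) (m : ℝ≥0∞) (A : Set (Space d)) : Prop :=
  ∃ (S : Fin K → Set (Space d)) (v : Fin K → ℝ≥0∞), (∀ l, IsProd L (v l) (S l)) ∧ A ⊆ ⋃ l, S l ∧
    ∑ l, v l ≤ m

/-- The integral over a product set. -/
theorem piece (hd : 1 ≤ d) {L : ℝ} (hL0 : 0 < L) {m : ℝ≥0∞} {S : Set (Space d)} (hS : IsProd L m S)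
    {N σ : ℝ} (hN : 1 ≤ N) (hσ : 0 < σ) (hσ1 : σ ≤ 1)
    {ι : Type} [Fintype ι] {ω : ι → Vec d} {f : ι → Fin d → Space d} (hω : ∀ i, ‖ω i‖ ≤ 1)
    (hsep : ∀ i j, i ≠ j → σ / N ≤ ‖ω i - ω j‖)
    (hf : ∀ i, Orthonormal ℝ (Fin.cons (nor (ω i)) (f i) : Fin (d + 1) → Space d)) (a : ι → Space d) :
    ∫⁻ y in S, Fb N ω f a y ≤ ((Fintype.card ι : ℝ≥0∞) ^ (d : ℝ) * (ENNReal.ofReal (kc d σ L N) * m)) ^
      (1 / ((d : ℝ) + 1)) := by
  classical
  obtain ⟨J, _, k, b, c, E, ⟨hk, hb, hc, hck, hL⟩, hE, hEa, hSE, hm⟩ := hS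
  have hd0 : (0:ℝ) ≤ d := Nat.cast_nonneg d
  have hn0 : (0:ℝ) < (d:ℝ) + 1 := by linarith
  have hkd : ∀ j, k j ≤ d + 1 := fun j => card_le_dim (hb j)
  have hSm : MeasurableSet S := by
    rw [hSE]
    have : {y : Space d | ∀ j, proj (b j) y ∈ E j} = ⋂ j, proj (b j) ⁻¹' E j := by
      ext y
      simp
    rw [this]
    exact MeasurableSet.iInter fun j => (proj_cont (b j)).measurable (hE j)
  have h := crit hk hkd hb hc hck hL0 hL hN hσ hσ1 hω hsep hf a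
    (u := fun j => (E j).indicator (fun _ => 1)) (fun j => measurable_const.indicator (hE j))
    (fun j => (hEa j).adm)
  have e1 : ∀ y, ∏ j, (E j).indicator (fun _ => (1:ℝ≥0∞)) (proj (b j) y) =
      S.indicator (fun _ => 1) y := by
    intro y
    by_cases hy : y ∈ S
    · rw [indicator_of_mem hy]
      refine Finset.prod_eq_one fun j _ => ?_
      rw [hSE] at hy
      exact indicator_of_mem (hy j) _
    · rw [indicator_of_notMem hy]
      rw [hSE, Set.mem_ofPred_eq] at hy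
      push Not at hy
      obtain ⟨j, hj⟩ := hy
      refine Finset.prod_eq_zero (Finset.mem_univ j) ?_
      exact indicator_of_notMem hj _
  have e2 : ∀ j, ∫⁻ y, (E j).indicator (fun _ => (1:ℝ≥0∞)) y ^ (((d : ℝ) + 1) / c j) = volume (E j) := by
    intro j
    have h3 : ∀ y, (E j).indicator (fun _ => (1:ℝ≥0∞)) y ^ (((d : ℝ) + 1) / c j) =
        (E j).indicator (fun _ => (1:ℝ≥0∞)) y := by
      intro y
      by_cases hy : y ∈ E j
      · rw [indicator_of_mem hy, ENNReal.one_rpow]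
      · rw [indicator_of_notMem hy, ENNReal.zero_rpow_of_pos (div_pos hn0 (hc j))]
    simp_rw [h3]
    rw [lintegral_indicator (hE j), setLIntegral_const, one_mul]
  simp_rw [e1, e2] at h
  have e3 : ∫⁻ y, Fb N ω f a y * S.indicator (fun _ => 1) y = ∫⁻ y in S, Fb N ω f a y := by
    rw [← lintegral_indicator hSm]
    refine lintegral_congr fun y => ?_
    by_cases hy : y ∈ S
    · rw [indicator_of_mem hy, indicator_of_mem hy, mul_one]
    · rw [indicator_of_notMem hy, indicator_of_notMem hy, mul_zero]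
  rw [e3] at h
  have h4 := ENNReal.rpow_le_rpow h (z := 1 / ((d:ℝ) + 1)) (by positivity)
  rw [← ENNReal.rpow_mul, mul_one_div_cancel hn0.ne', ENNReal.rpow_one] at h4
  refine h4.trans (ENNReal.rpow_le_rpow ?_ (by positivity))
  exact mul_le_mul_right (mul_le_mul_right hm _) _

/-- The level sets are small. -/
theorem level (hd : 1 ≤ d) {L : ℝ} (hL0 : 0 < L) {N σ : ℝ} (hN : 1 ≤ N) (hσ : 0 < σ) (hσ1 : σ ≤ 1)
    {ι : Type} [Fintype ι] {ω : ι → Vec d} {f : ι → Fin d → Space d} (hω : ∀ i, ‖ω i‖ ≤ 1)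
    (hsep : ∀ i j, i ≠ j → σ / N ≤ ‖ω i - ω j‖)
    (hf : ∀ i, Orthonormal ℝ (Fin.cons (nor (ω i)) (f i) : Fin (d + 1) → Space d)) (a : ι → Space d)
    {K : ℕ} {M : ℝ} (hM : 0 < M) {t : ℕ} {A : Set (Space d)} (hAt : A = {y | (t : ℝ≥0∞) < Fb N ω f a y})
    (hcov : Cov K L (ENNReal.ofReal M * volume A) A) :
    ((t : ℝ≥0∞) + 1) ^ (((d:ℝ) + 1) / d) * volume A ≤
      ((K : ℝ≥0∞) ^ (d : ℝ) * ((Fintype.card ι : ℝ≥0∞) ^ (d : ℝ) *
        (ENNReal.ofReal (kc d σ L N) * ENNReal.ofReal M))) ^ (1 / (d : ℝ)) := by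
  classical
  have hd0 : (0:ℝ) < d := by exact_mod_cast hd
  have hn0 : (0:ℝ) < (d:ℝ) + 1 := by linarith
  obtain ⟨S, v, hS, hAS, hv⟩ := hcov
  have hFm := Pool.Agent.H810R3.Tub.Fb_measurable N ω f a
  have hAm : MeasurableSet A := by
    rw [hAt]
    exact measurableSet_lt measurable_const hFm
  set G : ℝ≥0∞ := (Fintype.card ι : ℝ≥0∞) ^ (d : ℝ) with hG
  set k0 : ℝ≥0∞ := ENNReal.ofReal (kc d σ L N) with hk0
  -- Chebyshev
  have h1 : ((t : ℝ≥0∞) + 1) * volume A ≤ ∫⁻ y in A, Fb N ω f a y := by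
    rw [← setLIntegral_const]
    refine setLIntegral_mono' hAm fun y hy => ?_
    rw [hAt, Set.mem_ofPred_eq] at hy
    have hint : ∃ n : ℕ, Fb N ω f a y = n := by
      unfold Fb
      refine ⟨∑ i, if y ∈ box N (nor (ω i)) (f i) (a i) then 1 else 0, ?_⟩
      rw [Nat.cast_sum]
      refine Finset.sum_congr rfl fun i _ => ?_
      by_cases hyi : y ∈ box N (nor (ω i)) (f i) (a i)
      · rw [indicator_of_mem hyi, if_pos hyi, Nat.cast_one]
      · rw [indicator_of_notMem hyi, if_neg hyi, Nat.cast_zero]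
    obtain ⟨n, hn⟩ := hint
    rw [hn] at hy ⊢
    have h2 : t < n := by exact_mod_cast hy
    have h3 : t + 1 ≤ n := h2
    exact_mod_cast h3
  have h2 : ∫⁻ y in A, Fb N ω f a y ≤ ∑ l, (G * (k0 * v l)) ^ (1 / ((d : ℝ) + 1)) := by
    calc ∫⁻ y in A, Fb N ω f a y ≤ ∫⁻ y in ⋃ l, S l, Fb N ω f a y := lintegral_mono_set hAS
      _ ≤ ∑' l, ∫⁻ y in S l, Fb N ω f a y := lintegral_iUnion_le _ _
      _ = ∑ l, ∫⁻ y in S l, Fb N ω f a y := tsum_fintype _
      _ ≤ _ := Finset.sum_le_sum fun l _ => piece hd hL0 (hS l) hN hσ hσ1 hω hsep hf a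
  have h3 : (∑ l, (G * (k0 * v l)) ^ (1 / ((d : ℝ) + 1))) ^ ((d : ℝ) + 1) ≤
      (K : ℝ≥0∞) ^ (d : ℝ) * (G * (k0 * (ENNReal.ofReal M * volume A))) := by
    have h4 := ENNReal.rpow_sum_le_const_mul_sum_rpow (Finset.univ : Finset (Fin K))
      (fun l => (G * (k0 * v l)) ^ (1 / ((d : ℝ) + 1))) (p := (d : ℝ) + 1) (by linarith)
    rw [add_sub_cancel_right, Finset.card_univ, Fintype.card_fin] at h4
    refine h4.trans (mul_le_mul_right ?_ _)
    have e : ∀ l, ((G * (k0 * v l)) ^ (1 / ((d : ℝ) + 1))) ^ ((d : ℝ) + 1) = G * (k0 * v l) := by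
      intro l
      rw [← ENNReal.rpow_mul, one_div_mul_cancel hn0.ne', ENNReal.rpow_one]
    simp_rw [e]
    rw [← Finset.mul_sum, ← Finset.mul_sum]
    exact mul_le_mul_right (mul_le_mul_right hv _) _
  have h5 : (((t : ℝ≥0∞) + 1) * volume A) ^ ((d : ℝ) + 1) ≤
      ((K : ℝ≥0∞) ^ (d : ℝ) * (G * (k0 * ENNReal.ofReal M))) * volume A := by
    refine (ENNReal.rpow_le_rpow (h1.trans h2) hn0.le).trans (h3.trans (le_of_eq ?_))
    ring
  rcases eq_or_ne (volume A) 0 with h0 | h0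
  · rw [h0, mul_zero]
    exact zero_le
  have hAfin : volume A ≠ ∞ := by
    have h6 : ∫⁻ y, Fb N ω f a y ≠ ∞ := by
      rw [Pool.Agent.H810R3.Tub.Fb_int hN hf a]
      exact ENNReal.ofReal_ne_top
    intro htop
    rw [htop, ENNReal.mul_top (by simp)] at h1
    exact h6 (top_le_iff.1 (h1.trans (setLIntegral_le_lintegral _ _)))
  have h7 : ((t : ℝ≥0∞) + 1) ^ ((d : ℝ) + 1) * volume A ^ (d : ℝ) ≤
      (K : ℝ≥0∞) ^ (d : ℝ) * (G * (k0 * ENNReal.ofReal M)) := by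
    rw [ENNReal.mul_rpow_of_nonneg _ _ hn0.le] at h5
    have e : volume A ^ ((d : ℝ) + 1) = volume A ^ (d : ℝ) * volume A := by
      rw [ENNReal.rpow_add _ _ h0 hAfin, ENNReal.rpow_one]
    rw [e, ← mul_assoc] at h5
    exact (ENNReal.mul_le_mul_iff_left h0 hAfin).1 h5
  have h8 := ENNReal.rpow_le_rpow h7 (z := 1 / (d:ℝ)) (by positivity)
  refine le_trans (le_of_eq ?_) h8
  rw [ENNReal.mul_rpow_of_nonneg _ _ (by positivity), ← ENNReal.rpow_mul, ← ENNReal.rpow_mul,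
    mul_one_div_cancel hd0.ne', ENNReal.rpow_one, mul_one_div]

end Pool.Agent.K4H45.BL
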