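import Pool.Agent.K4H45.BL.Lev

set_option autoImplicit false
set_option maxHeartbeats 400000

/-!
The moment.
-/

open MeasureTheory Set ENNReal Metric

namespace Pool.Agent.K4H45.BL

open Pool.Agent.H810R3.Tub (Vec Space nor box dir Fb wv wv_pos)

theorem pow_le_sum_real (m : ℕ) {e : ℝ} (he0 : 0 ≤ e) (he1 : e ≤ 1) :
    (m : ℝ) ^ (1 + e) ≤ 2 * ∑ t ∈ Finset.range m, ((t : ℝ) + 1) ^ e := by
  rcases Nat.eq_zero_or_pos m with h0 | h0
  · subst h0
    simp [Real.zero_rpow (by linarith : (1:ℝ) + e ≠ 0)]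
  have hm : (0:ℝ) < m := by exact_mod_cast h0
  have h1 : ∀ t ∈ Finset.range m, (m:ℝ) ^ e * (((t:ℝ) + 1) / m) ≤ ((t : ℝ) + 1) ^ e := by
    intro t ht
    have ht' : ((t:ℝ) + 1) ≤ m := by
      have := Finset.mem_range.1 ht
      exact_mod_cast this
    have h2 : ((t:ℝ) + 1) / m ≤ (((t:ℝ) + 1) / m) ^ e := by
      calc ((t:ℝ) + 1) / m = (((t:ℝ) + 1) / m) ^ (1:ℝ) := (Real.rpow_one _).symm
        _ ≤ (((t:ℝ) + 1) / m) ^ e := Real.rpow_le_rpow_of_exponent_ge (by positivity)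
            (by rw [div_le_one hm]; exact ht') he1
    calc (m:ℝ) ^ e * (((t:ℝ) + 1) / m) ≤ (m:ℝ) ^ e * (((t:ℝ) + 1) / m) ^ e := by gcongr
      _ = ((t : ℝ) + 1) ^ e := by
          rw [← Real.mul_rpow hm.le (by positivity), mul_div_cancel₀ _ hm.ne']
  have h2 : (m:ℝ) * (m + 1) / 2 = ∑ t ∈ Finset.range m, ((t:ℝ) + 1) := by
    have h3 := Finset.sum_range_id_mul_two (m + 1)
    have h4 : (∑ i ∈ Finset.range (m + 1), (i:ℝ)) * 2 = (m + 1) * m := by
      have := congrArg (Nat.cast : ℕ → ℝ) h3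
      push_cast at this
      simpa using this
    rw [Finset.sum_range_succ'] at h4
    push_cast at h4
    linarith
  have h3 := Finset.sum_le_sum h1
  rw [← Finset.mul_sum, ← Finset.sum_div, ← h2] at h3
  calc (m : ℝ) ^ (1 + e) = (m:ℝ) ^ e * m := by rw [add_comm, Real.rpow_add hm, Real.rpow_one]
    _ ≤ 2 * ((m:ℝ) ^ e * ((m:ℝ) * (m + 1) / 2 / m)) := by
        have e1 : 2 * ((m:ℝ) ^ e * ((m:ℝ) * (m + 1) / 2 / m)) = (m:ℝ) ^ e * (m + 1) := by field_simp
        rw [e1]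
        gcongr
        linarith
    _ ≤ _ := by
        gcongr

theorem pow_le_sum (m : ℕ) {e : ℝ} (he0 : 0 ≤ e) (he1 : e ≤ 1) :
    (m : ℝ≥0∞) ^ (1 + e) ≤ 2 * ∑ t ∈ Finset.range m, ((t : ℝ≥0∞) + 1) ^ e := by
  have h := ENNReal.ofReal_le_ofReal (pow_le_sum_real m he0 he1)
  rw [ENNReal.ofReal_mul (by norm_num), ENNReal.ofReal_sum_of_nonneg (fun t _ => by positivity),
    ← ENNReal.ofReal_rpow_of_nonneg (by positivity) (by linarith), ENNReal.ofReal_natCast] at h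
  refine h.trans (le_of_eq ?_)
  congr 1
  · norm_num
  · refine Finset.sum_congr rfl fun t _ => ?_
    rw [← ENNReal.ofReal_rpow_of_nonneg (by positivity) he0, ENNReal.ofReal_add (by positivity) (by norm_num),
      ENNReal.ofReal_natCast, ENNReal.ofReal_one]

variable {d : ℕ}

/-- From the level sets to the moment. -/
theorem moment_of_level {ι : Type} [Fintype ι] [Nonempty ι] {N : ℝ} {ω : ι → Vec d}
    {f : ι → Fin d → Space d} (a : ι → Space d) {e : ℝ} (he0 : 0 ≤ e) (he1 : e ≤ 1) {Z : ℝ≥0∞}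
    (hZ : ∀ t : ℕ, ((t : ℝ≥0∞) + 1) ^ (1 + e) * volume {y | (t : ℝ≥0∞) < Fb N ω f a y} ≤ Z) :
    ∫⁻ y, Fb N ω f a y ^ (1 + e) ≤ 2 * (Z * ENNReal.ofReal (1 + Real.log (Fintype.card ι))) := by
  classical
  set c : ℕ := Fintype.card ι with hc
  have hFm := Pool.Agent.H810R3.Tub.Fb_measurable N ω f a
  have hAm : ∀ t : ℕ, MeasurableSet {y | (t : ℝ≥0∞) < Fb N ω f a y} := fun t =>
    measurableSet_lt measurable_const hFm
  have hpt : ∀ y, Fb N ω f a y ^ (1 + e) ≤ 2 * ∑ t ∈ Finset.range c, ((t : ℝ≥0∞) + 1) ^ e *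
      {y | (t : ℝ≥0∞) < Fb N ω f a y}.indicator (fun _ => (1:ℝ≥0∞)) y := by
    intro y
    have hint : ∃ n : ℕ, Fb N ω f a y = n := by
      unfold Fb
      refine ⟨∑ i, if y ∈ box N (nor (ω i)) (f i) (a i) then 1 else 0, ?_⟩
      rw [Nat.cast_sum]
      refine Finset.sum_congr rfl fun i _ => ?_
      by_cases hyi : y ∈ box N (nor (ω i)) (f i) (a i)
      · rw [indicator_of_mem hyi, if_pos hyi, Nat.cast_one]
      · rw [indicator_of_notMem hyi, if_neg hyi, Nat.cast_zero]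
    obtain ⟨n, hn⟩ := hint
    have hnc : n ≤ c := by
      have := Pool.Agent.H810R3.Tub.Fb_le N ω f a y
      rw [hn] at this
      exact_mod_cast this
    rw [hn]
    refine (pow_le_sum n he0 he1).trans (mul_le_mul_right ?_ _)
    calc ∑ t ∈ Finset.range n, ((t : ℝ≥0∞) + 1) ^ e
        = ∑ t ∈ Finset.range n, ((t : ℝ≥0∞) + 1) ^ e *
          {y | (t : ℝ≥0∞) < Fb N ω f a y}.indicator (fun _ => (1:ℝ≥0∞)) y := by
          refine Finset.sum_congr rfl fun t ht => ?_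
          rw [indicator_of_mem, mul_one]
          rw [Set.mem_ofPred_eq, hn]
          exact_mod_cast Finset.mem_range.1 ht
      _ ≤ _ := Finset.sum_le_sum_of_subset (Finset.range_mono hnc)
  have hterm : ∀ t : ℕ, ((t : ℝ≥0∞) + 1) ^ e * volume {y | (t : ℝ≥0∞) < Fb N ω f a y} ≤
      ((t : ℝ≥0∞) + 1)⁻¹ * Z := by
    intro t
    have ht0 : ((t : ℝ≥0∞) + 1) ≠ 0 := by simp
    have htt : ((t : ℝ≥0∞) + 1) ≠ ∞ := by simp
    have h := hZ t
    rw [ENNReal.rpow_add _ _ ht0 htt, ENNReal.rpow_one, mul_assoc] at h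
    calc ((t : ℝ≥0∞) + 1) ^ e * volume {y | (t : ℝ≥0∞) < Fb N ω f a y}
        = ((t : ℝ≥0∞) + 1)⁻¹ * (((t : ℝ≥0∞) + 1) *
          (((t : ℝ≥0∞) + 1) ^ e * volume {y | (t : ℝ≥0∞) < Fb N ω f a y})) := by
          rw [← mul_assoc (((t : ℝ≥0∞) + 1)⁻¹), ENNReal.inv_mul_cancel ht0 htt, one_mul]
      _ ≤ _ := mul_le_mul_right h _
  have hharm : ∑ t ∈ Finset.range c, ((t : ℝ≥0∞) + 1)⁻¹ ≤ ENNReal.ofReal (1 + Real.log c) := by
    have h := harmonic_le_one_add_log c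
    have e1 : ∑ t ∈ Finset.range c, ((t : ℝ≥0∞) + 1)⁻¹ = ENNReal.ofReal ((harmonic c : ℚ) : ℝ) := by
      rw [harmonic]
      push_cast
      rw [ENNReal.ofReal_sum_of_nonneg (fun t _ => by positivity)]
      refine Finset.sum_congr rfl fun t _ => ?_
      rw [ENNReal.ofReal_inv_of_pos (by positivity), ENNReal.ofReal_add (by positivity) (by norm_num),
        ENNReal.ofReal_natCast, ENNReal.ofReal_one]
    rw [e1]
    exact ENNReal.ofReal_le_ofReal h
  calc ∫⁻ y, Fb N ω f a y ^ (1 + e)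
      ≤ ∫⁻ y, 2 * ∑ t ∈ Finset.range c, ((t : ℝ≥0∞) + 1) ^ e *
          {y | (t : ℝ≥0∞) < Fb N ω f a y}.indicator (fun _ => (1:ℝ≥0∞)) y := lintegral_mono hpt
    _ = 2 * ∑ t ∈ Finset.range c, ((t : ℝ≥0∞) + 1) ^ e * volume {y | (t : ℝ≥0∞) < Fb N ω f a y} := by
        have hm : ∀ t : ℕ, Measurable fun y => ((t : ℝ≥0∞) + 1) ^ e *
            {y | (t : ℝ≥0∞) < Fb N ω f a y}.indicator (fun _ => (1:ℝ≥0∞)) y := fun t =>
          measurable_const.mul (measurable_const.indicator (hAm t))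
        rw [lintegral_const_mul' _ _ (by norm_num), lintegral_finsetSum _ fun t _ => hm t]
        congr 1
        refine Finset.sum_congr rfl fun t _ => ?_
        rw [lintegral_const_mul _ (measurable_const.indicator (hAm t)), lintegral_indicator (hAm t),
          setLIntegral_const, one_mul]
    _ ≤ 2 * ∑ t ∈ Finset.range c, ((t : ℝ≥0∞) + 1)⁻¹ * Z :=
        mul_le_mul_right (Finset.sum_le_sum fun t _ => hterm t) _
    _ = 2 * (Z * ∑ t ∈ Finset.range c, ((t : ℝ≥0∞) + 1)⁻¹) := by rw [← Finset.sum_mul, mul_comm Z]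
    _ ≤ _ := mul_le_mul_right (mul_le_mul_right hharm _) _

/-- The number of the boxes. -/
theorem card_le {N σ : ℝ} (hN : 1 ≤ N) (hσ : 0 < σ) (hσ1 : σ ≤ 1) {ι : Type} [Fintype ι]
    {ω : ι → Vec d} (hω : ∀ i, ‖ω i‖ ≤ 1) (hsep : ∀ i j, i ≠ j → σ / N ≤ ‖ω i - ω j‖) :
    (Fintype.card ι : ℝ) * (vd d * (σ / N) ^ d) ≤ (volume (closedBall (0 : Space d) 7)).toReal := by
  classical
  have hN0 : 0 < N := by linarith
  have hc1 : σ / N ≤ 1 := by
    rw [div_le_one hN0]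
    linarith
  have hv := vd_pos d
  have h1 : (Fintype.card ι : ℝ≥0∞) * ENNReal.ofReal (vd d * (σ / N) ^ d) ≤
      volume (closedBall (0 : Space d) 7) := by
    calc (Fintype.card ι : ℝ≥0∞) * ENNReal.ofReal (vd d * (σ / N) ^ d)
        = ∑ _i : ι, ENNReal.ofReal (vd d * (σ / N) ^ d) := by
          rw [Finset.sum_const, Finset.card_univ, nsmul_eq_mul]
      _ ≤ ∑ i, volume (cone (ω i) (σ / N)) :=
          Finset.sum_le_sum fun i _ => cone_vol (ω i) (by positivity)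
      _ = volume (⋃ i, cone (ω i) (σ / N)) := by
          rw [measure_iUnion (fun i i' hii => cone_disj (hsep i i' hii)) (fun i => cone_meas _ _),
            tsum_fintype]
      _ ≤ _ := by
          refine measure_mono (iUnion_subset fun i ξ hξ => ?_)
          rw [mem_closedBall, dist_zero_right]
          exact cone_norm (hω i) hc1 hξ
  have h2 := ENNReal.toReal_mono measure_closedBall_lt_top.ne h1
  rw [ENNReal.toReal_mul, ENNReal.toReal_natCast, ENNReal.toReal_ofReal (by positivity)] at h2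
  exact h2

end Pool.Agent.K4H45.BL
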