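import Mathlib

set_option autoImplicit false

/-!
One dimensional estimates.
-/

open MeasureTheory Set ENNReal

namespace Pool.Agent.K4H45.BL

/-- The times for which an affine function is small. -/
theorem one_meas (c m : ℝ) {r : ℝ} (hr : 0 < r) :
    volume (Icc (-2 : ℝ) 2 ∩ {t | |c + t * m| ≤ r}) ≤ ENNReal.ofReal (8 * r / (|m| + r)) := by
  have hm0 := abs_nonneg m
  rcases le_or_gt |m| r with h | h
  · calc volume (Icc (-2 : ℝ) 2 ∩ {t | |c + t * m| ≤ r}) ≤ volume (Icc (-2 : ℝ) 2) :=
          measure_mono inter_subset_left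
      _ = ENNReal.ofReal (2 - (-2)) := Real.volume_Icc
      _ ≤ _ := by
          refine ENNReal.ofReal_le_ofReal ?_
          rw [le_div_iff₀ (by linarith)]
          linarith
  · have hm : m ≠ 0 := by
      intro h0
      rw [h0, abs_zero] at h
      linarith
    have hm' : 0 < |m| := abs_pos.2 hm
    calc volume (Icc (-2 : ℝ) 2 ∩ {t | |c + t * m| ≤ r})
        ≤ volume (Metric.closedBall (-c / m) (r / |m|)) := by
          refine measure_mono ?_
          rintro t ⟨-, ht⟩
          rw [Set.mem_ofPred_eq] at ht
          rw [Metric.mem_closedBall, Real.dist_eq]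
          have e : t - -c / m = (c + t * m) / m := by field_simp; ring
          rw [e, abs_div]
          gcongr
      _ = ENNReal.ofReal (2 * (r / |m|)) := Real.volume_closedBall _ _
      _ ≤ _ := by
          refine ENNReal.ofReal_le_ofReal ?_
          rw [← mul_div_assoc, div_le_div_iff₀ hm' (by linarith)]
          nlinarith

/-- The weight. -/
noncomputable def phi (N : ℝ) (m : ℝ) : ℝ≥0∞ := ENNReal.ofReal (1 / (|m| + 1 / N))

theorem phi_meas (N : ℝ) : Measurable (phi N) := by
  unfold phi
  fun_prop

/-- The logarithmic integral. -/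
theorem phi_int {N R : ℝ} (hN : 1 ≤ N) (hR : 0 < R) :
    ∫⁻ m in Icc (-R) R, phi N m ≤ ENNReal.ofReal (2 * (1 + Real.log (1 + R)) * (1 + Real.log N)) := by
  have hN0 : 0 < N := by linarith
  have hc : 0 < 1 / N := by positivity
  have hhalf : ∫⁻ m in Icc 0 R, phi N m = ENNReal.ofReal (Real.log (R + 1 / N) - Real.log (1 / N)) := by
    have hcont : ContinuousOn (fun m : ℝ => 1 / (|m| + 1 / N)) (Icc 0 R) := by
      refine ContinuousOn.div continuousOn_const (by fun_prop) ?_
      intro x _
      have := abs_nonneg x
      positivity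
    have hint : IntegrableOn (fun m : ℝ => 1 / (|m| + 1 / N)) (Icc 0 R) :=
      hcont.integrableOn_compact isCompact_Icc
    unfold phi
    rw [← ofReal_integral_eq_lintegral_ofReal hint]
    · congr 1
      rw [integral_Icc_eq_integral_Ioc, ← intervalIntegral.integral_of_le hR.le]
      have h1 : ∀ x ∈ uIcc 0 R, HasDerivAt (fun m : ℝ => Real.log (m + 1 / N)) (1 / (|x| + 1 / N)) x := by
        intro x hx
        rw [uIcc_of_le hR.le] at hx
        have h2 : x + 1 / N ≠ 0 := by
          have := hx.1
          positivity
        have h3 := ((hasDerivAt_id x).add_const (1 / N)).log h2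
        rw [abs_of_nonneg hx.1]
        exact h3
      rw [intervalIntegral.integral_eq_sub_of_hasDerivAt h1]
      · simp
      · rw [intervalIntegrable_iff_integrableOn_Ioc_of_le hR.le]
        exact hint.mono_set Ioc_subset_Icc_self
    · refine Filter.Eventually.of_forall fun x => ?_
      have := abs_nonneg x
      positivity
  have hneg : ∫⁻ m in Icc (-R) 0, phi N m = ∫⁻ m in Icc 0 R, phi N m := by
    have h := (Measure.measurePreserving_neg (volume : Measure ℝ)).setLIntegral_comp_preimage
      (s := Icc 0 R) measurableSet_Icc (phi_meas N)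
    rw [← h]
    have e : (Neg.neg : ℝ → ℝ) ⁻¹' Icc 0 R = Icc (-R) 0 := by
      ext x
      simp only [mem_preimage, mem_Icc]
      constructor
      · rintro ⟨h1, h2⟩
        exact ⟨by linarith, by linarith⟩
      · rintro ⟨h1, h2⟩
        exact ⟨by linarith, by linarith⟩
    rw [e]
    refine setLIntegral_congr_fun measurableSet_Icc fun x _ => ?_
    unfold phi
    simp
  calc ∫⁻ m in Icc (-R) R, phi N m ≤ ∫⁻ m in Icc (-R) 0 ∪ Icc 0 R, phi N m := by
        refine lintegral_mono_set ?_
        intro x hx
        rcases le_total x 0 with h | h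
        · exact Or.inl ⟨hx.1, h⟩
        · exact Or.inr ⟨h, hx.2⟩
    _ ≤ (∫⁻ m in Icc (-R) 0, phi N m) + ∫⁻ m in Icc 0 R, phi N m := lintegral_union_le _ _ _
    _ = ENNReal.ofReal (2 * (Real.log (R + 1 / N) - Real.log (1 / N))) := by
        rw [hneg, hhalf, ← two_mul, ENNReal.ofReal_mul (by norm_num)]
        simp
    _ ≤ _ := by
        refine ENNReal.ofReal_le_ofReal ?_
        have h1 : Real.log (1 / N) = - Real.log N := by rw [one_div, Real.log_inv]
        have h2 : Real.log (R + 1 / N) ≤ Real.log (1 + R) := by
          refine Real.log_le_log (by positivity) ?_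
          have : 1 / N ≤ 1 := by rw [div_le_one hN0]; exact hN
          linarith
        have h3 : 0 ≤ Real.log N := Real.log_nonneg hN
        have h4 : 0 ≤ Real.log (1 + R) := Real.log_nonneg (by linarith)
        rw [h1]
        nlinarith [mul_nonneg h3 h4]

end Pool.Agent.K4H45.BL
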