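import Pool.Agent.K4H45.BL.Sch
import Pool.Agent.K4H45.BL.One
import Pool.Agent.TH539.Kernel

set_option autoImplicit false
set_option maxHeartbeats 400000

/-!
The maximal estimate over all directions and lengths in dimensions one and two.
-/

open MeasureTheory Set ENNReal Metric

namespace Pool.Agent.K4H45.BL

/-- Euclidean space `ℝ^k`. -/
abbrev F (k : ℕ) : Type := EuclideanSpace ℝ (Fin k)

variable {k : ℕ}

/-- The time which the moving ball spends over the point `y`. -/
noncomputable def tm (r s : ℝ) (α z y : F k) : ℝ≥0∞ :=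
  (volume.restrict (Icc (-2 : ℝ) 2)) {t | ‖α + (t * s) • z - y‖ ≤ r}

theorem tm_meas (r s : ℝ) : Measurable fun q : (F k × F k) × F k => tm r s q.1.1 q.1.2 q.2 := by
  have hS : MeasurableSet {q : ((F k × F k) × F k) × ℝ |
      ‖q.1.1.1 + (q.2 * s) • q.1.1.2 - q.1.2‖ ≤ r} := by
    apply IsClosed.measurableSet
    exact isClosed_le (by fun_prop) continuous_const
  exact measurable_measure_prodMk_left hS

/-- The integral of `w` over the moving ball. -/
noncomputable def Lam (r s : ℝ) (w : F k → ℝ≥0∞) (α z : F k) : ℝ≥0∞ := ∫⁻ y, tm r s α z y * w y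

theorem Lam_meas (r s : ℝ) {w : F k → ℝ≥0∞} (hw : Measurable w) :
    Measurable fun q : F k × F k => Lam r s w q.1 q.2 := by
  have h : Measurable fun q : (F k × F k) × F k => tm r s q.1.1 q.1.2 q.2 * w q.2 :=
    (tm_meas r s).mul (hw.comp measurable_snd)
  exact h.lintegral_prod_right'

/-- A measurable choice of the best position. -/
theorem argmax {ι : Type} [Fintype ι] {Λ : F k → F k → ℝ≥0∞}
    (hΛ : Measurable fun q : F k × F k => Λ q.1 q.2) (a : ι → F k) :
    ∃ A : F k → F k, Measurable A ∧ ∀ z i, Λ (a i) z ≤ Λ (A z) z := by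
  classical
  have h : ∀ s : Finset ι, ∃ A : F k → F k, Measurable A ∧ ∀ z, ∀ i ∈ s, Λ (a i) z ≤ Λ (A z) z := by
    intro s
    induction s using Finset.induction_on with
    | empty => exact ⟨fun _ => 0, measurable_const, by simp⟩
    | insert j s hj ih =>
      obtain ⟨A, hA, hAs⟩ := ih
      have h1 : Measurable fun z => Λ (A z) z := hΛ.comp (hA.prodMk measurable_id)
      have h2 : Measurable fun z => Λ (a j) z := hΛ.comp (measurable_const.prodMk measurable_id)
      refine ⟨fun z => if Λ (A z) z < Λ (a j) z then a j else A z,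
        Measurable.ite (measurableSet_lt h1 h2) measurable_const hA, ?_⟩
      intro z i hi
      rw [Finset.mem_insert] at hi
      rcases hi with rfl | hi
      · by_cases h3 : Λ (A z) z < Λ (a i) z
        · simp only [h3, if_true, le_refl]
        · simp only [h3, if_false]
          exact not_lt.1 h3
      · by_cases h3 : Λ (A z) z < Λ (a j) z
        · simp only [h3, if_true]
          exact (hAs z i hi).trans h3.le
        · simp only [h3, if_false]
          exact hAs z i hi
  obtain ⟨A, hA, hAs⟩ := h Finset.univ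
  exact ⟨A, hA, fun z i => hAs z i (Finset.mem_univ i)⟩

/-! ### One variable -/

theorem tm_one {r s : ℝ} (hr : 0 < r) (hs : 0 < s) (α z y : F 1) :
    tm r s α z y ≤ ENNReal.ofReal (8 * r / (s * ‖z‖ + r)) := by
  have h := one_meas (α 0 - y 0) (s * z 0) hr
  have hz : ‖z‖ = |z 0| := by
    rw [EuclideanSpace.norm_eq]
    simp [Real.sqrt_sq_eq_abs]
  have e : |s * z 0| = s * ‖z‖ := by rw [abs_mul, abs_of_pos hs, hz]
  rw [e] at h
  refine le_trans ?_ h
  unfold tm
  have hS : MeasurableSet {t : ℝ | ‖α + (t * s) • z - y‖ ≤ r} := by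
    apply IsClosed.measurableSet
    exact isClosed_le (by fun_prop) continuous_const
  rw [Measure.restrict_apply hS, inter_comm]
  refine measure_mono (inter_subset_inter_right _ ?_)
  intro t ht
  rw [Set.mem_ofPred_eq] at ht ⊢
  have h1 := EuclideanSpace.norm_eq (α + (t * s) • z - y)
  rw [h1] at ht
  simp only [Finset.univ_unique, Fin.default_eq_zero, Finset.sum_singleton] at ht
  rw [Real.norm_eq_abs, Real.sqrt_sq (abs_nonneg _)] at ht
  have e2 : (α + (t * s) • z - y) 0 = α 0 - y 0 + t * (s * z 0) := by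
    simp
    ring
  rw [e2] at ht
  exact ht

/-- Integrals of products in orthonormal coordinates. -/
theorem prod_int (b : OrthonormalBasis (Fin k) ℝ (F k)) {ψ : ℝ → ℝ≥0∞} (hψ : Measurable ψ) :
    ∫⁻ z : F k, ∏ j, ψ (inner ℝ (b j) z) = (∫⁻ x, ψ x) ^ k := by
  have h1 := b.measurePreserving_repr
  have h2 := PiLp.volume_preserving_ofLp (Fin k)
  have hm : Measurable fun x : Fin k → ℝ => ∏ j, ψ (x j) :=
    Finset.measurable_prod _ fun j _ => hψ.comp (measurable_pi_apply j)
  have h3 := (h2.comp h1).lintegral_comp hm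
  rw [← Pool.Agent.TH539.lintegral_prod_pow k hψ, ← h3]
  refine lintegral_congr fun z => ?_
  refine Finset.prod_congr rfl fun j _ => ?_
  congr 1
  exact (b.repr_apply_apply z j).symm

/-! ### Two variables -/

theorem kappa {r s : ℝ} (hr : 0 < r) (hs : 0 < s) (α α' z z' : F 2)
    (b : OrthonormalBasis (Fin 2) ℝ (F 2)) (hb : z = ‖z‖ • b 0) :
    ∫⁻ y, tm r s α z y * tm r s α' z' y ≤ volume (closedBall (0 : F 2) r) *
      (ENNReal.ofReal (16 * r / (s * ‖z‖ + 2 * r)) *
        ENNReal.ofReal (16 * r / (s * |inner ℝ (b 1) z'| + 2 * r))) := by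
  set μ : Measure ℝ := volume.restrict (Icc (-2 : ℝ) 2) with hμ
  set S : Set (F 2 × (ℝ × ℝ)) := {q | ‖α + (q.2.1 * s) • z - q.1‖ ≤ r ∧
    ‖α' + (q.2.2 * s) • z' - q.1‖ ≤ r} with hS
  have hSm : MeasurableSet S := by
    have h1 : IsClosed {q : F 2 × (ℝ × ℝ) | ‖α + (q.2.1 * s) • z - q.1‖ ≤ r} :=
      isClosed_le (by fun_prop) continuous_const
    have h2 : IsClosed {q : F 2 × (ℝ × ℝ) | ‖α' + (q.2.2 * s) • z' - q.1‖ ≤ r} :=
      isClosed_le (by fun_prop) continuous_const
    exact (h1.inter h2).measurableSet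
  set c : ℝ × ℝ → F 2 := fun q => α + (q.1 * s) • z - (α' + (q.2 * s) • z') with hc
  set E : Set (ℝ × ℝ) := {q | |inner ℝ (b 0) (c q)| ≤ 2 * r ∧ |inner ℝ (b 1) (c q)| ≤ 2 * r} with hE
  have hcc : Continuous c := by
    rw [hc]
    fun_prop
  have hEm : MeasurableSet E := by
    have h1 : IsClosed {q : ℝ × ℝ | |inner ℝ (b 0) (c q)| ≤ 2 * r} :=
      isClosed_le (by fun_prop) continuous_const
    have h2 : IsClosed {q : ℝ × ℝ | |inner ℝ (b 1) (c q)| ≤ 2 * r} :=
      isClosed_le (by fun_prop) continuous_const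
    exact (h1.inter h2).measurableSet
  have hz : ‖z‖ = inner ℝ (b 0) z := by
    conv_rhs => rw [hb]
    rw [inner_smul_right, real_inner_self_eq_norm_sq, b.norm_eq_one]
    ring
  have hz1 : inner ℝ (b 1) z = 0 := by
    conv_lhs => rw [hb]
    rw [inner_smul_right, b.inner_eq_zero (by decide : (1 : Fin 2) ≠ 0), mul_zero]
  -- the measure of the set of pairs of times
  have hEle : (μ.prod μ) E ≤ ENNReal.ofReal (16 * r / (s * ‖z‖ + 2 * r)) *
      ENNReal.ofReal (16 * r / (s * |inner ℝ (b 1) z'| + 2 * r)) := by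
    rw [Measure.prod_apply_symm hEm]
    set T : Set ℝ := {t' | |inner ℝ (b 1) (α - α') + t' * (-(s * inner ℝ (b 1) z'))| ≤ 2 * r} with hT
    have hTm : MeasurableSet T := by
      apply IsClosed.measurableSet
      exact isClosed_le (by fun_prop) continuous_const
    have h1 : ∀ t' : ℝ, μ ((fun t => (t, t')) ⁻¹' E) ≤
        T.indicator (fun _ => ENNReal.ofReal (16 * r / (s * ‖z‖ + 2 * r))) t' := by
      intro t'
      have e1 : ∀ t : ℝ, inner ℝ (b 1) (c (t, t')) =
          inner ℝ (b 1) (α - α') + t' * (-(s * inner ℝ (b 1) z')) := by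
        intro t
        simp only [hc, inner_sub_right, inner_add_right, inner_smul_right, hz1]
        ring
      have e0 : ∀ t : ℝ, inner ℝ (b 0) (c (t, t')) =
          (inner ℝ (b 0) (α - α') - t' * s * inner ℝ (b 0) z') + t * (s * ‖z‖) := by
        intro t
        simp only [hc, inner_sub_right, inner_add_right, inner_smul_right, ← hz]
        ring
      by_cases ht : t' ∈ T
      · rw [indicator_of_mem ht]
        have h2 := one_meas (inner ℝ (b 0) (α - α') - t' * s * inner ℝ (b 0) z') (s * ‖z‖)
          (r := 2 * r) (by positivity)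
        have e : |s * ‖z‖| = s * ‖z‖ := abs_of_nonneg (by positivity)
        rw [e] at h2
        have e3 : 8 * (2 * r) = 16 * r := by ring
        rw [e3] at h2
        refine le_trans ?_ h2
        rw [hμ, Measure.restrict_apply (hEm.preimage (by fun_prop)), inter_comm]
        refine measure_mono (inter_subset_inter_right _ ?_)
        intro t ht2
        have h4 : |inner ℝ (b 0) (c (t, t'))| ≤ 2 * r := ht2.1
        rw [e0] at h4
        exact h4
      · rw [indicator_of_notMem ht]
        have h5 : (fun t => (t, t')) ⁻¹' E = ∅ := by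
          rw [eq_empty_iff_forall_notMem]
          intro t ht2
          have h4 : |inner ℝ (b 1) (c (t, t'))| ≤ 2 * r := ht2.2
          rw [e1] at h4
          exact ht h4
        rw [h5, measure_empty]
    calc ∫⁻ t', μ ((fun t => (t, t')) ⁻¹' E) ∂μ
        ≤ ∫⁻ t', T.indicator (fun _ => ENNReal.ofReal (16 * r / (s * ‖z‖ + 2 * r))) t' ∂μ :=
          lintegral_mono h1
      _ = ENNReal.ofReal (16 * r / (s * ‖z‖ + 2 * r)) * μ T := by
          rw [lintegral_indicator hTm, setLIntegral_const]
      _ ≤ _ := by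
          refine mul_le_mul_right ?_ _
          have h2 := one_meas (inner ℝ (b 1) (α - α')) (-(s * inner ℝ (b 1) z'))
            (r := 2 * r) (by positivity)
          have e : |-(s * inner ℝ (b 1) z')| = s * |inner ℝ (b 1) z'| := by
            rw [abs_neg, abs_mul, abs_of_pos hs]
          rw [e] at h2
          have e3 : 8 * (2 * r) = 16 * r := by ring
          rw [e3] at h2
          refine le_trans ?_ h2
          rw [hμ, Measure.restrict_apply hTm, inter_comm]
  -- swap
  calc ∫⁻ y, tm r s α z y * tm r s α' z' y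
      = ∫⁻ y, (μ.prod μ) (Prod.mk y ⁻¹' S) := by
        refine lintegral_congr fun y => ?_
        have e : Prod.mk y ⁻¹' S = {t | ‖α + (t * s) • z - y‖ ≤ r} ×ˢ {t | ‖α' + (t * s) • z' - y‖ ≤ r} := by
          ext q
          rfl
        rw [e, Measure.prod_prod]
        rfl
    _ = ((volume : Measure (F 2)).prod (μ.prod μ)) S := (Measure.prod_apply hSm).symm
    _ = ∫⁻ q, volume ((fun y => (y, q)) ⁻¹' S) ∂(μ.prod μ) := Measure.prod_apply_symm hSm
    _ ≤ ∫⁻ q, E.indicator (fun _ => volume (closedBall (0 : F 2) r)) q ∂(μ.prod μ) := by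
        refine lintegral_mono fun q => ?_
        by_cases hq : q ∈ E
        · rw [indicator_of_mem hq]
          calc volume ((fun y => (y, q)) ⁻¹' S) ≤ volume (closedBall (α + (q.1 * s) • z) r) := by
                refine measure_mono ?_
                intro y hy
                have h1 : ‖α + (q.1 * s) • z - y‖ ≤ r := hy.1
                rw [mem_closedBall, dist_comm, dist_eq_norm]
                exact h1
            _ = _ := Measure.addHaar_closedBall_center _ _ _
        · rw [indicator_of_notMem hq]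
          have h5 : (fun y => (y, q)) ⁻¹' S = ∅ := by
            rw [eq_empty_iff_forall_notMem]
            intro y hy
            have h1 : ‖α + (q.1 * s) • z - y‖ ≤ r := hy.1
            have h2 : ‖α' + (q.2 * s) • z' - y‖ ≤ r := hy.2
            have h3 : ‖c q‖ ≤ 2 * r := by
              have e : c q = (α + (q.1 * s) • z - y) - (α' + (q.2 * s) • z' - y) := by
                simp only [hc]
                abel
              rw [e]
              refine (norm_sub_le _ _).trans ?_
              linarith
            refine hq ⟨?_, ?_⟩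
            · refine (abs_real_inner_le_norm _ _).trans ?_
              rw [b.norm_eq_one, one_mul]
              exact h3
            · refine (abs_real_inner_le_norm _ _).trans ?_
              rw [b.norm_eq_one, one_mul]
              exact h3
          rw [h5, measure_empty]
    _ = volume (closedBall (0 : F 2) r) * (μ.prod μ) E := by
        rw [lintegral_indicator hEm, setLIntegral_const]
    _ ≤ _ := mul_le_mul_right hEle _

/-- An orthonormal basis of the plane adapted to a vector. -/
theorem exists_basis (z : F 2) : ∃ b : OrthonormalBasis (Fin 2) ℝ (F 2), z = ‖z‖ • b 0 := by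
  rcases eq_or_ne z 0 with rfl | hz
  · exact ⟨EuclideanSpace.basisFun (Fin 2) ℝ, by simp⟩
  have hn : 0 < ‖z‖ := norm_pos_iff.2 hz
  set v : Fin 2 → F 2 := fun _ => ‖z‖⁻¹ • z with hv
  have hor : Orthonormal ℝ (({0} : Set (Fin 2)).domRestrict v) := by
    constructor
    · intro i
      show ‖‖z‖⁻¹ • z‖ = 1
      rw [norm_smul, norm_inv, norm_norm, inv_mul_cancel₀ hn.ne']
    · intro i j hij
      exact absurd (Subsingleton.elim i j) hij
  obtain ⟨b, hb⟩ := hor.exists_orthonormalBasis_extension_of_card_eq (by simp)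
  refine ⟨b, ?_⟩
  rw [hb 0 rfl]
  show z = ‖z‖ • (‖z‖⁻¹ • z)
  rw [smul_smul, mul_inv_cancel₀ hn.ne', one_smul]

/-- The comparison of the weights. -/
theorem weight_le {N ρ : ℝ} (hN : 1 ≤ N) (hρ : 1 ≤ ρ) {x : ℝ} (hx : 0 ≤ x) :
    ENNReal.ofReal (16 * (ρ * N) / (N ^ 2 * x + 2 * (ρ * N))) ≤
      ENNReal.ofReal (16 * ρ / N) * ENNReal.ofReal (1 / (x + 1 / N)) := by
  have hN0 : 0 < N := by linarith
  rw [← ENNReal.ofReal_mul (by positivity)]
  refine ENNReal.ofReal_le_ofReal ?_
  have e : 16 * ρ / N * (1 / (x + 1 / N)) = 16 * (ρ * N) / (N ^ 2 * x + N) := by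
    field_simp
  rw [e]
  gcongr
  nlinarith


end Pool.Agent.K4H45.BL
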