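import Pool.Agent.K4H45.BL.Pla

set_option autoImplicit false
set_option maxHeartbeats 400000

/-!
The maximal estimate over all directions and lengths in the plane.
-/

open MeasureTheory Set ENNReal Metric

namespace Pool.Agent.K4H45.BL

attribute [local irreducible] tm

/-- The Schur condition. -/
theorem schur_cond {R ρ : ℝ} (hR : 0 < R) (hρ : 1 ≤ ρ) {N : ℝ} (hN : 1 ≤ N) (A : F 2 → F 2) (z : F 2) :
    ∫⁻ z' in closedBall 0 R, (∫⁻ y, tm (ρ * N) (N ^ 2) (A z) z y * tm (ρ * N) (N ^ 2) (A z') z' y) *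
      ENNReal.ofReal (1 / (‖z'‖ + 1 / N)) ≤
      ENNReal.ofReal (32 * ρ ^ 2 * (2 * (1 + Real.log (1 + R))) * (1 + Real.log N)) ^ 2 *
        ENNReal.ofReal (1 / (‖z‖ + 1 / N)) := by
  have hlR : 0 ≤ Real.log (1 + R) := Real.log_nonneg (by linarith)
  set D : ℝ := 2 * (1 + Real.log (1 + R)) with hD
  have hD0 : 0 < D := by positivity
  have hN0 : 0 < N := by linarith
  have hρ0 : 0 < ρ := by linarith
  have hlN : 0 ≤ Real.log N := Real.log_nonneg hN
  set r : ℝ := ρ * N with hr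
  have hr0 : 0 < r := by positivity
  have hs0 : 0 < N ^ 2 := by positivity
  obtain ⟨b, hb⟩ := exists_basis z
  set ψ : ℝ → ℝ≥0∞ := (Icc (-R) R).indicator (phi N) with hψ
  have hψm : Measurable ψ := (phi_meas N).indicator measurableSet_Icc
  set V : ℝ≥0∞ := volume (closedBall (0 : F 2) r) with hV
  have hVle : V ≤ ENNReal.ofReal (2 * (ρ * N)) ^ 2 := by
    rw [hV, EuclideanSpace.volume_closedBall_fin_two, ← ENNReal.ofReal_pow hr0.le,
      ← ENNReal.ofReal_mul (by positivity), ← ENNReal.ofReal_pow (by positivity)]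
    refine ENNReal.ofReal_le_ofReal ?_
    have hpi := Real.pi_le_four
    rw [hr]
    nlinarith [sq_nonneg (ρ * N)]
  set Q : ℝ≥0∞ := ENNReal.ofReal (16 * ρ / N) with hQ
  have hpt : ∀ z' ∈ closedBall (0 : F 2) R,
      (∫⁻ y, tm r (N ^ 2) (A z) z y * tm r (N ^ 2) (A z') z' y) * ENNReal.ofReal (1 / (‖z'‖ + 1 / N)) ≤
      (V * (Q * ENNReal.ofReal (1 / (‖z‖ + 1 / N)) * Q)) * ∏ j, ψ (inner ℝ (b j) z') := by
    intro z' hz'
    rw [mem_closedBall, dist_zero_right] at hz'
    have hin : ∀ j, |inner ℝ (b j) z'| ≤ ‖z'‖ := by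
      intro j
      refine (abs_real_inner_le_norm _ _).trans ?_
      rw [b.norm_eq_one, one_mul]
    have hψv : ∀ j, ψ (inner ℝ (b j) z') = phi N (inner ℝ (b j) z') := by
      intro j
      rw [hψ, indicator_of_mem]
      rw [mem_Icc, ← abs_le]
      exact (hin j).trans hz'
    have h1 := kappa hr0 hs0 (A z) (A z') z z' b hb
    have h2 := weight_le hN hρ (norm_nonneg z)
    have h3 := weight_le hN hρ (abs_nonneg (inner ℝ (b 1) z'))
    rw [← hr] at h2 h3
    rw [Fin.prod_univ_two, hψv, hψv]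
    calc (∫⁻ y, tm r (N ^ 2) (A z) z y * tm r (N ^ 2) (A z') z' y) * ENNReal.ofReal (1 / (‖z'‖ + 1 / N))
        ≤ (V * ((Q * ENNReal.ofReal (1 / (‖z‖ + 1 / N))) * (Q * phi N (inner ℝ (b 1) z')))) *
          phi N (inner ℝ (b 0) z') := by
          refine mul_le_mul' (h1.trans (mul_le_mul_right (mul_le_mul' h2 h3) _)) ?_
          unfold phi
          refine ENNReal.ofReal_le_ofReal ?_
          have := abs_nonneg (inner ℝ (b 0) z')
          exact one_div_le_one_div_of_le (by positivity) (by linarith [hin 0])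
      _ = _ := by ring
  have hprod : Measurable fun z' : F 2 => ∏ j, ψ (inner ℝ (b j) z') := by
    refine Finset.measurable_prod _ fun j _ => hψm.comp ?_
    fun_prop
  calc ∫⁻ z' in closedBall 0 R, (∫⁻ y, tm r (N ^ 2) (A z) z y * tm r (N ^ 2) (A z') z' y) *
        ENNReal.ofReal (1 / (‖z'‖ + 1 / N))
      ≤ ∫⁻ z' in closedBall 0 R, (V * (Q * ENNReal.ofReal (1 / (‖z‖ + 1 / N)) * Q)) *
          ∏ j, ψ (inner ℝ (b j) z') := by
        exact setLIntegral_mono' isClosed_closedBall.measurableSet hpt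
    _ ≤ ∫⁻ z', (V * (Q * ENNReal.ofReal (1 / (‖z‖ + 1 / N)) * Q)) * ∏ j, ψ (inner ℝ (b j) z') :=
        setLIntegral_le_lintegral _ _
    _ = (V * (Q * ENNReal.ofReal (1 / (‖z‖ + 1 / N)) * Q)) * (∫⁻ x, ψ x) ^ 2 := by
        rw [lintegral_const_mul _ hprod, prod_int b hψm]
    _ ≤ (ENNReal.ofReal (2 * (ρ * N)) ^ 2 * (Q * ENNReal.ofReal (1 / (‖z‖ + 1 / N)) * Q)) *
          ENNReal.ofReal (D * (1 + Real.log N)) ^ 2 := by
        have h4 : ∫⁻ x, ψ x ≤ ENNReal.ofReal (D * (1 + Real.log N)) := by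
          rw [hψ, lintegral_indicator measurableSet_Icc]
          exact phi_int hN hR
        gcongr
    _ = (ENNReal.ofReal (2 * (ρ * N)) * Q * ENNReal.ofReal (D * (1 + Real.log N))) ^ 2 *
          ENNReal.ofReal (1 / (‖z‖ + 1 / N)) := by ring
    _ = _ := by
        rw [hQ, ← ENNReal.ofReal_mul (by positivity), ← ENNReal.ofReal_mul (by positivity)]
        congr 3
        field_simp
        ring

/-- The constant. -/
noncomputable def cst (R ρ : ℝ) : ℝ := 32 * ρ ^ 2 * (2 * (1 + Real.log (1 + R)))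

theorem cst_pos {R ρ : ℝ} (hR : 0 < R) (hρ : 1 ≤ ρ) : 0 < cst R ρ := by
  have hlR : 0 ≤ Real.log (1 + R) := Real.log_nonneg (by linarith)
  have hρ0 : 0 < ρ := by linarith
  unfold cst
  positivity

theorem tm_comp {k : ℕ} (r s : ℝ) {A : F k → F k} (hA : Measurable A) :
    Measurable (Function.uncurry fun z y => tm r s (A z) z y) := by
  have h := tm_meas (k := k) r s
  have h2 : Measurable fun q : F k × F k => ((A q.1, q.1), q.2) :=
    ((hA.comp measurable_fst).prodMk measurable_fst).prodMk measurable_snd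
  generalize tm (k := k) r s = T at h ⊢
  exact h.comp h2

/-- The maximal estimate in the plane, for a measurable choice of the positions. -/
theorem planar {R ρ : ℝ} (hR : 0 < R) (hρ : 1 ≤ ρ) {N : ℝ} (hN : 1 ≤ N)
    {A : F 2 → F 2} (hA : Measurable A) {w : F 2 → ℝ≥0∞} (hw : Measurable w) :
    ∫⁻ z in closedBall 0 R, (Lam (ρ * N) (N ^ 2) w (A z) z) ^ 2 ≤
        ENNReal.ofReal (cst R ρ * (1 + Real.log N)) ^ 2 * ∫⁻ y, w y ^ 2 := by
  have hN0 : 0 < N := by linarith
  have hfin : IsFiniteMeasure ((volume : Measure (F 2)).restrict (closedBall 0 R)) :=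
    ⟨by rw [Measure.restrict_apply_univ]; exact measure_closedBall_lt_top⟩
  have hΘ := tm_comp (ρ * N) (N ^ 2) hA
  have hp : Measurable fun z : F 2 => ENNReal.ofReal (1 / (‖z‖ + 1 / N)) := by fun_prop
  have hp0 : ∀ z : F 2, ENNReal.ofReal (1 / (‖z‖ + 1 / N)) ≠ 0 := by
    intro z
    rw [ne_eq, ENNReal.ofReal_eq_zero, not_le]
    have := norm_nonneg z
    positivity
  have key := tt ((volume : Measure (F 2)).restrict (closedBall 0 R)) volume _ hΘ _ hp hp0
    (fun z => ENNReal.ofReal_ne_top) _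
    (Filter.Eventually.of_forall fun z => schur_cond hR hρ hN A z) w hw
  unfold Lam cst
  exact key

/-- The estimate on the line. -/
theorem linear {R ρ : ℝ} (hR : 0 < R) (hρ : 1 ≤ ρ) {N : ℝ} (hN : 1 ≤ N)
    {A : F 1 → F 1} {w : F 1 → ℝ≥0∞} (hw : Measurable w) :
    ∫⁻ z in closedBall 0 R, Lam (ρ * N) (N ^ 2) w (A z) z ≤
        ENNReal.ofReal (cst R ρ * (1 + Real.log N) / N) * ∫⁻ y, w y := by
  have hN0 : 0 < N := by linarith
  have hρ0 : 0 < ρ := by linarith
  have hlN : 0 ≤ Real.log N := Real.log_nonneg hN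
  have hlR : 0 ≤ Real.log (1 + R) := Real.log_nonneg (by linarith)
  set b : OrthonormalBasis (Fin 1) ℝ (F 1) := EuclideanSpace.basisFun (Fin 1) ℝ with hb
  set ψ : ℝ → ℝ≥0∞ := (Icc (-R) R).indicator (phi N) with hψ
  have hψm : Measurable ψ := (phi_meas N).indicator measurableSet_Icc
  have hprod : Measurable fun z' : F 1 => ∏ j, ψ (inner ℝ (b j) z') := by
    refine Finset.measurable_prod _ fun j _ => hψm.comp ?_
    fun_prop
  have hpt : ∀ z ∈ closedBall (0 : F 1) R, Lam (ρ * N) (N ^ 2) w (A z) z ≤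
      (ENNReal.ofReal (8 * ρ / N) * ∫⁻ y, w y) * ∏ j, ψ (inner ℝ (b j) z) := by
    intro z hz
    rw [mem_closedBall, dist_zero_right] at hz
    have hn : ‖z‖ = |inner ℝ (b 0) z| := by
      rw [hb, EuclideanSpace.basisFun_apply, EuclideanSpace.inner_single_left]
      rw [EuclideanSpace.norm_eq]
      simp [Real.sqrt_sq_eq_abs]
    have hψv : ψ (inner ℝ (b 0) z) = phi N (inner ℝ (b 0) z) := by
      rw [hψ, indicator_of_mem]
      rw [mem_Icc, ← abs_le, ← hn]
      exact hz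
    have h1 : ∀ y, tm (ρ * N) (N ^ 2) (A z) z y ≤ ENNReal.ofReal (8 * ρ / N) * phi N (inner ℝ (b 0) z) := by
      intro y
      refine (tm_one (by positivity) (by positivity) (A z) z y).trans ?_
      unfold phi
      rw [← hn, ← ENNReal.ofReal_mul (by positivity)]
      refine ENNReal.ofReal_le_ofReal ?_
      have e : 8 * ρ / N * (1 / (‖z‖ + 1 / N)) = 8 * (ρ * N) / (N ^ 2 * ‖z‖ + N) := by
        have := norm_nonneg z
        field_simp
      rw [e]
      gcongr
      nlinarith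
    rw [Fin.prod_univ_one, hψv]
    unfold Lam
    calc ∫⁻ y, tm (ρ * N) (N ^ 2) (A z) z y * w y
        ≤ ∫⁻ y, (ENNReal.ofReal (8 * ρ / N) * phi N (inner ℝ (b 0) z)) * w y :=
          lintegral_mono fun y => mul_le_mul_left (h1 y) _
      _ = _ := by
          rw [lintegral_const_mul _ hw]
          ring
  calc ∫⁻ z in closedBall 0 R, Lam (ρ * N) (N ^ 2) w (A z) z
      ≤ ∫⁻ z in closedBall 0 R, (ENNReal.ofReal (8 * ρ / N) * ∫⁻ y, w y) * ∏ j, ψ (inner ℝ (b j) z) :=
        setLIntegral_mono' isClosed_closedBall.measurableSet hpt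
    _ ≤ ∫⁻ z, (ENNReal.ofReal (8 * ρ / N) * ∫⁻ y, w y) * ∏ j, ψ (inner ℝ (b j) z) :=
        setLIntegral_le_lintegral _ _
    _ = (ENNReal.ofReal (8 * ρ / N) * ∫⁻ y, w y) * (∫⁻ x, ψ x) := by
        rw [lintegral_const_mul _ hprod, prod_int b hψm, pow_one]
    _ ≤ (ENNReal.ofReal (8 * ρ / N) * ∫⁻ y, w y) *
          ENNReal.ofReal (2 * (1 + Real.log (1 + R)) * (1 + Real.log N)) := by
        refine mul_le_mul_right ?_ _
        rw [hψ, lintegral_indicator measurableSet_Icc]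
        exact phi_int hN hR
    _ = ENNReal.ofReal (8 * ρ / N * (2 * (1 + Real.log (1 + R)) * (1 + Real.log N))) * ∫⁻ y, w y := by
        rw [ENNReal.ofReal_mul (p := 8 * ρ / N) (by positivity)]
        rw [mul_right_comm]
    _ ≤ _ := by
        refine mul_le_mul_left (ENNReal.ofReal_le_ofReal ?_) _
        unfold cst
        have h1 : 8 * ρ ≤ 32 * ρ ^ 2 := by nlinarith
        calc 8 * ρ / N * (2 * (1 + Real.log (1 + R)) * (1 + Real.log N))
            ≤ 32 * ρ ^ 2 / N * (2 * (1 + Real.log (1 + R)) * (1 + Real.log N)) := by gcongr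
          _ = _ := by ring

/-- **The maximal estimate in dimensions one and two**, for all directions and lengths. -/
theorem max_bound {k : ℕ} (hk : k = 1 ∨ k = 2) {R ρ : ℝ} (hR : 0 < R) (hρ : 1 ≤ ρ) {N : ℝ}
    (hN : 1 ≤ N) {ι : Type} [Fintype ι] (a : ι → F k) {w : F k → ℝ≥0∞} (hw : Measurable w) :
    ∫⁻ z in closedBall 0 R, (⨆ i, Lam (ρ * N) (N ^ 2) w (a i) z) ^ k ≤
        ENNReal.ofReal (cst R ρ * (1 + Real.log N) * N ^ k / N ^ 2) ^ k * ∫⁻ y, w y ^ k := by
  have hN0 : 0 < N := by linarith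
  obtain ⟨A, hA, hAa⟩ := argmax (Lam_meas (ρ * N) (N ^ 2) hw) a
  have h1 : ∫⁻ z in closedBall 0 R, (⨆ i, Lam (ρ * N) (N ^ 2) w (a i) z) ^ k ≤
      ∫⁻ z in closedBall 0 R, (Lam (ρ * N) (N ^ 2) w (A z) z) ^ k := by
    refine lintegral_mono fun z => ?_
    exact pow_le_pow_left' (iSup_le fun i => hAa z i) k
  refine h1.trans ?_
  rcases hk with rfl | rfl
  · simp only [pow_one]
    refine (linear hR hρ hN hw).trans (le_of_eq ?_)
    congr 2
    field_simp
  · refine (planar hR hρ hN hA hw).trans (le_of_eq ?_)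
    congr 3
    field_simp

end Pool.Agent.K4H45.BL
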