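import Pool.Agent.K4H45.BL.Gec
import Pool.Agent.Helper28.Polar

set_option autoImplicit false
set_option maxHeartbeats 400000

/-!
Radial functions.
-/

open MeasureTheory Set ENNReal Metric

namespace Pool.Agent.K4H45.BL

/-- The area of the unit sphere. -/
noncomputable def sph (n : ℕ) : ℝ≥0∞ := (volume : Measure (F (n + 1))).toSphere univ

theorem sph_ne_top (n : ℕ) : sph n ≠ ∞ := measure_ne_top _ _

theorem sph_ne_zero (n : ℕ) : sph n ≠ 0 := by
  unfold sph
  rw [Measure.toSphere_apply_univ, finrank_euclideanSpace_fin]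
  exact mul_ne_zero (by simp) (measure_ball_pos _ _ one_pos).ne'

/-- Integration of radial functions. -/
theorem rad_int {n : ℕ} {H : ℝ → ℝ≥0∞} (hH : Measurable H) :
    ∫⁻ x : F (n + 1), H ‖x‖ = sph n * ∫⁻ s in Ioi (0:ℝ), ENNReal.ofReal (s ^ n) * H s := by
  have hg : Measurable fun x : F (n + 1) => H ‖x‖ := hH.comp measurable_norm
  have h1 := Pool.Agent.Helper28.polar_lintegral (E := F (n + 1)) (n := n)
    (by rw [finrank_euclideanSpace_fin]) (fun x => H ‖x‖) hg
  rw [restrict_compl_singleton] at h1
  rw [h1]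
  have h2 : ∀ z : sphere (0 : F (n + 1)) 1, ∫⁻ t : Ioi (0 : ℝ), H ‖(t : ℝ) • (z : F (n + 1))‖
      ∂(Measure.volumeIoiPow n) = ∫⁻ s in Ioi (0:ℝ), ENNReal.ofReal (s ^ n) * H s := by
    intro z
    have e1 : ∀ t : Ioi (0 : ℝ), H ‖(t : ℝ) • (z : F (n + 1))‖ = H t := by
      intro t
      have hz : ‖(z : F (n + 1))‖ = 1 := by simp
      rw [norm_smul, hz, mul_one, Real.norm_of_nonneg (le_of_lt t.2)]
    simp_rw [e1]
    rw [Measure.volumeIoiPow, lintegral_withDensity_eq_lintegral_mul]
    · rw [← lintegral_subtype_comap measurableSet_Ioi]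
      rfl
    · fun_prop
    · exact hH.comp measurable_subtype_coe
  simp_rw [h2]
  rw [lintegral_const, mul_comm]
  rfl

/-- The average of a function at the scale `r`. -/
noncomputable def Wav {k : ℕ} (r : ℝ) (w : F k → ℝ≥0∞) (y : F k) : ℝ≥0∞ := ∫⁻ x in closedBall y r, w x

variable {k : ℕ}

theorem Wav_meas (r : ℝ) {w : F k → ℝ≥0∞} (hw : Measurable w) : Measurable (Wav r w) := by
  have hS : MeasurableSet {q : F k × F k | ‖q.2 - q.1‖ ≤ r} := by
    apply IsClosed.measurableSet
    exact isClosed_le (by fun_prop) continuous_const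
  have h1 : Measurable fun q : F k × F k => {q : F k × F k | ‖q.2 - q.1‖ ≤ r}.indicator
      (fun q => w q.2) q := (hw.comp measurable_snd).indicator hS
  have h2 := h1.lintegral_prod_right' (ν := (volume : Measure (F k)))
  have e : Wav r w = fun y => ∫⁻ x, {q : F k × F k | ‖q.2 - q.1‖ ≤ r}.indicator
      (fun q => w q.2) (y, x) := by
    funext y
    unfold Wav
    rw [← lintegral_indicator isClosed_closedBall.measurableSet]
    refine lintegral_congr fun x => ?_
    by_cases hx : x ∈ closedBall y r
    · have h3 : (y, x) ∈ {q : F k × F k | ‖q.2 - q.1‖ ≤ r} := by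
        rw [mem_closedBall, dist_eq_norm] at hx
        exact hx
      rw [indicator_of_mem hx, indicator_of_mem h3]
    · have h3 : (y, x) ∉ {q : F k × F k | ‖q.2 - q.1‖ ≤ r} := by
        intro h
        apply hx
        rw [mem_closedBall, dist_eq_norm]
        exact h
      rw [indicator_of_notMem hx, indicator_of_notMem h3]
  rw [e]
  exact h2

/-- The volume of the ball. -/
noncomputable def Vb (k : ℕ) (r : ℝ) : ℝ≥0∞ := volume (closedBall (0 : F k) r)

theorem Vb_ne_top (r : ℝ) : Vb k r ≠ ∞ := measure_closedBall_lt_top.ne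

/-- Hoelder on the ball. -/
theorem Wav_pow (hk : 1 ≤ k) (r : ℝ) {w : F k → ℝ≥0∞} (hw : Measurable w) (y : F k) :
    Wav r w y ^ k ≤ Vb k r ^ (k - 1) * ∫⁻ x in closedBall y r, w x ^ k := by
  rcases Nat.lt_or_ge 1 k with h1 | h1
  · have hk1 : (1:ℝ) < k := by exact_mod_cast h1
    have hk0 : (0:ℝ) < k := by linarith
    have hpq := Real.HolderConjugate.conjExponent hk1
    have h2 := ENNReal.lintegral_mul_le_Lp_mul_Lq (volume.restrict (closedBall y r)) hpq
      hw.aemeasurable (measurable_const (a := (1:ℝ≥0∞))).aemeasurable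
    simp only [Pi.mul_apply, mul_one, ENNReal.one_rpow, lintegral_const, one_mul,
      Measure.restrict_apply_univ] at h2
    have h3 := pow_le_pow_left' h2 k
    refine h3.trans (le_of_eq ?_)
    have e1 : volume (closedBall y r) = Vb k r := Measure.addHaar_closedBall_center _ _ _
    rw [e1, mul_pow, mul_comm]
    have e2 : ((∫⁻ a in closedBall y r, w a ^ (k:ℝ)) ^ (1 / (k:ℝ))) ^ k =
        ∫⁻ x in closedBall y r, w x ^ k := by
      rw [← ENNReal.rpow_natCast, ← ENNReal.rpow_mul, one_div_mul_cancel hk0.ne', ENNReal.rpow_one]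
      simp_rw [ENNReal.rpow_natCast]
    have e3 : (Vb k r ^ (1 / Real.conjExponent (k:ℝ))) ^ k = Vb k r ^ (k - 1) := by
      rw [← ENNReal.rpow_natCast, ← ENNReal.rpow_mul, ← ENNReal.rpow_natCast]
      congr 1
      unfold Real.conjExponent
      rw [Nat.cast_sub hk]
      have : (k:ℝ) - 1 ≠ 0 := by linarith
      field_simp
      simp
    rw [e2, e3]
  · have h2 : k = 1 := le_antisymm h1 hk
    subst h2
    simp [Wav]

theorem Wav_int (hk : 1 ≤ k) {r : ℝ} (hr : 0 ≤ r) {w : F k → ℝ≥0∞} (hw : Measurable w) :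
    ∫⁻ y, Wav r w y ^ k ≤ Vb k r ^ k * ∫⁻ x, w x ^ k := by
  have hm : Measurable fun x => w x ^ k := hw.pow_const k
  have h1 : ∫⁻ y : F k, ∫⁻ x in closedBall y r, w x ^ k = Vb k r * ∫⁻ x, w x ^ k := by
    have hS : MeasurableSet {q : F k × F k | ‖q.2 - q.1‖ ≤ r} := by
      apply IsClosed.measurableSet
      exact isClosed_le (by fun_prop) continuous_const
    have hM : Measurable fun q : F k × F k => {q : F k × F k | ‖q.2 - q.1‖ ≤ r}.indicator
        (fun q => w q.2 ^ k) q := (hm.comp measurable_snd).indicator hS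
    calc ∫⁻ y : F k, ∫⁻ x in closedBall y r, w x ^ k
        = ∫⁻ y : F k, ∫⁻ x : F k, {q : F k × F k | ‖q.2 - q.1‖ ≤ r}.indicator
          (fun q => w q.2 ^ k) (y, x) := by
          refine lintegral_congr fun y => ?_
          rw [← lintegral_indicator isClosed_closedBall.measurableSet]
          refine lintegral_congr fun x => ?_
          by_cases hx : x ∈ closedBall y r
          · have h3 : (y, x) ∈ {q : F k × F k | ‖q.2 - q.1‖ ≤ r} := by
              rw [mem_closedBall, dist_eq_norm] at hx
              exact hx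
            rw [indicator_of_mem hx, indicator_of_mem h3]
          · have h3 : (y, x) ∉ {q : F k × F k | ‖q.2 - q.1‖ ≤ r} := by
              intro h
              apply hx
              rw [mem_closedBall, dist_eq_norm]
              exact h
            rw [indicator_of_notMem hx, indicator_of_notMem h3]
      _ = ∫⁻ x : F k, ∫⁻ y : F k, {q : F k × F k | ‖q.2 - q.1‖ ≤ r}.indicator
          (fun q => w q.2 ^ k) (y, x) := lintegral_lintegral_swap hM.aemeasurable
      _ = ∫⁻ x : F k, Vb k r * w x ^ k := by
          refine lintegral_congr fun x => ?_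
          have e : ∀ y, {q : F k × F k | ‖q.2 - q.1‖ ≤ r}.indicator (fun q => w q.2 ^ k) (y, x) =
              (closedBall x r).indicator (fun _ => w x ^ k) y := by
            intro y
            by_cases hy : y ∈ closedBall x r
            · have h3 : (y, x) ∈ {q : F k × F k | ‖q.2 - q.1‖ ≤ r} := by
                rw [mem_closedBall, dist_comm, dist_eq_norm] at hy
                exact hy
              rw [indicator_of_mem hy, indicator_of_mem h3]
            · have h3 : (y, x) ∉ {q : F k × F k | ‖q.2 - q.1‖ ≤ r} := by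
                intro h
                apply hy
                rw [mem_closedBall, dist_comm, dist_eq_norm]
                exact h
              rw [indicator_of_notMem hy, indicator_of_notMem h3]
          simp_rw [e]
          rw [lintegral_indicator isClosed_closedBall.measurableSet, setLIntegral_const, mul_comm]
          congr 1
          exact Measure.addHaar_closedBall_center _ _ _
      _ = _ := lintegral_const_mul _ hm
  calc ∫⁻ y, Wav r w y ^ k ≤ ∫⁻ y : F k, Vb k r ^ (k - 1) * ∫⁻ x in closedBall y r, w x ^ k :=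
        lintegral_mono fun y => Wav_pow hk r hw y
    _ = Vb k r ^ (k - 1) * ∫⁻ y : F k, ∫⁻ x in closedBall y r, w x ^ k :=
        lintegral_const_mul' _ _ (ENNReal.pow_ne_top (Vb_ne_top r))
    _ = _ := by
        rw [h1, ← mul_assoc, ← pow_succ, Nat.sub_add_cancel hk]

/-- The averages of a radial function are radial. -/
theorem Wav_radial (r : ℝ) {v : ℝ → ℝ≥0∞} {y y' : F k} (h : ‖y‖ = ‖y'‖) :
    Wav r (fun x => v ‖x‖) y = Wav r (fun x => v ‖x‖) y' := by
  set U : F k ≃ₗᵢ[ℝ] F k := (ℝ ∙ (y - y'))ᗮ.reflection with hU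
  have hUy : U y = y' := Submodule.reflection_sub h
  have hmp := U.measurePreserving
  have h1 := hmp.setLIntegral_comp_emb U.toHomeomorph.measurableEmbedding (fun x => v ‖x‖)
    (closedBall y r)
  unfold Wav
  have h2 : U '' closedBall y r = closedBall y' r := by
    rw [← hUy]
    exact U.image_closedBall y r
  have e : (⇑U.toHomeomorph) = ⇑U := rfl
  rw [← h2]
  refine Eq.trans ?_ h1
  refine lintegral_congr fun x => ?_
  simp only [LinearIsometryEquiv.norm_map]

end Pool.Agent.K4H45.BL
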