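import Pool.Agent.K4H45.BL.Rad

set_option autoImplicit false
set_option maxHeartbeats 400000

/-!
Integrals of radial functions over lines.
-/

open MeasureTheory Set ENNReal Metric

namespace Pool.Agent.K4H45.BL

theorem log_int {m0 c : ℝ} (hm0 : 0 < m0) :
    ∫⁻ τ in Icc c (c + 4) ∩ Ioi m0, ENNReal.ofReal (1 / τ) ≤ ENNReal.ofReal (Real.log (1 + 4 / m0)) := by
  set m : ℝ := max m0 c with hm
  have hmm : m0 ≤ m := le_max_left _ _
  have hmc : c ≤ m := le_max_right _ _
  have hm1 : 0 < m := by linarith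
  rcases le_or_gt m (c + 4) with h | h
  · have hint : IntegrableOn (fun τ : ℝ => 1 / τ) (Icc m (c + 4)) := by
      refine ContinuousOn.integrableOn_compact isCompact_Icc ?_
      refine ContinuousOn.div continuousOn_const continuousOn_id ?_
      intro x hx
      have := hx.1
      show x ≠ 0
      linarith
    calc ∫⁻ τ in Icc c (c + 4) ∩ Ioi m0, ENNReal.ofReal (1 / τ)
        ≤ ∫⁻ τ in Icc m (c + 4), ENNReal.ofReal (1 / τ) := by
          refine lintegral_mono_set ?_
          rintro τ ⟨h1, h2⟩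
          exact ⟨max_le (le_of_lt h2) h1.1, h1.2⟩
      _ = ENNReal.ofReal (Real.log (c + 4) - Real.log m) := by
          rw [← ofReal_integral_eq_lintegral_ofReal hint]
          · congr 1
            rw [integral_Icc_eq_integral_Ioc, ← intervalIntegral.integral_of_le h,
              integral_one_div_of_pos hm1 (by linarith), Real.log_div (by linarith) hm1.ne']
          · filter_upwards [ae_restrict_mem measurableSet_Icc] with x hx
            have := hx.1
            have : 0 < x := by linarith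
            positivity
      _ ≤ _ := by
          refine ENNReal.ofReal_le_ofReal ?_
          rw [← Real.log_div (by linarith) hm1.ne']
          refine Real.log_le_log (div_pos (by linarith) hm1) ?_
          rw [div_le_iff₀ hm1, add_mul, one_mul, div_mul_eq_mul_div]
          have h2 : 4 ≤ 4 * m / m0 := by
            rw [le_div_iff₀ hm0]
            linarith
          linarith
  · have e : Icc c (c + 4) ∩ Ioi m0 = ∅ := by
      rw [eq_empty_iff_forall_notMem]
      rintro τ ⟨h1, h2⟩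
      have h3 : m0 < τ := h2
      have : m ≤ τ := max_le h3.le h1.1
      linarith [h1.2]
    rw [e, Measure.restrict_empty, lintegral_zero_measure]
    exact zero_le

theorem far {n : ℕ} (hn : 1 ≤ n) {V : ℝ → ℝ≥0∞} (hV : Measurable V) {b L m0 c : ℝ}
    (hL : 0 < L) (hm0 : 0 < m0) :
    ∫⁻ τ in Icc c (c + 4) ∩ Ioi m0, V (√(b ^ 2 + (L * τ) ^ 2)) ≤
      (∫⁻ s in Ioi (0:ℝ), ENNReal.ofReal (s ^ n) * V s ^ (n + 1)) ^ (1 / ((n:ℝ) + 1)) *
        ENNReal.ofReal (L⁻¹ * Real.log (1 + 4 / m0) ^ ((n:ℝ) / (n + 1))) := by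
  have hn0 : (0:ℝ) < n := by exact_mod_cast hn
  have hk0 : (0:ℝ) < (n:ℝ) + 1 := by linarith
  have hlog : 0 ≤ Real.log (1 + 4 / m0) := Real.log_nonneg (by
    have : 0 < 4 / m0 := by positivity
    linarith)
  set S : Set ℝ := Icc c (c + 4) ∩ Ioi m0 with hS
  have hSm : MeasurableSet S := measurableSet_Icc.inter measurableSet_Ioi
  set f : ℝ → ℝ := fun τ => √(b ^ 2 + (L * τ) ^ 2) with hf
  have hfpos : ∀ τ, 0 < τ → 0 < f τ := by
    intro τ hτ
    simp only [hf]
    refine Real.sqrt_pos.2 ?_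
    positivity
  have hfge : ∀ τ, 0 < τ → L * τ ≤ f τ := by
    intro τ hτ
    simp only [hf]
    refine Real.le_sqrt_of_sq_le ?_
    nlinarith [sq_nonneg b]
  have hfm : Measurable f := by
    simp only [hf]
    fun_prop
  set f' : ℝ → ℝ := fun τ => L ^ 2 * τ / f τ with hf'
  have hder : ∀ τ ∈ Ioi (0:ℝ), HasDerivWithinAt f (f' τ) (Ioi 0) τ := by
    intro τ hτ
    have hτ0 : 0 < τ := hτ
    have h1 : HasDerivAt (fun τ : ℝ => b ^ 2 + (L * τ) ^ 2) (2 * (L * τ) * L) τ := by
      have h2 := ((hasDerivAt_id τ).const_mul L).pow 2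
      have h3 := h2.const_add (b ^ 2)
      simpa using h3
    have h4 := h1.sqrt (by positivity)
    refine (h4.congr_deriv ?_).hasDerivWithinAt
    simp only [hf', hf]
    have h5 := (hfpos τ hτ0).ne'
    simp only [hf] at h5
    field_simp
  have hinj : InjOn f (Ioi 0) := by
    intro x hx y hy hxy
    have hx0 : 0 < x := hx
    have hy0 : 0 < y := hy
    simp only [hf] at hxy
    rw [Real.sqrt_inj (by positivity) (by positivity)] at hxy
    have h1 : (L * x) ^ 2 = (L * y) ^ 2 := by linarith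
    have h2 : L * x = L * y := (sq_eq_sq₀ (by positivity) (by positivity)).1 h1
    exact mul_left_cancel₀ hL.ne' h2
  -- change of variables
  set Gf : ℝ → ℝ := fun τ => |f' τ| * f τ ^ n with hGf
  have hcv : ∫⁻ τ in S, ENNReal.ofReal (Gf τ) * V (f τ) ^ (n + 1) ≤
      ∫⁻ s in Ioi (0:ℝ), ENNReal.ofReal (s ^ n) * V s ^ (n + 1) := by
    have h1 := lintegral_image_eq_lintegral_abs_deriv_mul measurableSet_Ioi hder hinj
      (fun s => ENNReal.ofReal (s ^ n) * V s ^ (n + 1))
    calc ∫⁻ τ in S, ENNReal.ofReal (Gf τ) * V (f τ) ^ (n + 1)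
        ≤ ∫⁻ τ in Ioi 0, ENNReal.ofReal (Gf τ) * V (f τ) ^ (n + 1) := by
          refine lintegral_mono_set ?_
          rintro τ ⟨-, h2⟩
          have h3 : m0 < τ := h2
          exact lt_trans hm0 h3
      _ = ∫⁻ τ in Ioi 0, ENNReal.ofReal (|f' τ|) * (ENNReal.ofReal (f τ ^ n) * V (f τ) ^ (n + 1)) := by
          refine lintegral_congr fun τ => ?_
          rw [← mul_assoc, ← ENNReal.ofReal_mul (abs_nonneg _)]
      _ = ∫⁻ s in f '' Ioi 0, ENNReal.ofReal (s ^ n) * V s ^ (n + 1) := h1.symm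
      _ ≤ _ := by
          refine lintegral_mono_set ?_
          rintro _ ⟨τ, hτ, rfl⟩
          exact hfpos τ hτ
  have hGge : ∀ τ, 0 < τ → L ^ (n + 1) * τ ^ n ≤ Gf τ := by
    intro τ hτ
    have h1 := hfpos τ hτ
    simp only [hGf, hf']
    rw [abs_of_pos (by positivity)]
    have e : L ^ 2 * τ / f τ * f τ ^ n = L ^ 2 * τ * f τ ^ (n - 1) := by
      obtain ⟨m, rfl⟩ : ∃ m, n = m + 1 := ⟨n - 1, by omega⟩
      rw [Nat.add_sub_cancel, pow_succ, div_mul_eq_mul_div, div_eq_iff h1.ne']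
      ring
    rw [e]
    have e2 : L ^ (n + 1) * τ ^ n = L ^ 2 * τ * (L * τ) ^ (n - 1) := by
      obtain ⟨m, rfl⟩ : ∃ m, n = m + 1 := ⟨n - 1, by omega⟩
      rw [Nat.add_sub_cancel]
      ring
    rw [e2]
    have h2 := hfge τ hτ
    gcongr
  -- Hoelder
  set A : ℝ → ℝ≥0∞ := fun τ => V (f τ) * ENNReal.ofReal (Gf τ) ^ (1 / ((n:ℝ) + 1)) with hA
  set B : ℝ → ℝ≥0∞ := fun τ => ENNReal.ofReal (L⁻¹ * τ ^ (-((n:ℝ) / (n + 1)))) with hB
  have hGm : Measurable Gf := by
    simp only [hGf, hf']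
    exact ((((measurable_const.mul measurable_id).div hfm)).abs).mul (hfm.pow_const n)
  have hAm : Measurable A := (hV.comp hfm).mul (hGm.ennreal_ofReal.pow_const _)
  have hBm : Measurable B := by
    simp only [hB]
    fun_prop
  have hpt : ∀ τ ∈ S, V (f τ) ≤ A τ * B τ := by
    intro τ hτ
    have hτ0 : 0 < τ := lt_trans hm0 hτ.2
    have h1 := hGge τ hτ0
    have h2 : (1:ℝ≥0∞) ≤ ENNReal.ofReal (Gf τ) ^ (1 / ((n:ℝ) + 1)) * B τ := by
      have h3 : 0 < L ^ (n + 1) * τ ^ n := by positivity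
      have h4 : 0 < Gf τ := lt_of_lt_of_le h3 h1
      simp only [hB]
      rw [ENNReal.ofReal_rpow_of_pos h4, ← ENNReal.ofReal_mul (by positivity), ← ENNReal.ofReal_one]
      refine ENNReal.ofReal_le_ofReal ?_
      have h5 : (L ^ (n + 1) * τ ^ n) ^ (1 / ((n:ℝ) + 1)) ≤ Gf τ ^ (1 / ((n:ℝ) + 1)) :=
        Real.rpow_le_rpow h3.le h1 (by positivity)
      have h6 : (L ^ (n + 1) * τ ^ n) ^ (1 / ((n:ℝ) + 1)) = L * τ ^ ((n:ℝ) / (n + 1)) := by
        rw [Real.mul_rpow (by positivity) (by positivity), ← Real.rpow_natCast L, ← Real.rpow_mul hL.le,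
          ← Real.rpow_natCast τ, ← Real.rpow_mul hτ0.le]
        congr 1
        · push_cast
          rw [mul_one_div_cancel hk0.ne', Real.rpow_one]
        · rw [mul_one_div]
      rw [h6] at h5
      calc (1:ℝ) = (L * τ ^ ((n:ℝ) / (n + 1))) * (L⁻¹ * τ ^ (-((n:ℝ) / (n + 1)))) := by
            rw [Real.rpow_neg hτ0.le]
            have : τ ^ ((n:ℝ) / (n + 1)) ≠ 0 := (Real.rpow_pos_of_pos hτ0 _).ne'
            field_simp
        _ ≤ _ := by gcongr
    calc V (f τ) = V (f τ) * 1 := (mul_one _).symm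
      _ ≤ V (f τ) * (ENNReal.ofReal (Gf τ) ^ (1 / ((n:ℝ) + 1)) * B τ) := mul_le_mul_right h2 _
      _ = A τ * B τ := by rw [hA, mul_assoc]
  have hpq : Real.HolderConjugate ((n:ℝ) + 1) (((n:ℝ) + 1) / n) := by
    rw [Real.holderConjugate_iff]
    refine ⟨by linarith, ?_⟩
    field_simp
    ring
  have hH := ENNReal.lintegral_mul_le_Lp_mul_Lq (volume.restrict S) hpq hAm.aemeasurable hBm.aemeasurable
  have hA2 : ∫⁻ τ in S, A τ ^ ((n:ℝ) + 1) = ∫⁻ τ in S, ENNReal.ofReal (Gf τ) * V (f τ) ^ (n + 1) := by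
    refine lintegral_congr fun τ => ?_
    simp only [hA]
    rw [ENNReal.mul_rpow_of_nonneg _ _ hk0.le, ← ENNReal.rpow_mul, one_div_mul_cancel hk0.ne',
      ENNReal.rpow_one, mul_comm]
    congr 1
    rw [← ENNReal.rpow_natCast]
    push_cast
    rfl
  have hB2 : ∫⁻ τ in S, B τ ^ (((n:ℝ) + 1) / n) ≤
      ENNReal.ofReal (L⁻¹ ^ (((n:ℝ) + 1) / n) * Real.log (1 + 4 / m0)) := by
    calc ∫⁻ τ in S, B τ ^ (((n:ℝ) + 1) / n)
        = ∫⁻ τ in S, ENNReal.ofReal (L⁻¹ ^ (((n:ℝ) + 1) / n)) * ENNReal.ofReal (1 / τ) := by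
          refine setLIntegral_congr_fun hSm fun τ hτ => ?_
          have hτ0 : 0 < τ := lt_trans hm0 hτ.2
          simp only [hB]
          have h1 : 0 < τ ^ (-((n:ℝ) / (n + 1))) := Real.rpow_pos_of_pos hτ0 _
          rw [ENNReal.ofReal_rpow_of_pos (by positivity), ← ENNReal.ofReal_mul (by positivity),
            Real.mul_rpow (by positivity) h1.le, ← Real.rpow_mul hτ0.le]
          congr 2
          have : -((n:ℝ) / (n + 1)) * (((n:ℝ) + 1) / n) = -1 := by field_simp
          rw [this, Real.rpow_neg_one, one_div]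
      _ = ENNReal.ofReal (L⁻¹ ^ (((n:ℝ) + 1) / n)) * ∫⁻ τ in S, ENNReal.ofReal (1 / τ) :=
          lintegral_const_mul' _ _ ENNReal.ofReal_ne_top
      _ ≤ ENNReal.ofReal (L⁻¹ ^ (((n:ℝ) + 1) / n)) * ENNReal.ofReal (Real.log (1 + 4 / m0)) :=
          mul_le_mul_right (log_int hm0) _
      _ = _ := (ENNReal.ofReal_mul (by positivity)).symm
  calc ∫⁻ τ in S, V (f τ) ≤ ∫⁻ τ in S, A τ * B τ := setLIntegral_mono' hSm hpt
    _ ≤ (∫⁻ τ in S, A τ ^ ((n:ℝ) + 1)) ^ (1 / ((n:ℝ) + 1)) *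
          (∫⁻ τ in S, B τ ^ (((n:ℝ) + 1) / n)) ^ (1 / (((n:ℝ) + 1) / n)) := hH
    _ ≤ _ := by
        refine mul_le_mul' (ENNReal.rpow_le_rpow ?_ (by positivity)) ?_
        · rw [hA2]
          exact hcv
        · refine (ENNReal.rpow_le_rpow hB2 (by positivity)).trans (le_of_eq ?_)
          rw [ENNReal.ofReal_rpow_of_nonneg (by positivity) (by positivity)]
          congr 1
          rw [Real.mul_rpow (by positivity) hlog, ← Real.rpow_mul (by positivity)]
          congr 1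
          · have : ((n:ℝ) + 1) / n * (1 / (((n:ℝ) + 1) / n)) = 1 := by field_simp
            rw [this, Real.rpow_one]
          · congr 1
            field_simp

end Pool.Agent.K4H45.BL
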