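import Pool.Agent.K4H45.BL.Rae

set_option autoImplicit false
set_option maxHeartbeats 400000

/-!
The maximal estimate for radial functions.
-/

open MeasureTheory Set ENNReal Metric

namespace Pool.Agent.K4H45.BL

variable {n : ℕ}

/-- A unit vector. -/
noncomputable def e0 (n : ℕ) : F (n + 1) := EuclideanSpace.single 0 1

theorem norm_e0 (n : ℕ) : ‖e0 n‖ = 1 := by
  unfold e0
  simp

/-- The profile of the average. -/
noncomputable def prof (n : ℕ) (r : ℝ) (v : ℝ → ℝ≥0∞) (s : ℝ) : ℝ≥0∞ :=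
  Wav r (fun x : F (n + 1) => v ‖x‖) (s • e0 n)

theorem prof_meas (r : ℝ) {v : ℝ → ℝ≥0∞} (hv : Measurable v) : Measurable (prof n r v) := by
  have h := Wav_meas (k := n + 1) r (hv.comp measurable_norm)
  have h2 : Measurable fun s : ℝ => s • e0 n := by fun_prop
  exact h.comp h2

theorem prof_norm (r : ℝ) (v : ℝ → ℝ≥0∞) (y : F (n + 1)) :
    Wav r (fun x : F (n + 1) => v ‖x‖) y = prof n r v ‖y‖ := by
  unfold prof
  refine Wav_radial r ?_
  rw [norm_smul, norm_e0, mul_one, norm_norm]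

theorem prof_int {r : ℝ} (hr : 0 ≤ r) {v : ℝ → ℝ≥0∞} (hv : Measurable v) :
    ∫⁻ s in Ioi (0:ℝ), ENNReal.ofReal (s ^ n) * prof n r v s ^ (n + 1) ≤
      (sph n)⁻¹ * (Vb (n + 1) r ^ (n + 1) * ∫⁻ x : F (n + 1), v ‖x‖ ^ (n + 1)) := by
  have h1 := rad_int (n := n) (H := fun s => prof n r v s ^ (n + 1)) ((prof_meas r hv).pow_const _)
  have h2 := Wav_int (k := n + 1) (by omega) hr (w := fun x : F (n + 1) => v ‖x‖) (hv.comp measurable_norm)
  have h3 : ∫⁻ x : F (n + 1), prof n r v ‖x‖ ^ (n + 1) =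
      ∫⁻ y : F (n + 1), Wav r (fun x : F (n + 1) => v ‖x‖) y ^ (n + 1) := by
    refine lintegral_congr fun y => ?_
    rw [prof_norm]
  rw [h3] at h1
  rw [h1] at h2
  calc ∫⁻ s in Ioi (0:ℝ), ENNReal.ofReal (s ^ n) * prof n r v s ^ (n + 1)
      = (sph n)⁻¹ * (sph n * ∫⁻ s in Ioi (0:ℝ), ENNReal.ofReal (s ^ n) * prof n r v s ^ (n + 1)) := by
        rw [← mul_assoc, ENNReal.inv_mul_cancel (sph_ne_zero n) (sph_ne_top n), one_mul]
    _ ≤ _ := mul_le_mul_right h2 _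

/-- The norm along a line. -/
theorem line_norm (α ζ : F (n + 1)) (hζ : ζ ≠ 0) : ∃ b t0 : ℝ, ∀ t : ℝ,
    ‖α + t • ζ‖ = √(b ^ 2 + (‖ζ‖ * (t - t0)) ^ 2) := by
  have hL : 0 < ‖ζ‖ := norm_pos_iff.2 hζ
  set t0 : ℝ := -(inner ℝ α ζ) / ‖ζ‖ ^ 2 with ht0
  refine ⟨‖α + t0 • ζ‖, t0, fun t => ?_⟩
  have h1 : inner ℝ (α + t0 • ζ) ζ = 0 := by
    rw [inner_add_left, inner_smul_left, real_inner_self_eq_norm_sq, ht0]
    simp only [conj_trivial]
    field_simp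
    ring
  have e : α + t • ζ = (α + t0 • ζ) + (t - t0) • ζ := by
    rw [sub_smul]
    abel
  have h2 : ‖α + t • ζ‖ ^ 2 = ‖α + t0 • ζ‖ ^ 2 + (‖ζ‖ * (t - t0)) ^ 2 := by
    rw [e, norm_add_sq_real, inner_smul_right, h1, norm_smul, mul_pow, mul_pow, Real.norm_eq_abs, sq_abs]
    ring
  rw [← h2, Real.sqrt_sq (norm_nonneg _)]

/-- The integral over a segment of the average of a radial function. -/
theorem rad_line (hn : 1 ≤ n) {v : ℝ → ℝ≥0∞} (hv : Measurable v) {r m0 : ℝ} (hm0 : 0 < m0)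
    (α ζ : F (n + 1)) (hζ : ζ ≠ 0) {S X : ℝ≥0∞} (hS : ∀ y : F (n + 1), Wav r (fun x => v ‖x‖) y ≤ S)
    (hX : ∫⁻ s in Ioi (0:ℝ), ENNReal.ofReal (s ^ n) * prof n r v s ^ (n + 1) ≤ X) :
    ∫⁻ t in Icc (-2:ℝ) 2, Wav r (fun x => v ‖x‖) (α + t • ζ) ≤
      ENNReal.ofReal (2 * m0) * S +
        2 * (X ^ (1 / ((n:ℝ) + 1)) *
          ENNReal.ofReal (‖ζ‖⁻¹ * Real.log (1 + 4 / m0) ^ ((n:ℝ) / (n + 1)))) := by
  have hL : 0 < ‖ζ‖ := norm_pos_iff.2 hζ
  obtain ⟨b, t0, hb⟩ := line_norm α ζ hζ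
  set V : ℝ → ℝ≥0∞ := prof n r v with hV
  have hVm : Measurable V := prof_meas r hv
  set g : ℝ → ℝ≥0∞ := fun τ => V (√(b ^ 2 + (‖ζ‖ * τ) ^ 2)) with hg
  have hgm : Measurable g := hVm.comp (by fun_prop)
  have hW : ∀ t, Wav r (fun x => v ‖x‖) (α + t • ζ) = g (t - t0) := by
    intro t
    rw [prof_norm, hb]
  have hgS : ∀ τ, g τ ≤ S := by
    intro τ
    have h := hS (α + (τ + t0) • ζ)
    rw [hW] at h
    simpa using h
  have hfar : ∀ c, ∫⁻ τ in Icc c (c + 4) ∩ Ioi m0, g τ ≤ X ^ (1 / ((n:ℝ) + 1)) *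
      ENNReal.ofReal (‖ζ‖⁻¹ * Real.log (1 + 4 / m0) ^ ((n:ℝ) / (n + 1))) := by
    intro c
    refine (far hn hVm hL hm0).trans ?_
    exact mul_le_mul_left (ENNReal.rpow_le_rpow hX (by positivity)) _
  -- the three parts
  set P1 : Set ℝ := closedBall t0 m0 with hP1
  set P2 : Set ℝ := (fun t => t - t0) ⁻¹' (Icc (-2 - t0) (-2 - t0 + 4) ∩ Ioi m0) with hP2
  set P3 : Set ℝ := (fun t => t0 - t) ⁻¹' (Icc (t0 - 2) (t0 - 2 + 4) ∩ Ioi m0) with hP3
  have hsub : Icc (-2:ℝ) 2 ⊆ P1 ∪ (P2 ∪ P3) := by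
    intro t ht
    rcases le_or_gt |t - t0| m0 with h | h
    · left
      rw [hP1, mem_closedBall, Real.dist_eq]
      exact h
    · right
      rcases lt_abs.1 h with h' | h'
      · left
        refine ⟨⟨?_, ?_⟩, h'⟩
        · show -2 - t0 ≤ t - t0
          linarith [ht.1]
        · show t - t0 ≤ -2 - t0 + 4
          linarith [ht.2]
      · right
        refine ⟨⟨?_, ?_⟩, ?_⟩
        · show t0 - 2 ≤ t0 - t
          linarith [ht.2]
        · show t0 - t ≤ t0 - 2 + 4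
          linarith [ht.1]
        · show m0 < t0 - t
          linarith
  have h1 : ∫⁻ t in P1, g (t - t0) ≤ ENNReal.ofReal (2 * m0) * S := by
    calc ∫⁻ t in P1, g (t - t0) ≤ ∫⁻ _t in P1, S := lintegral_mono fun t => hgS _
      _ = _ := by rw [setLIntegral_const, hP1, Real.volume_closedBall, mul_comm]
  have h2 : ∫⁻ t in P2, g (t - t0) ≤ X ^ (1 / ((n:ℝ) + 1)) *
      ENNReal.ofReal (‖ζ‖⁻¹ * Real.log (1 + 4 / m0) ^ ((n:ℝ) / (n + 1))) := by
    have h := (measurePreserving_sub_right (volume : Measure ℝ) t0).setLIntegral_comp_preimage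
      (measurableSet_Icc.inter measurableSet_Ioi : MeasurableSet
        (Icc (-2 - t0) (-2 - t0 + 4) ∩ Ioi m0)) hgm
    rw [hP2, h]
    exact hfar _
  have h3 : ∫⁻ t in P3, g (t - t0) ≤ X ^ (1 / ((n:ℝ) + 1)) *
      ENNReal.ofReal (‖ζ‖⁻¹ * Real.log (1 + 4 / m0) ^ ((n:ℝ) / (n + 1))) := by
    have h := (Measure.measurePreserving_sub_left (volume : Measure ℝ) t0).setLIntegral_comp_preimage
      (measurableSet_Icc.inter measurableSet_Ioi : MeasurableSet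
        (Icc (t0 - 2) (t0 - 2 + 4) ∩ Ioi m0)) hgm
    have e : ∀ t, g (t - t0) = g (t0 - t) := by
      intro t
      simp only [hg]
      congr 3
      ring
    simp_rw [e]
    rw [hP3, h]
    exact hfar _
  calc ∫⁻ t in Icc (-2:ℝ) 2, Wav r (fun x => v ‖x‖) (α + t • ζ)
      = ∫⁻ t in Icc (-2:ℝ) 2, g (t - t0) := by simp_rw [hW]
    _ ≤ ∫⁻ t in P1 ∪ (P2 ∪ P3), g (t - t0) := lintegral_mono_set hsub
    _ ≤ (∫⁻ t in P1, g (t - t0)) + ((∫⁻ t in P2, g (t - t0)) + ∫⁻ t in P3, g (t - t0)) := by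
        refine (lintegral_union_le _ _ _).trans ?_
        gcongr
        exact lintegral_union_le _ _ _
    _ ≤ _ := by
        rw [two_mul (X ^ (1 / ((n:ℝ) + 1)) *
          ENNReal.ofReal (‖ζ‖⁻¹ * Real.log (1 + 4 / m0) ^ ((n:ℝ) / (n + 1))))]
        exact add_le_add h1 (add_le_add h2 h3)

end Pool.Agent.K4H45.BL
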