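import Pool.Agent.K4H45.BL.Raf

set_option autoImplicit false
set_option maxHeartbeats 400000

/-!
The maximal estimate for radial functions.
-/

open MeasureTheory Set ENNReal Metric

namespace Pool.Agent.K4H45.BL

theorem Lam_Wav {k : ℕ} (r s : ℝ) {w : F k → ℝ≥0∞} (hw : Measurable w) (α z : F k) :
    Lam r s w α z = ∫⁻ t in Icc (-2:ℝ) 2, Wav r w (α + (t * s) • z) := by
  have h := time_swap (volume : Measure (F k)) (volume.restrict (Icc (-2 : ℝ) 2))
    (c := fun t => α + (t * s) • z) (by fun_prop) r hw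
  unfold Lam tm Wav
  exact h

variable {n : ℕ}

/-- The constant for radial functions. -/
noncomputable def rD (n : ℕ) (ρ : ℝ) : ℝ :=
  10 * (1 + ((sph n)⁻¹).toReal) * (1 + (Vb (n + 1) 1).toReal) * ρ ^ (n + 1)

theorem Vb_eq {r : ℝ} (hr : 0 ≤ r) : Vb (n + 1) r = ENNReal.ofReal (r ^ (n + 1) * (Vb (n + 1) 1).toReal) := by
  rw [ENNReal.ofReal_mul (by positivity), ENNReal.ofReal_toReal (Vb_ne_top 1)]
  unfold Vb
  rw [Measure.addHaar_closedBall' _ _ hr, finrank_euclideanSpace_fin]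

theorem comb {p1 p2 p3 p4 : ℝ} (h1 : 0 ≤ p1) (h2 : 0 ≤ p2) (h3 : 0 ≤ p3) (h4 : 0 ≤ p4) (X : ℝ≥0∞) :
    ENNReal.ofReal p1 * (ENNReal.ofReal p2 * X) + ENNReal.ofReal 2 * ((ENNReal.ofReal p3 * X) *
      ENNReal.ofReal p4) = ENNReal.ofReal (p1 * p2 + 2 * (p3 * p4)) * X := by
  rw [ENNReal.ofReal_add (by positivity) (by positivity), ENNReal.ofReal_mul h1,
    ENNReal.ofReal_mul (by norm_num : (0:ℝ) ≤ 2), ENNReal.ofReal_mul h3]
  ring

theorem Lam_rad (hn : 1 ≤ n) {v : ℝ → ℝ≥0∞} (hv : Measurable v) {N ρ : ℝ} (hN : 1 ≤ N) (hρ : 1 ≤ ρ)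
    (α z : F (n + 1)) (hz : ‖z‖ ≤ 7) :
    Lam (ρ * N) (N ^ 2) (fun x => v ‖x‖) α z ≤
      ENNReal.ofReal (rD n ρ * N ^ n * (1 + Real.log N) ^ ((n:ℝ) / (n + 1)) * (2 / (N * ‖z‖ + 1))) *
        (∫⁻ x : F (n + 1), v ‖x‖ ^ (n + 1)) ^ (1 / ((n:ℝ) + 1)) := by
  have hN0 : 0 < N := by linarith
  have hρ0 : 0 < ρ := by linarith
  have hn0 : (0:ℝ) < n := by exact_mod_cast hn
  have hk0 : (0:ℝ) < (n:ℝ) + 1 := by linarith
  have hlN : 0 ≤ Real.log N := Real.log_nonneg hN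
  have hw : Measurable fun x : F (n + 1) => v ‖x‖ := hv.comp measurable_norm
  rw [Lam_Wav _ _ hw]
  set ω : ℝ := (Vb (n + 1) 1).toReal with hω
  have hω0 : 0 ≤ ω := ENNReal.toReal_nonneg
  set σ' : ℝ := ((sph n)⁻¹).toReal with hσ'
  have hσ0 : 0 ≤ σ' := ENNReal.toReal_nonneg
  have hσe : (sph n)⁻¹ = ENNReal.ofReal σ' := by
    rw [hσ', ENNReal.ofReal_toReal]
    exact ENNReal.inv_ne_top.2 (sph_ne_zero n)
  set r : ℝ := ρ * N with hr
  have hr0 : 0 < r := by positivity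
  set I : ℝ≥0∞ := ∫⁻ x : F (n + 1), v ‖x‖ ^ (n + 1) with hI
  set X : ℝ≥0∞ := I ^ (1 / ((n:ℝ) + 1)) with hX
  set l : ℝ := (1 + Real.log N) ^ ((n:ℝ) / (n + 1)) with hl
  have hl1 : 1 ≤ l := Real.one_le_rpow (by linarith) (by positivity)
  have he1 : (n:ℝ) / (n + 1) ≤ 1 := by
    rw [div_le_one hk0]
    linarith
  -- the bound for the averages
  have hS : ∀ y : F (n + 1), Wav r (fun x => v ‖x‖) y ≤ ENNReal.ofReal ((1 + ω) * r ^ n) * X := by
    intro y
    have h1 := Wav_pow (k := n + 1) (by omega) r hw y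
    rw [Nat.add_sub_cancel] at h1
    have h2 : Wav r (fun x => v ‖x‖) y ^ (n + 1) ≤ Vb (n + 1) r ^ n * I :=
      h1.trans (mul_le_mul_right (setLIntegral_le_lintegral _ _) _)
    have h3 := ENNReal.rpow_le_rpow h2 (z := 1 / ((n:ℝ) + 1)) (by positivity)
    rw [← ENNReal.rpow_natCast, ← ENNReal.rpow_mul] at h3
    have e1 : ((n + 1 : ℕ) : ℝ) * (1 / ((n:ℝ) + 1)) = 1 := by
      push_cast
      field_simp
    rw [e1, ENNReal.rpow_one, ENNReal.mul_rpow_of_nonneg _ _ (by positivity)] at h3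
    refine h3.trans (mul_le_mul_left ?_ _)
    rw [Vb_eq hr0.le, ← ENNReal.ofReal_pow (by positivity), ENNReal.ofReal_rpow_of_nonneg
      (by positivity) (by positivity)]
    refine ENNReal.ofReal_le_ofReal ?_
    have e2 : ((r ^ (n + 1) * ω) ^ n) ^ (1 / ((n:ℝ) + 1)) = r ^ n * ω ^ ((n:ℝ) / (n + 1)) := by
      rw [mul_pow, Real.mul_rpow (by positivity) (by positivity)]
      congr 1
      · rw [← pow_mul, mul_comm (n + 1) n, pow_mul, ← Real.rpow_natCast (r ^ n), ← Real.rpow_mul (by positivity), e1,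
          Real.rpow_one]
      · rw [← Real.rpow_natCast, ← Real.rpow_mul hω0, mul_one_div]
    rw [← hω, e2, mul_comm]
    refine mul_le_mul_of_nonneg_right ?_ (by positivity)
    rcases le_total ω 1 with h | h
    · refine (Real.rpow_le_one hω0 h (by positivity)).trans ?_
      linarith
    · calc ω ^ ((n:ℝ) / (n + 1)) ≤ ω ^ (1:ℝ) := Real.rpow_le_rpow_of_exponent_le h he1
        _ = ω := Real.rpow_one _
        _ ≤ _ := by linarith
  have hT : ((sph n)⁻¹ * (Vb (n + 1) r ^ (n + 1) * I)) ^ (1 / ((n:ℝ) + 1)) ≤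
      ENNReal.ofReal ((1 + σ') * (1 + ω) * r ^ (n + 1)) * X := by
    rw [← mul_assoc, ENNReal.mul_rpow_of_nonneg _ _ (by positivity)]
    refine mul_le_mul_left ?_ _
    rw [hσe, Vb_eq hr0.le, ← ENNReal.ofReal_pow (by positivity), ← ENNReal.ofReal_mul hσ0,
      ENNReal.ofReal_rpow_of_nonneg (by positivity) (by positivity)]
    refine ENNReal.ofReal_le_ofReal ?_
    have e1 : ((n + 1 : ℕ) : ℝ) * (1 / ((n:ℝ) + 1)) = 1 := by
      push_cast
      field_simp
    rw [← hω, Real.mul_rpow hσ0 (by positivity), ← Real.rpow_natCast (r ^ (n + 1) * ω),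
      ← Real.rpow_mul (by positivity), e1, Real.rpow_one]
    have h1 : σ' ^ (1 / ((n:ℝ) + 1)) ≤ 1 + σ' := by
      rcases le_total σ' 1 with h | h
      · refine (Real.rpow_le_one hσ0 h (by positivity)).trans ?_
        linarith
      · calc σ' ^ (1 / ((n:ℝ) + 1)) ≤ σ' ^ (1:ℝ) := Real.rpow_le_rpow_of_exponent_le h (by
              rw [div_le_one hk0]
              linarith)
          _ = σ' := Real.rpow_one _
          _ ≤ _ := by linarith
    calc σ' ^ (1 / ((n:ℝ) + 1)) * (r ^ (n + 1) * ω) ≤ (1 + σ') * (r ^ (n + 1) * (1 + ω)) := by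
          gcongr
          linarith
      _ = _ := by ring
  -- the trivial bound
  have htriv : ∫⁻ t in Icc (-2:ℝ) 2, Wav r (fun x => v ‖x‖) (α + (t * N ^ 2) • z) ≤
      ENNReal.ofReal (4 * (1 + ω) * r ^ n) * X := by
    calc ∫⁻ t in Icc (-2:ℝ) 2, Wav r (fun x => v ‖x‖) (α + (t * N ^ 2) • z)
        ≤ ∫⁻ _t in Icc (-2:ℝ) 2, ENNReal.ofReal ((1 + ω) * r ^ n) * X := lintegral_mono fun t => hS _
      _ = _ := by
          rw [setLIntegral_const, Real.volume_Icc, mul_comm, ← mul_assoc, ← ENNReal.ofReal_mul (by norm_num)]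
          congr 2
          ring
  have hrn : r ^ n ≤ ρ ^ (n + 1) * N ^ n := by
    rw [hr, mul_pow]
    have : ρ ^ n ≤ ρ ^ (n + 1) := pow_le_pow_right₀ hρ (by omega)
    gcongr
  rcases le_or_gt (N * ‖z‖) 1 with h | h
  · refine htriv.trans (mul_le_mul_left (ENNReal.ofReal_le_ofReal ?_) _)
    have h1 : 1 ≤ 2 / (N * ‖z‖ + 1) := by
      rw [le_div_iff₀ (by positivity)]
      linarith
    unfold rD
    rw [← hω, ← hσ']
    calc 4 * (1 + ω) * r ^ n ≤ 10 * 1 * (1 + ω) * (ρ ^ (n + 1) * N ^ n) * 1 * 1 := by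
          rw [mul_one, mul_one, mul_one]
          have h2 : 0 ≤ (1 + ω) * r ^ n := by positivity
          calc 4 * (1 + ω) * r ^ n ≤ 10 * (1 + ω) * r ^ n := by nlinarith
            _ ≤ _ := by gcongr
      _ ≤ 10 * (1 + σ') * (1 + ω) * (ρ ^ (n + 1) * N ^ n) * l * (2 / (N * ‖z‖ + 1)) := by
          gcongr
          linarith
      _ = _ := by ring
  · have hz0 : 0 < ‖z‖ := by
      by_contra h0
      have h1 : ‖z‖ = 0 := le_antisymm (not_lt.1 h0) (norm_nonneg z)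
      rw [h1] at h
      linarith
    have hζ : (N ^ 2) • z ≠ 0 := smul_ne_zero (by positivity) (norm_pos_iff.1 hz0)
    have hζn : ‖(N ^ 2) • z‖ = N ^ 2 * ‖z‖ := by
      rw [norm_smul, Real.norm_eq_abs, abs_of_pos (by positivity)]
    set m0 : ℝ := 1 / (N * ‖z‖) with hm0
    have hm00 : 0 < m0 := by positivity
    have hmain := rad_line hn hv hm00 α ((N ^ 2) • z) hζ hS (prof_int (n := n) hr0.le hv)
    have e : ∀ t : ℝ, (t * N ^ 2) • z = t • ((N ^ 2) • z) := fun t => (smul_smul t (N ^ 2) z).symm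
    simp_rw [e]
    refine hmain.trans ?_
    have hlog : Real.log (1 + 4 / m0) ≤ 4 * (1 + Real.log N) := by
      have h1 : 4 / m0 = 4 * (N * ‖z‖) := by rw [hm0]; field_simp
      have h2 : 1 + 4 / m0 ≤ 29 * N := by
        rw [h1]
        nlinarith
      have h3 : Real.log (29 * N) = Real.log 29 + Real.log N := Real.log_mul (by norm_num) hN0.ne'
      have h4 : Real.log 29 ≤ 4 := by
        rw [Real.log_le_iff_le_exp (by norm_num)]
        have h5 : (2.7:ℝ) ≤ Real.exp 1 := by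
          have := Real.exp_one_gt_d9
          linarith
        calc (29:ℝ) ≤ (2.7:ℝ) ^ 4 := by norm_num
          _ ≤ (Real.exp 1) ^ 4 := pow_le_pow_left₀ (by norm_num) h5 4
          _ = Real.exp 4 := by rw [← Real.exp_nat_mul]; norm_num
      calc Real.log (1 + 4 / m0) ≤ Real.log (29 * N) :=
            Real.log_le_log (by positivity) h2
        _ ≤ _ := by rw [h3]; nlinarith
    have hlog0 : 0 ≤ Real.log (1 + 4 / m0) := Real.log_nonneg (by
      have : 0 < 4 / m0 := by positivity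
      linarith)
    have hlogp : Real.log (1 + 4 / m0) ^ ((n:ℝ) / (n + 1)) ≤ 4 * l := by
      calc Real.log (1 + 4 / m0) ^ ((n:ℝ) / (n + 1)) ≤ (4 * (1 + Real.log N)) ^ ((n:ℝ) / (n + 1)) :=
            Real.rpow_le_rpow hlog0 hlog (by positivity)
        _ = 4 ^ ((n:ℝ) / (n + 1)) * l := by rw [Real.mul_rpow (by norm_num) (by linarith)]
        _ ≤ 4 * l := by
            have : (4:ℝ) ^ ((n:ℝ) / (n + 1)) ≤ 4 ^ (1:ℝ) :=
              Real.rpow_le_rpow_of_exponent_le (by norm_num) he1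
            rw [Real.rpow_one] at this
            gcongr
    have h6 : 1 / (N * ‖z‖) ≤ 2 / (N * ‖z‖ + 1) := by
      rw [div_le_div_iff₀ (by positivity) (by positivity)]
      linarith
    calc ENNReal.ofReal (2 * m0) * (ENNReal.ofReal ((1 + ω) * r ^ n) * X) +
          2 * (((sph n)⁻¹ * (Vb (n + 1) r ^ (n + 1) * ∫⁻ x : F (n + 1), v ‖x‖ ^ (n + 1))) ^ (1 / ((n:ℝ) + 1)) *
          ENNReal.ofReal (‖(N ^ 2) • z‖⁻¹ * Real.log (1 + 4 / m0) ^ ((n:ℝ) / (n + 1))))
        ≤ ENNReal.ofReal (2 * m0) * (ENNReal.ofReal ((1 + ω) * r ^ n) * X) +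
          ENNReal.ofReal 2 * ((ENNReal.ofReal ((1 + σ') * (1 + ω) * r ^ (n + 1)) * X) *
          ENNReal.ofReal ((N ^ 2 * ‖z‖)⁻¹ * (4 * l))) := by
          rw [hζn]
          refine add_le_add le_rfl (mul_le_mul' (by norm_num) (mul_le_mul' hT
            (ENNReal.ofReal_le_ofReal ?_)))
          gcongr
      _ = ENNReal.ofReal (2 * m0 * ((1 + ω) * r ^ n) +
            2 * ((1 + σ') * (1 + ω) * r ^ (n + 1) * ((N ^ 2 * ‖z‖)⁻¹ * (4 * l)))) * X := by
          exact comb (by positivity) (by positivity) (by positivity) (by positivity) X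
      _ ≤ _ := by
          refine mul_le_mul_left (ENNReal.ofReal_le_ofReal ?_) _
          unfold rD
          rw [← hω, ← hσ']
          have h7 : 2 * m0 * ((1 + ω) * r ^ n) ≤
              2 * ((1 + σ') * (1 + ω) * ρ ^ (n + 1) * N ^ n * l * (1 / (N * ‖z‖))) := by
            calc 2 * m0 * ((1 + ω) * r ^ n)
                ≤ 2 * m0 * ((1 + ω) * (ρ ^ (n + 1) * N ^ n)) := by gcongr
              _ = 2 * (1 * (1 + ω) * ρ ^ (n + 1) * N ^ n * 1 * (1 / (N * ‖z‖))) := by rw [hm0]; ring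
              _ ≤ _ := by
                  gcongr
                  linarith
          have h8 : 2 * ((1 + σ') * (1 + ω) * r ^ (n + 1) * ((N ^ 2 * ‖z‖)⁻¹ * (4 * l))) =
              8 * ((1 + σ') * (1 + ω) * ρ ^ (n + 1) * N ^ n * l * (1 / (N * ‖z‖))) := by
            rw [hr, mul_pow, pow_succ N]
            field_simp
            ring
          rw [h8]
          calc _ ≤ 2 * ((1 + σ') * (1 + ω) * ρ ^ (n + 1) * N ^ n * l * (1 / (N * ‖z‖))) +
                8 * ((1 + σ') * (1 + ω) * ρ ^ (n + 1) * N ^ n * l * (1 / (N * ‖z‖))) := by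
                gcongr
            _ = 10 * (1 + σ') * (1 + ω) * ρ ^ (n + 1) * N ^ n * l * (1 / (N * ‖z‖)) := by ring
            _ ≤ _ := by gcongr

end Pool.Agent.K4H45.BL
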