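import Pool.Agent.K4H45.BL.Rag

set_option autoImplicit false
set_option maxHeartbeats 400000

/-!
The maximal estimate for radial functions, integrated.
-/

open MeasureTheory Set ENNReal Metric

namespace Pool.Agent.K4H45.BL

theorem Lam_shift {k : ℕ} (r s : ℝ) (w : F k → ℝ≥0∞) (o α z : F k) :
    Lam r s (fun x => w (x - o)) α z = Lam r s w (α - o) z := by
  unfold Lam
  rw [← lintegral_sub_right_eq_self (fun y => tm r s (α - o) z y * w y) o]
  refine lintegral_congr fun y => ?_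
  congr 1
  unfold tm
  congr 1
  ext t
  rw [Set.mem_ofPred_eq, Set.mem_ofPred_eq]
  have : α - o + (t * s) • z - (y - o) = α + (t * s) • z - y := by abel
  rw [this]

variable {n : ℕ}

/-- The constant for radial functions. -/
noncomputable def rC (n : ℕ) (ρ : ℝ) : ℝ :=
  2 * rD n ρ * (1 + (sph n).toReal * (2 * (1 + Real.log (1 + 7))))

theorem rD_pos (n : ℕ) {ρ : ℝ} (hρ : 1 ≤ ρ) : 0 < rD n ρ := by
  have hρ0 : 0 < ρ := by linarith
  have h1 : 0 ≤ ((sph n)⁻¹).toReal := ENNReal.toReal_nonneg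
  have h2 : 0 ≤ (Vb (n + 1) 1).toReal := ENNReal.toReal_nonneg
  unfold rD
  positivity

theorem rC_pos (n : ℕ) {ρ : ℝ} (hρ : 1 ≤ ρ) : 0 < rC n ρ := by
  have h := rD_pos n hρ
  have h1 : 0 ≤ (sph n).toReal := ENNReal.toReal_nonneg
  have h2 : 0 ≤ Real.log (1 + 7) := Real.log_nonneg (by norm_num)
  unfold rC
  positivity

/-- The integral of the weight. -/
theorem weight_int {N : ℝ} (hN : 1 ≤ N) :
    ∫⁻ z in closedBall (0 : F (n + 1)) 7, ENNReal.ofReal (2 / (N * ‖z‖ + 1)) ^ (n + 1) ≤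
      ENNReal.ofReal ((2 / N) ^ (n + 1) * ((sph n).toReal * (2 * (1 + Real.log (1 + 7)) *
        (1 + Real.log N)))) := by
  have hN0 : 0 < N := by linarith
  have hlN : 0 ≤ Real.log N := Real.log_nonneg hN
  set H : ℝ → ℝ≥0∞ := (Iic (7:ℝ)).indicator (fun s => ENNReal.ofReal (2 / (N * s + 1)) ^ (n + 1)) with hH
  have hHm : Measurable H := by
    refine Measurable.indicator ?_ measurableSet_Iic
    fun_prop
  have h1 : ∫⁻ z in closedBall (0 : F (n + 1)) 7, ENNReal.ofReal (2 / (N * ‖z‖ + 1)) ^ (n + 1) =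
      ∫⁻ z : F (n + 1), H ‖z‖ := by
    rw [← lintegral_indicator isClosed_closedBall.measurableSet]
    refine lintegral_congr fun z => ?_
    by_cases hz : z ∈ closedBall (0 : F (n + 1)) 7
    · have hz' : ‖z‖ ∈ Iic (7:ℝ) := by
        rw [mem_closedBall, dist_zero_right] at hz
        exact hz
      rw [indicator_of_mem hz, hH, indicator_of_mem hz']
    · have hz' : ‖z‖ ∉ Iic (7:ℝ) := by
        rw [mem_closedBall, dist_zero_right] at hz
        exact hz
      rw [indicator_of_notMem hz, hH, indicator_of_notMem hz']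
  rw [h1, rad_int hHm]
  have h2 : ∫⁻ s in Ioi (0:ℝ), ENNReal.ofReal (s ^ n) * H s ≤
      ENNReal.ofReal ((2 / N) ^ (n + 1)) * ∫⁻ m in Icc (-7) 7, phi N m := by
    rw [← lintegral_const_mul' _ _ ENNReal.ofReal_ne_top, ← lintegral_indicator measurableSet_Ioi,
      ← lintegral_indicator measurableSet_Icc]
    refine lintegral_mono fun s => ?_
    by_cases hs : s ∈ Ioi (0:ℝ)
    · rw [indicator_of_mem hs]
      have hs0 : 0 < s := hs
      by_cases hs7 : s ∈ Iic (7:ℝ)
      · have hs7' : s ≤ 7 := hs7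
        rw [hH, indicator_of_mem hs7, indicator_of_mem (by constructor <;> linarith : s ∈ Icc (-7:ℝ) 7)]
        unfold phi
        rw [← ENNReal.ofReal_pow (by positivity), ← ENNReal.ofReal_mul (by positivity),
          ← ENNReal.ofReal_mul (by positivity), abs_of_pos hs0]
        refine ENNReal.ofReal_le_ofReal ?_
        have e1 : 2 / (N * s + 1) = 2 / N * (1 / (s + 1 / N)) := by field_simp
        rw [e1, mul_pow, pow_succ (1 / (s + 1 / N)) n]
        have h3 : s ^ n * (1 / (s + 1 / N)) ^ n ≤ 1 := by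
          rw [← mul_pow]
          refine pow_le_one₀ (by positivity) ?_
          rw [mul_one_div, div_le_one (by positivity)]
          have : 0 < 1 / N := by positivity
          linarith
        calc s ^ n * ((2 / N) ^ (n + 1) * ((1 / (s + 1 / N)) ^ n * (1 / (s + 1 / N))))
            = (s ^ n * (1 / (s + 1 / N)) ^ n) * ((2 / N) ^ (n + 1) * (1 / (s + 1 / N))) := by ring
          _ ≤ 1 * ((2 / N) ^ (n + 1) * (1 / (s + 1 / N))) := by gcongr
          _ = _ := one_mul _
      · rw [hH, indicator_of_notMem hs7, mul_zero]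
        exact zero_le
    · rw [indicator_of_notMem hs]
      exact zero_le
  calc sph n * ∫⁻ s in Ioi (0:ℝ), ENNReal.ofReal (s ^ n) * H s
      ≤ ENNReal.ofReal (sph n).toReal * (ENNReal.ofReal ((2 / N) ^ (n + 1)) *
          ENNReal.ofReal (2 * (1 + Real.log (1 + 7)) * (1 + Real.log N))) := by
        rw [ENNReal.ofReal_toReal (sph_ne_top n)]
        refine mul_le_mul_right (h2.trans (mul_le_mul_right ?_ _)) _
        exact phi_int hN (by norm_num)
    _ = _ := by
        rw [← ENNReal.ofReal_mul (by positivity), ← ENNReal.ofReal_mul ENNReal.toReal_nonneg]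
        congr 1
        ring

/-- **The maximal estimate for radial functions.** -/
theorem rad_bound (hn : 1 ≤ n) {ρ : ℝ} (hρ : 1 ≤ ρ) {N : ℝ} (hN : 1 ≤ N) {ι : Type}
    (a : ι → F (n + 1)) {v : ℝ → ℝ≥0∞} (hv : Measurable v) (o : F (n + 1)) :
    ∫⁻ z in closedBall 0 7, (⨆ i, Lam (ρ * N) (N ^ 2) (fun x => v ‖x - o‖) (a i) z) ^ (n + 1) ≤
        ENNReal.ofReal (rC n ρ * (1 + Real.log N) * N ^ (n + 1) / N ^ 2) ^ (n + 1) *
          ∫⁻ y : F (n + 1), v ‖y - o‖ ^ (n + 1) := by
  have hN0 : 0 < N := by linarith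
  have hn0 : (0:ℝ) < n := by exact_mod_cast hn
  have hk0 : (0:ℝ) < (n:ℝ) + 1 := by linarith
  have hlN : 0 ≤ Real.log N := Real.log_nonneg hN
  have hD := rD_pos n hρ
  set s' : ℝ := (sph n).toReal with hs'
  have hs0 : 0 ≤ s' := ENNReal.toReal_nonneg
  set g : ℝ := 2 * (1 + Real.log (1 + 7)) with hg
  have hg0 : 0 ≤ g := by
    have : 0 ≤ Real.log (1 + 7) := Real.log_nonneg (by norm_num)
    positivity
  set I : ℝ≥0∞ := ∫⁻ x : F (n + 1), v ‖x‖ ^ (n + 1) with hI
  have hIo : ∫⁻ y : F (n + 1), v ‖y - o‖ ^ (n + 1) = I :=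
    lintegral_sub_right_eq_self (fun y : F (n + 1) => v ‖y‖ ^ (n + 1)) o
  set X : ℝ≥0∞ := I ^ (1 / ((n:ℝ) + 1)) with hX
  have hXp : X ^ (n + 1) = I := by
    rw [hX, ← ENNReal.rpow_natCast, ← ENNReal.rpow_mul]
    have : 1 / ((n:ℝ) + 1) * ((n + 1 : ℕ) : ℝ) = 1 := by
      push_cast
      field_simp
    rw [this, ENNReal.rpow_one]
  set l : ℝ := (1 + Real.log N) ^ ((n:ℝ) / (n + 1)) with hl
  have hl0 : 0 < l := Real.rpow_pos_of_pos (by linarith) _
  have hlp : l ^ (n + 1) = (1 + Real.log N) ^ n := by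
    rw [hl, ← Real.rpow_natCast, ← Real.rpow_mul (by linarith)]
    have : (n:ℝ) / (n + 1) * ((n + 1 : ℕ) : ℝ) = n := by
      push_cast
      field_simp
    rw [this, Real.rpow_natCast]
  set D : ℝ := rD n ρ * N ^ n * l with hDd
  have hD0 : 0 < D := by positivity
  have hpt : ∀ z ∈ closedBall (0 : F (n + 1)) 7,
      (⨆ i, Lam (ρ * N) (N ^ 2) (fun x => v ‖x - o‖) (a i) z) ^ (n + 1) ≤
      (ENNReal.ofReal (D ^ (n + 1)) * I) * ENNReal.ofReal (2 / (N * ‖z‖ + 1)) ^ (n + 1) := by
    intro z hz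
    rw [mem_closedBall, dist_zero_right] at hz
    have h1 : (⨆ i, Lam (ρ * N) (N ^ 2) (fun x => v ‖x - o‖) (a i) z) ≤
        ENNReal.ofReal (D * (2 / (N * ‖z‖ + 1))) * X := by
      refine iSup_le fun i => ?_
      have e := Lam_shift (ρ * N) (N ^ 2) (fun x : F (n + 1) => v ‖x‖) o (a i) z
      rw [e]
      exact Lam_rad hn hv hN hρ (a i - o) z hz
    refine (pow_le_pow_left' h1 (n + 1)).trans (le_of_eq ?_)
    rw [mul_pow, hXp, ENNReal.ofReal_mul hD0.le, mul_pow, ENNReal.ofReal_pow hD0.le]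
    ring
  calc ∫⁻ z in closedBall 0 7, (⨆ i, Lam (ρ * N) (N ^ 2) (fun x => v ‖x - o‖) (a i) z) ^ (n + 1)
      ≤ ∫⁻ z in closedBall (0 : F (n + 1)) 7,
          (ENNReal.ofReal (D ^ (n + 1)) * I) * ENNReal.ofReal (2 / (N * ‖z‖ + 1)) ^ (n + 1) :=
        setLIntegral_mono' isClosed_closedBall.measurableSet hpt
    _ = (ENNReal.ofReal (D ^ (n + 1)) * I) * ∫⁻ z in closedBall (0 : F (n + 1)) 7,
          ENNReal.ofReal (2 / (N * ‖z‖ + 1)) ^ (n + 1) := by
        rw [lintegral_const_mul]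
        fun_prop
    _ ≤ (ENNReal.ofReal (D ^ (n + 1)) * I) * ENNReal.ofReal ((2 / N) ^ (n + 1) * (s' * (g *
        (1 + Real.log N)))) := mul_le_mul_right (weight_int hN) _
    _ = ENNReal.ofReal (D ^ (n + 1) * ((2 / N) ^ (n + 1) * (s' * (g * (1 + Real.log N))))) * I := by
        rw [ENNReal.ofReal_mul (p := D ^ (n + 1)) (by positivity)]
        ring
    _ ≤ _ := by
        rw [hIo, ← ENNReal.ofReal_pow (by have := rC_pos n hρ; positivity)]
        refine mul_le_mul_left (ENNReal.ofReal_le_ofReal ?_) _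
        have e1 : D ^ (n + 1) * ((2 / N) ^ (n + 1) * (s' * (g * (1 + Real.log N)))) =
            (2 * rD n ρ * (1 + Real.log N) * N ^ (n + 1) / N ^ 2) ^ (n + 1) * (s' * g) := by
          have e2 : D ^ (n + 1) * (2 / N) ^ (n + 1) * (1 + Real.log N) =
              (2 * rD n ρ * (1 + Real.log N) * N ^ (n + 1) / N ^ 2) ^ (n + 1) := by
            have e3 : D ^ (n + 1) * (2 / N) ^ (n + 1) = (2 * rD n ρ * N ^ n / N) ^ (n + 1) *
                (1 + Real.log N) ^ n := by
              rw [← mul_pow, ← hlp, ← mul_pow]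
              congr 1
              rw [hDd]
              ring
            have e4 : 2 * rD n ρ * (1 + Real.log N) * N ^ (n + 1) / N ^ 2 =
                (2 * rD n ρ * N ^ n / N) * (1 + Real.log N) := by
              rw [pow_succ N n]
              field_simp
            rw [e3, e4, mul_pow _ (1 + Real.log N), pow_succ (1 + Real.log N), mul_assoc]
          rw [← e2]
          ring
        have e5 : rC n ρ * (1 + Real.log N) * N ^ (n + 1) / N ^ 2 =
            (2 * rD n ρ * (1 + Real.log N) * N ^ (n + 1) / N ^ 2) * (1 + s' * g) := by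
          unfold rC
          rw [← hs', ← hg]
          ring
        rw [e1, e5, mul_pow]
        have h5 : s' * g ≤ (1 + s' * g) ^ (n + 1) := by
          have h6 : 0 ≤ s' * g := by positivity
          calc s' * g ≤ 1 + s' * g := by linarith
            _ = (1 + s' * g) ^ 1 := (pow_one _).symm
            _ ≤ _ := pow_le_pow_right₀ (by linarith) (by omega)
        gcongr

end Pool.Agent.K4H45.BL
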