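import Mathlib

set_option autoImplicit false

/-!
The `T T*` argument and Schur's test for nonnegative kernels.
-/

open MeasureTheory Set ENNReal

namespace Pool.Agent.K4H45.BL

/-- Arithmetic and geometric mean. -/
theorem two_mul_le (x y : ℝ≥0∞) : 2 * (x * y) ≤ x ^ 2 + y ^ 2 := by
  rcases eq_or_ne x ∞ with rfl | hx
  · simp
  rcases eq_or_ne y ∞ with rfl | hy
  · simp
  lift x to NNReal using hx
  lift y to NNReal using hy
  have h : 2 * x * y ≤ x ^ 2 + y ^ 2 := two_mul_le_add_sq x y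
  rw [mul_assoc] at h
  exact_mod_cast h

variable {Z Y : Type*} [MeasurableSpace Z] [MeasurableSpace Y]

/-- Schur's test. -/
theorem schur (μ : Measure Z) [SFinite μ] (κ : Z → Z → ℝ≥0∞)
    (hκ : Measurable (Function.uncurry κ)) (hsym : ∀ z z', κ z z' = κ z' z)
    (p : Z → ℝ≥0∞) (hp : Measurable p) (hp0 : ∀ z, p z ≠ 0) (hpt : ∀ z, p z ≠ ∞) (A : ℝ≥0∞)
    (hS : ∀ᵐ z ∂μ, ∫⁻ z', κ z z' * p z' ∂μ ≤ A * p z) (h : Z → ℝ≥0∞) (hh : Measurable h) :
    ∫⁻ z, ∫⁻ z', h z * h z' * κ z z' ∂μ ∂μ ≤ A * ∫⁻ z, h z ^ 2 ∂μ := by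
  set g : Z → ℝ≥0∞ := fun z => h z / p z with hg
  have hgm : Measurable g := hh.div hp
  have hgp : ∀ z, h z = g z * p z := fun z => (ENNReal.div_mul_cancel (hp0 z) (hpt z)).symm
  have hκ' : Measurable fun q : Z × Z => κ q.1 q.2 := hκ
  have hmA : Measurable fun q : Z × Z => g q.1 ^ 2 * (p q.1 * p q.2 * κ q.1 q.2) :=
    ((hgm.comp measurable_fst).pow_const 2).mul
      (((hp.comp measurable_fst).mul (hp.comp measurable_snd)).mul hκ')
  have hmB : Measurable fun q : Z × Z => g q.2 ^ 2 * (p q.1 * p q.2 * κ q.1 q.2) :=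
    ((hgm.comp measurable_snd).pow_const 2).mul
      (((hp.comp measurable_fst).mul (hp.comp measurable_snd)).mul hκ')
  set I : ℝ≥0∞ := ∫⁻ z, ∫⁻ z', g z ^ 2 * (p z * p z' * κ z z') ∂μ ∂μ with hI
  have hI2 : ∫⁻ z, ∫⁻ z', g z' ^ 2 * (p z * p z' * κ z z') ∂μ ∂μ = I := by
    rw [hI, lintegral_lintegral_swap hmB.aemeasurable]
    refine lintegral_congr fun z => lintegral_congr fun z' => ?_
    rw [hsym z' z, mul_comm (p z') (p z)]
  have hIle : I ≤ A * ∫⁻ z, h z ^ 2 ∂μ := by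
    rw [hI, ← lintegral_const_mul _ (hh.pow_const 2)]
    refine lintegral_mono_ae ?_
    filter_upwards [hS] with z hz
    have hm : Measurable fun z' => κ z z' * p z' := (hκ'.comp measurable_prodMk_left).mul hp
    calc ∫⁻ z', g z ^ 2 * (p z * p z' * κ z z') ∂μ
        = ∫⁻ z', (g z ^ 2 * p z) * (κ z z' * p z') ∂μ := by
          refine lintegral_congr fun z' => ?_
          ring
      _ = (g z ^ 2 * p z) * ∫⁻ z', κ z z' * p z' ∂μ := by rw [lintegral_const_mul _ hm]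
      _ ≤ (g z ^ 2 * p z) * (A * p z) := mul_le_mul_right hz _
      _ = A * h z ^ 2 := by rw [hgp z]; ring
  have h2 : 2 * ∫⁻ z, ∫⁻ z', h z * h z' * κ z z' ∂μ ∂μ ≤ 2 * I := by
    calc 2 * ∫⁻ z, ∫⁻ z', h z * h z' * κ z z' ∂μ ∂μ
        = ∫⁻ z, ∫⁻ z', 2 * (h z * h z' * κ z z') ∂μ ∂μ := by
          have hm : Measurable fun q : Z × Z => h q.1 * h q.2 * κ q.1 q.2 :=
            ((hh.comp measurable_fst).mul (hh.comp measurable_snd)).mul hκ'
          rw [← lintegral_const_mul _ hm.lintegral_prod_right']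
          refine lintegral_congr fun z => ?_
          have hm' : Measurable fun z' => h z * h z' * κ z z' := hm.comp measurable_prodMk_left
          rw [lintegral_const_mul _ hm']
      _ ≤ ∫⁻ z, ∫⁻ z', (g z ^ 2 * (p z * p z' * κ z z') + g z' ^ 2 * (p z * p z' * κ z z')) ∂μ ∂μ := by
          refine lintegral_mono fun z => lintegral_mono fun z' => ?_
          calc 2 * (h z * h z' * κ z z') = 2 * (g z * g z') * (p z * p z' * κ z z') := by
                rw [hgp z, hgp z']; ring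
            _ ≤ (g z ^ 2 + g z' ^ 2) * (p z * p z' * κ z z') := mul_le_mul_left (two_mul_le _ _) _
            _ = _ := by rw [add_mul]
      _ = I + I := by
          have e : ∀ z, ∫⁻ z', (g z ^ 2 * (p z * p z' * κ z z') + g z' ^ 2 * (p z * p z' * κ z z')) ∂μ =
              ∫⁻ z', g z ^ 2 * (p z * p z' * κ z z') ∂μ + ∫⁻ z', g z' ^ 2 * (p z * p z' * κ z z') ∂μ := by
            intro z
            exact lintegral_add_left (hmA.comp measurable_prodMk_left) _
          simp_rw [e]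
          rw [lintegral_add_left hmA.lintegral_prod_right', hI2]
      _ = 2 * I := (two_mul I).symm
  exact (ENNReal.mul_le_mul_iff_right (by norm_num) (by norm_num)).1 h2 |>.trans hIle

/-- The dual operator. -/
theorem dual_bound (μ : Measure Z) [SFinite μ] (ν : Measure Y) [SFinite ν] (Θ : Z → Y → ℝ≥0∞)
    (hΘ : Measurable (Function.uncurry Θ)) (p : Z → ℝ≥0∞) (hp : Measurable p) (hp0 : ∀ z, p z ≠ 0)
    (hpt : ∀ z, p z ≠ ∞) (A : ℝ≥0∞)
    (hS : ∀ᵐ z ∂μ, ∫⁻ z', (∫⁻ y, Θ z y * Θ z' y ∂ν) * p z' ∂μ ≤ A * p z)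
    (h : Z → ℝ≥0∞) (hh : Measurable h) :
    ∫⁻ y, (∫⁻ z, h z * Θ z y ∂μ) ^ 2 ∂ν ≤ A * ∫⁻ z, h z ^ 2 ∂μ := by
  have hΘ' : Measurable fun q : Z × Y => Θ q.1 q.2 := hΘ
  have hκm : Measurable (Function.uncurry fun z z' => ∫⁻ y, Θ z y * Θ z' y ∂ν) := by
    have h3 : Measurable fun q : (Z × Z) × Y => Θ q.1.1 q.2 * Θ q.1.2 q.2 :=
      (hΘ'.comp ((measurable_fst.comp measurable_fst).prodMk measurable_snd)).mul
        (hΘ'.comp ((measurable_snd.comp measurable_fst).prodMk measurable_snd))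
    exact h3.lintegral_prod_right'
  refine le_trans (le_of_eq ?_) (schur μ _ hκm (fun z z' => ?_) p hp hp0 hpt A hS h hh)
  swap
  · refine lintegral_congr fun y => mul_comm _ _
  -- expand the square
  have hm1 : Measurable fun q : Z × Y => h q.1 * Θ q.1 q.2 := (hh.comp measurable_fst).mul hΘ'
  have hH : Measurable fun y => ∫⁻ z, h z * Θ z y ∂μ := hm1.lintegral_prod_left'
  have hm1y : ∀ y, Measurable fun z => h z * Θ z y := fun y =>
    hm1.comp (measurable_id.prodMk measurable_const)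
  calc ∫⁻ y, (∫⁻ z, h z * Θ z y ∂μ) ^ 2 ∂ν
      = ∫⁻ y, ∫⁻ z, h z * Θ z y * (∫⁻ z', h z' * Θ z' y ∂μ) ∂μ ∂ν := by
        refine lintegral_congr fun y => ?_
        rw [sq, lintegral_mul_const _ (hm1y y)]
    _ = ∫⁻ z, ∫⁻ y, h z * Θ z y * (∫⁻ z', h z' * Θ z' y ∂μ) ∂ν ∂μ := by
        rw [lintegral_lintegral_swap]
        exact ((hm1.comp measurable_swap).mul (hH.comp measurable_fst)).aemeasurable
    _ = ∫⁻ z, ∫⁻ z', h z * h z' * (∫⁻ y, Θ z y * Θ z' y ∂ν) ∂μ ∂μ := by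
        refine lintegral_congr fun z => ?_
        calc ∫⁻ y, h z * Θ z y * (∫⁻ z', h z' * Θ z' y ∂μ) ∂ν
            = ∫⁻ y, ∫⁻ z', h z * Θ z y * (h z' * Θ z' y) ∂μ ∂ν := by
              refine lintegral_congr fun y => ?_
              rw [lintegral_const_mul _ (hm1y y)]
          _ = ∫⁻ z', ∫⁻ y, h z * Θ z y * (h z' * Θ z' y) ∂ν ∂μ := by
              rw [lintegral_lintegral_swap]
              have h4 : Measurable fun q : Y × Z => Θ z q.1 :=
                (hΘ'.comp (measurable_const.prodMk measurable_fst))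
              exact ((measurable_const.mul h4).mul (hm1.comp measurable_swap)).aemeasurable
          _ = _ := by
              refine lintegral_congr fun z' => ?_
              rw [← lintegral_const_mul]
              · refine lintegral_congr fun y => ?_
                ring
              · exact (hΘ'.comp measurable_prodMk_left).mul (hΘ'.comp measurable_prodMk_left)

/-- The `T T*` argument. -/
theorem tt (μ : Measure Z) [IsFiniteMeasure μ] (ν : Measure Y) [SFinite ν] (Θ : Z → Y → ℝ≥0∞)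
    (hΘ : Measurable (Function.uncurry Θ)) (p : Z → ℝ≥0∞) (hp : Measurable p) (hp0 : ∀ z, p z ≠ 0)
    (hpt : ∀ z, p z ≠ ∞) (A : ℝ≥0∞)
    (hS : ∀ᵐ z ∂μ, ∫⁻ z', (∫⁻ y, Θ z y * Θ z' y ∂ν) * p z' ∂μ ≤ A * p z)
    (w : Y → ℝ≥0∞) (hw : Measurable w) :
    ∫⁻ z, (∫⁻ y, Θ z y * w y ∂ν) ^ 2 ∂μ ≤ A * ∫⁻ y, w y ^ 2 ∂ν := by
  have hΘ' : Measurable fun q : Z × Y => Θ q.1 q.2 := hΘ
  set f : Z → ℝ≥0∞ := fun z => ∫⁻ y, Θ z y * w y ∂ν with hf
  have hm2 : Measurable fun q : Z × Y => Θ q.1 q.2 * w q.2 := hΘ'.mul (hw.comp measurable_snd)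
  have hfm : Measurable f := hm2.lintegral_prod_right'
  -- truncations
  have key : ∀ M : ℕ, ∫⁻ z, (min (f z) M) ^ 2 ∂μ ≤ A * ∫⁻ y, w y ^ 2 ∂ν := by
    intro M
    set h : Z → ℝ≥0∞ := fun z => min (f z) M with hh
    have hhm : Measurable h := hfm.min measurable_const
    set I : ℝ≥0∞ := ∫⁻ z, h z ^ 2 ∂μ with hI
    have hIf : I ≠ ∞ := by
      have : I ≤ ∫⁻ _z, (M:ℝ≥0∞) ^ 2 ∂μ := lintegral_mono fun z => by
        simp only [hh]
        gcongr
        exact min_le_right _ _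
      refine ne_top_of_le_ne_top ?_ this
      rw [lintegral_const]
      exact ENNReal.mul_ne_top (ENNReal.pow_ne_top (ENNReal.natCast_ne_top M)) (measure_ne_top _ _)
    have hm1 : Measurable fun q : Z × Y => h q.1 * Θ q.1 q.2 := (hhm.comp measurable_fst).mul hΘ'
    have hH : Measurable fun y => ∫⁻ z, h z * Θ z y ∂μ := hm1.lintegral_prod_left'
    have h1 : I ≤ ∫⁻ y, w y * (∫⁻ z, h z * Θ z y ∂μ) ∂ν := by
      calc I ≤ ∫⁻ z, h z * f z ∂μ := by
            refine lintegral_mono fun z => ?_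
            rw [sq]
            gcongr
            exact min_le_left _ _
        _ = ∫⁻ z, ∫⁻ y, h z * (Θ z y * w y) ∂ν ∂μ := by
            refine lintegral_congr fun z => ?_
            have hm2z : Measurable fun y => Θ z y * w y := hm2.comp measurable_prodMk_left
            rw [lintegral_const_mul _ hm2z]
        _ = ∫⁻ y, ∫⁻ z, h z * (Θ z y * w y) ∂μ ∂ν := by
            rw [lintegral_lintegral_swap]
            exact ((hhm.comp measurable_fst).mul hm2).aemeasurable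
        _ = _ := by
            refine lintegral_congr fun y => ?_
            have hm1y : Measurable fun z => h z * Θ z y := hm1.comp (measurable_id.prodMk measurable_const)
            rw [← lintegral_const_mul _ hm1y]
            refine lintegral_congr fun z => ?_
            ring
    have h2 : ∫⁻ y, w y * (∫⁻ z, h z * Θ z y ∂μ) ∂ν ≤
        (∫⁻ y, w y ^ (2:ℝ) ∂ν) ^ (1 / (2:ℝ)) *
          (∫⁻ y, (∫⁻ z, h z * Θ z y ∂μ) ^ (2:ℝ) ∂ν) ^ (1 / (2:ℝ)) :=
      ENNReal.lintegral_mul_le_Lp_mul_Lq ν Real.HolderConjugate.two_two hw.aemeasurable hH.aemeasurable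
    simp only [ENNReal.rpow_two] at h2
    have h3 := dual_bound μ ν Θ hΘ p hp hp0 hpt A hS h hhm
    rw [← hI] at h3
    have h4 : I ^ 2 ≤ (∫⁻ y, w y ^ 2 ∂ν) * (A * I) := by
      calc I ^ 2 ≤ ((∫⁻ y, w y ^ 2 ∂ν) ^ (1 / (2:ℝ)) * (A * I) ^ (1 / (2:ℝ))) ^ 2 := by
            gcongr
            refine (h1.trans h2).trans ?_
            gcongr
        _ = _ := by
            rw [← ENNReal.mul_rpow_of_nonneg _ _ (by norm_num), ← ENNReal.rpow_natCast,
              ← ENNReal.rpow_mul]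
            norm_num
    rcases eq_or_ne I 0 with h0 | h0
    · rw [h0]; exact zero_le
    · have h5 : I * I ≤ (A * ∫⁻ y, w y ^ 2 ∂ν) * I := by
        calc I * I = I ^ 2 := (sq I).symm
          _ ≤ _ := h4
          _ = _ := by ring
      exact (ENNReal.mul_le_mul_iff_left h0 hIf).1 h5
  -- monotone convergence
  have hmono : Monotone fun (M : ℕ) (z : Z) => (min (f z) (M : ℝ≥0∞)) ^ 2 := by
    intro M M' hM z
    simp only
    gcongr
  have hsup : ∀ z, ⨆ M : ℕ, (min (f z) (M : ℝ≥0∞)) ^ 2 = f z ^ 2 := by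
    intro z
    have hm' : Monotone fun M : ℕ => (min (f z) (M : ℝ≥0∞)) ^ 2 := fun M M' hM => hmono hM z
    refine tendsto_nhds_unique (tendsto_atTop_iSup hm') ?_
    have h1 : Filter.Tendsto (fun M : ℕ => min (f z) (M : ℝ≥0∞)) Filter.atTop (nhds (min (f z) ∞)) :=
      tendsto_const_nhds.min ENNReal.tendsto_nat_nhds_top
    rw [min_eq_left le_top] at h1
    exact (ENNReal.Tendsto.pow h1)
  calc ∫⁻ z, f z ^ 2 ∂μ = ∫⁻ z, ⨆ M : ℕ, (min (f z) (M : ℝ≥0∞)) ^ 2 ∂μ := by
        refine lintegral_congr fun z => (hsup z).symm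
    _ = ⨆ M : ℕ, ∫⁻ z, (min (f z) (M : ℝ≥0∞)) ^ 2 ∂μ :=
        lintegral_iSup (fun M => (hfm.min measurable_const).pow_const 2) hmono
    _ ≤ _ := iSup_le key

end Pool.Agent.K4H45.BL
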